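import Mathlib
import Pool.Agent.H691R3.Data2

set_option autoImplicit false

/-!
# The height of a point of the line under a linear change of coordinates
-/

namespace Pool.Agent.R365.QP

open NumberField IsDedekindDomain Height Finset Pool.Agent.H691R3

variable {K : Type} [Field K] [NumberField K]

theorem iSup_two (f : Fin 2 → ℝ) : ⨆ i, f i = max (f 0) (f 1) := by
  refine le_antisymm (ciSup_le fun i => ?_) (max_le ?_ ?_)
  · fin_cases i
    · exact le_max_left _ _
    · exact le_max_right _ _
  · exact le_ciSup (f := f) (Set.finite_range _).bddAbove 0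
  · exact le_ciSup (f := f) (Set.finite_range _).bddAbove 1

omit [NumberField K] in
theorem pr_ne {a : Fin 2 → K} (ha : a ≠ 0) : ((a 0, a 1) : K × K) ≠ 0 := by
  intro h
  apply ha
  funext i
  fin_cases i
  · exact (Prod.mk.inj h).1
  · exact (Prod.mk.inj h).2

theorem fin_part {a : Fin 2 → K} (hp : ((a 0, a 1) : K × K) ≠ 0) :
    ∏ᶠ v : FinitePlace K, ⨆ i : Fin 2, v (a i) =
      ∏ v ∈ (max_support_finite hp).toFinset, max (fv v (a 0)) (fv v (a 1)) := by
  have h2 : ∀ v : HeightOneSpectrum (𝓞 K), (⨆ i : Fin 2,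
      ((FinitePlace.equivHeightOneSpectrum (K := K)).symm v) (a i)) =
        max (fv v (a 0)) (fv v (a 1)) := by
    intro v
    rw [iSup_two]
    rfl
  rw [← finprod_comp_equiv (FinitePlace.equivHeightOneSpectrum (K := K)).symm]
  simp_rw [h2]
  refine finprod_eq_prod_of_mulSupport_subset _ ?_
  intro v hv
  rw [Set.Finite.coe_toFinset]
  exact hv

theorem fin_sum {a : Fin 2 → K} (hp : ((a 0, a 1) : K × K) ≠ 0) :
    ∑ᶠ v : HeightOneSpectrum (𝓞 K), Real.log (max (fv v (a 0)) (fv v (a 1))) =
      ∑ v ∈ (max_support_finite hp).toFinset, Real.log (max (fv v (a 0)) (fv v (a 1))) := by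
  refine finsum_eq_sum_of_support_subset _ ?_
  intro v hv
  rw [Set.Finite.coe_toFinset]
  simp only [Function.mem_support, Set.mem_ofPred_eq] at hv ⊢
  intro h
  rw [h, Real.log_one] at hv
  exact hv rfl

theorem hr_def (a : Fin 2 → K) : hr (a 0, a 1) =
    ∑ w : InfinitePlace K, (w.mult : ℝ) * Real.log (max (w (a 0)) (w (a 1))) +
    ∑ᶠ v : HeightOneSpectrum (𝓞 K), Real.log (max (fv v (a 0)) (fv v (a 1))) := rfl

/-- the relative logarithmic height is the height of Mathlib -/
theorem hr_eq {a : Fin 2 → K} (ha : a ≠ 0) : hr (a 0, a 1) = logHeight a := by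
  have hp := pr_ne ha
  have hpos : ∀ w : InfinitePlace K, 0 < max (w (a 0)) (w (a 1)) := fun w =>
    Pool.Agent.H691R3.max_pos (p := (a 0, a 1)) w.1 hp
  have hpos2 : ∀ v : HeightOneSpectrum (𝓞 K), 0 < max (fv v (a 0)) (fv v (a 1)) :=
    fun v => Pool.Agent.H691R3.max_pos (p := (a 0, a 1)) (fv v) hp
  have e1 : logHeight a = Real.log ((∏ w : InfinitePlace K, max (w (a 0)) (w (a 1)) ^ w.mult) *
      ∏ v ∈ (max_support_finite hp).toFinset, max (fv v (a 0)) (fv v (a 1))) := by
    rw [Height.logHeight_eq_log_mulHeight, NumberField.mulHeight_eq ha, fin_part hp]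
    congr 2
    refine Finset.prod_congr rfl fun w _ => ?_
    rw [iSup_two]
  have e2 : Real.log (∏ w : InfinitePlace K, max (w (a 0)) (w (a 1)) ^ w.mult) =
      ∑ w : InfinitePlace K, (w.mult : ℝ) * Real.log (max (w (a 0)) (w (a 1))) := by
    rw [Real.log_prod]
    · refine Finset.sum_congr rfl fun w _ => ?_
      rw [Real.log_pow]
    · intro w _
      exact (pow_pos (hpos w) _).ne'
  have e3 : Real.log (∏ v ∈ (max_support_finite hp).toFinset, max (fv v (a 0)) (fv v (a 1))) =
      ∑ v ∈ (max_support_finite hp).toFinset, Real.log (max (fv v (a 0)) (fv v (a 1))) := by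
    rw [Real.log_prod]
    intro v _
    exact (hpos2 v).ne'
  have e4 : (∏ w : InfinitePlace K, max (w (a 0)) (w (a 1)) ^ w.mult) ≠ 0 :=
    (Finset.prod_pos fun w _ => pow_pos (hpos w) _).ne'
  have e5 : (∏ v ∈ (max_support_finite hp).toFinset, max (fv v (a 0)) (fv v (a 1))) ≠ 0 :=
    (Finset.prod_pos fun v _ => hpos2 v).ne'
  rw [e1, Real.log_mul e4 e5, e2, e3, hr_def, fin_sum hp]

theorem hr_aff (x : K) : hr (aff x) = logHeight ![x, 1] :=
  hr_eq (K := K) (a := ![x, 1]) (fun h => by
    have := congrFun h 1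
    simp at this)

theorem hr_aff_div (x y : K) : hr (aff (x / y)) = logHeight ![x, y] := by
  rw [hr_aff, ← Height.logHeight₁_eq_logHeight, Height.logHeight₁_div_eq_logHeight]

/-- the height under an invertible linear change -/
theorem lin_bounds (a b c d : K) (hD : a * d - b * c ≠ 0) : ∃ C : ℝ, 0 ≤ C ∧ ∀ x : K,
    logHeight ![a * x + b, c * x + d] ≤ logHeight ![x, 1] + C ∧
    logHeight ![x, 1] ≤ logHeight ![a * x + b, c * x + d] + C := by
  set A : Fin 2 × Fin 2 → K := fun p => !![a, b; c, d] p.1 p.2 with hA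
  set A' : Fin 2 × Fin 2 → K := fun p => !![d, -b; -c, a] p.1 p.2 with hA'
  set w : ℝ := (totalWeight K : ℝ) * Real.log (Nat.card (Fin 2)) with hw
  have hw0 : 0 ≤ w := by
    rw [hw]
    refine mul_nonneg (Nat.cast_nonneg _) (Real.log_nonneg ?_)
    simp
  have hA0 : 0 ≤ logHeight A := Height.logHeight_nonneg _
  have hA0' : 0 ≤ logHeight A' := Height.logHeight_nonneg _
  refine ⟨w + logHeight A + logHeight A', by positivity, fun x => ⟨?_, ?_⟩⟩
  · have h := Height.logHeight_linearMap_apply_le A ![x, 1]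
    have e : (fun j => ∑ i, A (j, i) * ![x, 1] i) = ![a * x + b, c * x + d] := by
      funext j
      fin_cases j <;> simp [hA, Fin.sum_univ_two]
    rw [e] at h
    linarith
  · have h := Height.logHeight_linearMap_apply_le A' ![a * x + b, c * x + d]
    have e : (fun j => ∑ i, A' (j, i) * ![a * x + b, c * x + d] i) =
        (a * d - b * c) • ![x, 1] := by
      funext j
      fin_cases j <;> simp [hA', Fin.sum_univ_two] <;> ring
    rw [e, Height.logHeight_smul_eq_logHeight _ hD] at h
    linarith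

end Pool.Agent.R365.QP
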