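import Mathlib
import Pool.Agent.H691R3.Data2
import Pool.Agent.R365.AK.Main
import Pool.Agent.R365.QP.Ht

set_option autoImplicit false

/-!
# From three points of the line to the points `0, -1, ∞`
-/

namespace Pool.Agent.R365.QP

open NumberField IsDedekindDomain Height Finset Pool.Agent.H691R3 Pool.Agent.W223.AK

variable {K : Type} [Field K] [NumberField K]

/-- the truncated counting function with respect to one point -/
noncomputable def n1 (T : Set (Pr K)) (a : K × K) (x : K) : ℝ :=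
  ∑ᶠ (v : Pr K) (_ : v ∉ T), min (lamA (fv v) (aff x) a) (Real.log (Nv v))

open Classical in
theorem n1_eq (T : Set (Pr K)) (a : K × K) (x : K) (V : Finset (Pr K))
    (hV : ∀ v, v ∉ V → lamA (fv v) (aff x) a = 0) :
    n1 T a x = ∑ v ∈ V.filter (fun v => v ∉ T), min (lamA (fv v) (aff x) a) (Real.log (Nv v)) := by
  unfold n1
  simp only [← Set.mem_compl_iff]
  rw [finsum_mem_eq_sum_of_inter_support_eq (t := V.filter (fun v => v ∈ Tᶜ))]
  ext v
  simp only [Set.mem_compl_iff, Set.mem_inter_iff, Function.mem_support, Finset.coe_filter,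
    Set.mem_ofPred_eq]
  constructor
  · rintro ⟨hv1, hv2⟩
    refine ⟨⟨?_, hv1⟩, hv2⟩
    by_contra hcon
    apply hv2
    rw [hV v hcon]
    exact min_eq_left (log_Nv_pos v).le
  · rintro ⟨⟨_, hv1⟩, hv2⟩
    exact ⟨hv1, hv2⟩

/-- the finite set of primes -/
theorem exists_V {q : ℕ} {α : Fin q → K × K} (hα0 : ∀ l, α l ≠ 0) {x : K} (hx : Off α x) :
    ∃ V : Finset (Pr K), ∀ v, v ∉ V → ∀ l, lamA (fv v) (aff x) (α l) = 0 := by
  classical
  refine ⟨Finset.univ.biUnion fun l =>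
    (lamF_support_finite (aff_ne_zero x) (hα0 l) (hx l)).toFinset, fun v hv l => ?_⟩
  by_contra hne
  apply hv
  rw [Finset.mem_biUnion]
  exact ⟨l, Finset.mem_univ _, by rw [Set.Finite.mem_toFinset]; exact hne⟩

theorem NTc_eq {q : ℕ} (T : Set (Pr K)) {α : Fin q → K × K} (hα0 : ∀ l, α l ≠ 0) {x : K}
    (hx : Off α x) : NTc T α x = ∑ l, n1 T (α l) x := by
  classical
  obtain ⟨V, hV⟩ := exists_V hα0 hx
  have h1 : ∀ l, n1 T (α l) x = ∑ v ∈ V.filter (fun v => v ∉ T),
      min (lamA (fv v) (aff x) (α l)) (Real.log (Nv v)) := fun l =>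
    n1_eq T (α l) x V fun v hv => hV v hv l
  simp only [h1]
  rw [Finset.sum_comm]
  unfold NTc
  simp only [← Set.mem_compl_iff]
  rw [finsum_mem_eq_sum_of_inter_support_eq (t := V.filter (fun v => v ∈ Tᶜ))]
  ext v
  simp only [Set.mem_compl_iff, Set.mem_inter_iff, Function.mem_support, Finset.coe_filter,
    Set.mem_ofPred_eq]
  constructor
  · rintro ⟨hv1, hv2⟩
    refine ⟨⟨?_, hv1⟩, hv2⟩
    by_contra hcon
    apply hv2
    refine Finset.sum_eq_zero fun l _ => ?_
    rw [hV v hcon l]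
    exact min_eq_left (log_Nv_pos v).le
  · rintro ⟨⟨_, hv1⟩, hv2⟩
    exact ⟨hv1, hv2⟩

theorem rl_le_n1 (T : Set (Pr K)) {a : K × K} (ha : a ≠ 0) {x : K}
    (hx : (aff x).1 * a.2 - (aff x).2 * a.1 ≠ 0) (P : Idl K)
    (hP : ∀ v, P v ≠ 0 → v ∉ T ∧ fv v ((aff x).1 * a.2 - (aff x).2 * a.1) <
      max (fv v (aff x).1) (fv v (aff x).2) * max (fv v a.1) (fv v a.2)) :
    rl P ≤ n1 T a x := by
  classical
  set V : Finset (Pr K) := (lamF_support_finite (aff_ne_zero x) ha hx).toFinset ∪ P.support with hV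
  rw [n1_eq T a x V fun v hv => by
    by_contra hne
    apply hv
    rw [hV, Finset.mem_union]
    left
    rw [Set.Finite.mem_toFinset]
    exact hne]
  have h1 : rl P ≤ ∑ v ∈ P.support, min (lamA (fv v) (aff x) a) (Real.log (Nv v)) := by
    unfold rl
    refine Finset.sum_le_sum fun v hv => ?_
    rw [Finsupp.mem_support_iff] at hv
    obtain ⟨_, h2⟩ := hP v hv
    obtain ⟨m, hm⟩ := lamF_discrete v (aff_ne_zero x) ha hx
    have hpos : 0 < lamA (fv v) (aff x) a := by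
      unfold lamA
      refine Real.log_pos ?_
      rw [one_lt_div ((fv v).pos hx)]
      exact h2
    have hm0 : m ≠ 0 := by
      rintro rfl
      rw [hm] at hpos
      simp at hpos
    have hm1 : (1 : ℝ) ≤ m := by exact_mod_cast Nat.one_le_iff_ne_zero.2 hm0
    refine le_min ?_ le_rfl
    rw [hm]
    have := log_Nv_pos v
    nlinarith
  refine h1.trans ?_
  refine Finset.sum_le_sum_of_subset_of_nonneg ?_ ?_
  · intro v hv
    rw [Finset.mem_filter, hV, Finset.mem_union]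
    refine ⟨Or.inr hv, ?_⟩
    rw [Finsupp.mem_support_iff] at hv
    exact (hP v hv).1
  · intro v _ _
    exact le_min (lamF_nonneg v (aff_ne_zero x) ha hx) (log_Nv_pos v).le

/-- the count for three points -/
theorem three {lam : ℝ} (hl : 0 ≤ lam) {e : ℝ} (he : 0 ≤ e) (hF : Pool.Agent.R365.AK.Fin3 K lam e)
    (T : Set (Pr K)) (hT : T.Finite)
    (β : Fin 3 → K × K) (hβ0 : ∀ l, β l ≠ 0)
    (h01 : wg (β 0) (β 1) ≠ 0) (h12 : wg (β 1) (β 2) ≠ 0) (h20 : wg (β 2) (β 0) ≠ 0)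
    (c₀ δ : ℝ) (hδ : 0 < δ) :
    ∃ D : ℝ, 0 < D ∧ ∀ (X : ℝ) (E : Finset K), 0 ≤ X →
      (∀ x ∈ E, (∀ l, x * (β l).2 - 1 * (β l).1 ≠ 0) ∧ hr (aff x) ≤ X ∧
        n1 T (β 0) x + n1 T (β 1) x + n1 T (β 2) x ≤ lam * hr (aff x) + c₀) →
      (E.card : ℝ) ≤ D * Real.exp ((e + δ) * X) := by
  classical
  set c0 : K := wg (β 1) (β 2) with hc0
  set c1 : K := wg (β 2) (β 0) with hc1
  set c2 : K := wg (β 0) (β 1) with hc2
  -- the height
  obtain ⟨C, hC, hht⟩ := lin_bounds (K := K) (c0 * (β 0).2) (-(c0 * (β 0).1)) (c1 * (β 1).2)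
    (-(c1 * (β 1).1)) (by
      have h : c0 * (β 0).2 * -(c1 * (β 1).1) - -(c0 * (β 0).1) * (c1 * (β 1).2) =
          c0 * c1 * c2 := by
        rw [hc2]; unfold wg; ring
      rw [h]
      exact mul_ne_zero (mul_ne_zero h12 h20) h01)
  -- the bad primes
  set bad : Set (Pr K) := T ∪ ((⋃ l : Fin 3, {v | max (fv v (β l).1) (fv v (β l).2) ≠ 1}) ∪
    ({v | fv v c0 ≠ 1} ∪ ({v | fv v c1 ≠ 1} ∪ {v | fv v c2 ≠ 1}))) with hbad
  have hbadf : bad.Finite :=
    hT.union ((Set.finite_iUnion fun l => max_support_finite (hβ0 l)).union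
      ((fv_support_finite h12).union ((fv_support_finite h20).union (fv_support_finite h01))))
  set S : Finset (Pr K) := hbadf.toFinset with hS
  have hSg : ∀ v, v ∉ S → v ∉ T ∧ (∀ l, max (fv v (β l).1) (fv v (β l).2) = 1) ∧ fv v c0 = 1 ∧
      fv v c1 = 1 ∧ fv v c2 = 1 := by
    intro v hv
    rw [hS, Set.Finite.mem_toFinset, hbad] at hv
    simp only [Set.mem_union, Set.mem_iUnion, Set.mem_ofPred_eq, not_or, not_exists] at hv
    push Not at hv
    exact ⟨hv.1, hv.2.1, hv.2.2.1, hv.2.2.2.1, hv.2.2.2.2⟩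
  obtain ⟨D, hD, hmain⟩ := hF S (lam * C + c₀) δ hδ
  refine ⟨D * Real.exp ((e + δ) * C), by positivity, fun X E hX hE => ?_⟩
  set y : K → K := fun x => (c0 * (β 0).2 * x + -(c0 * (β 0).1)) /
    (c1 * (β 1).2 * x + -(c1 * (β 1).1)) with hy
  have hz0 : ∀ x, c0 * (β 0).2 * x + -(c0 * (β 0).1) = c0 * (x * (β 0).2 - 1 * (β 0).1) := by
    intro x; ring
  have hz1 : ∀ x, c1 * (β 1).2 * x + -(c1 * (β 1).1) = c1 * (x * (β 1).2 - 1 * (β 1).1) := by
    intro x; ring
  have hrel : ∀ x, c0 * (x * (β 0).2 - 1 * (β 0).1) + c1 * (x * (β 1).2 - 1 * (β 1).1) =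
      -(c2 * (x * (β 2).2 - 1 * (β 2).1)) := by
    intro x
    rw [hc0, hc1, hc2]; unfold wg; ring
  have hinj : Set.InjOn y E := by
    intro x hx x' hx' h
    obtain ⟨ho, _⟩ := hE x hx
    obtain ⟨ho', _⟩ := hE x' hx'
    simp only [hy] at h
    rw [hz0, hz1, hz0, hz1, div_eq_div_iff (mul_ne_zero h20 (ho 1)) (mul_ne_zero h20 (ho' 1))] at h
    have h2 : c0 * c1 * c2 * (x - x') = 0 := by
      rw [hc2]; unfold wg
      linear_combination h
    have h3 : x - x' = 0 := by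
      rcases mul_eq_zero.mp h2 with h4 | h4
      · exact absurd h4 (mul_ne_zero (mul_ne_zero h12 h20) h01)
      · exact h4
    exact sub_eq_zero.mp h3
  rw [← Finset.card_image_of_injOn hinj]
  refine (hmain (X + C) (E.image y) (by linarith) ?_).trans (le_of_eq ?_)
  · intro t ht'
    obtain ⟨x, hx, rfl⟩ := Finset.mem_image.mp ht'
    obtain ⟨ho, hhx, hn⟩ := hE x hx
    have hz0ne : c0 * (x * (β 0).2 - 1 * (β 0).1) ≠ 0 := mul_ne_zero h12 (ho 0)
    have hz1ne : c1 * (x * (β 1).2 - 1 * (β 1).1) ≠ 0 := mul_ne_zero h20 (ho 1)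
    have hz2ne : c2 * (x * (β 2).2 - 1 * (β 2).1) ≠ 0 := mul_ne_zero h01 (ho 2)
    have hyx : y x = (c0 * (x * (β 0).2 - 1 * (β 0).1)) / (c1 * (x * (β 1).2 - 1 * (β 1).1)) := by
      simp only [hy]; rw [hz0, hz1]
    have hy1 : y x + 1 = (-(c2 * (x * (β 2).2 - 1 * (β 2).1))) /
        (c1 * (x * (β 1).2 - 1 * (β 1).1)) := by
      rw [hyx, div_add_one hz1ne, hrel]
    have hPt : Pt (y x) := by
      constructor
      · rw [hyx]; exact div_ne_zero hz0ne hz1ne
      · rw [hy1]; exact div_ne_zero (neg_ne_zero.mpr hz2ne) hz1ne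
    have hh := hht x
    have hhty : ht (y x) = logHeight ![c0 * (β 0).2 * x + -(c0 * (β 0).1),
        c1 * (β 1).2 * x + -(c1 * (β 1).1)] := by
      unfold ht
      simp only [hy]
      exact hr_aff_div _ _
    rw [← hhty, ← hr_aff] at hh
    obtain ⟨P, hP⟩ := exists_isP S hPt
    refine ⟨hPt, by linarith [hh.1], P, hP, ?_⟩
    have key : ∀ (l : Fin 3) (z : K), (∀ v, v ∉ S → fv v z = fv v (L l (y x)) *
        fv v (c1 * (x * (β 1).2 - 1 * (β 1).1))) →
        (∀ v, v ∉ S → fv v z = fv v (x * (β l).2 - 1 * (β l).1)) → rl (P l) ≤ n1 T (β l) x := by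
      intro l z h1 h2
      refine rl_le_n1 T (hβ0 l) (ho l) (P l) ?_
      intro v hv
      have hvS : v ∉ S := fun h => hv (hP.off l v h)
      obtain ⟨g1, g2, g3, g4, g5⟩ := hSg v hvS
      refine ⟨g1, ?_⟩
      have h3 := fv_lt_of_ne hP hv
      have hpos : 0 < fv v (c1 * (x * (β 1).2 - 1 * (β 1).1)) := (fv v).pos hz1ne
      show fv v (x * (β l).2 - 1 * (β l).1) < _
      rw [← h2 v hvS, h1 v hvS]
      have h4 : fv v (L l (y x)) * fv v (c1 * (x * (β 1).2 - 1 * (β 1).1)) <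
          max (fv v (y x)) 1 * fv v (c1 * (x * (β 1).2 - 1 * (β 1).1)) :=
        mul_lt_mul_of_pos_right h3 hpos
      refine h4.trans_le ?_
      rw [g2 l, mul_one, max_mul_of_nonneg _ _ hpos.le, one_mul (fv v _), ← map_mul, hyx,
        div_mul_cancel₀ _ hz1ne, map_mul, map_mul, g3, g4, one_mul (fv v _), one_mul (fv v _)]
      have hb : ∀ m : Fin 3, fv v (x * (β m).2 - 1 * (β m).1) ≤
          max (fv v (aff x).1) (fv v (aff x).2) := by
        intro m
        have h5 : x * (β m).2 - 1 * (β m).1 = x * (β m).2 + -(1 * (β m).1) := by ring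
        rw [h5]
        refine (fv_na v _ _).trans ?_
        rw [map_neg_eq_map, map_mul, map_mul]
        have h6 : fv v (β m).1 ≤ 1 := (le_max_left _ _).trans (g2 m).le
        have h7 : fv v (β m).2 ≤ 1 := (le_max_right _ _).trans (g2 m).le
        refine max_le ?_ ?_
        · refine le_trans ?_ (le_max_left _ _)
          exact mul_le_of_le_one_right ((fv v).nonneg _) h7
        · refine le_trans ?_ (le_max_right _ _)
          exact mul_le_of_le_one_right ((fv v).nonneg _) h6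
      exact max_le (hb 0) (hb 1)
    have k0 := key 0 (c0 * (x * (β 0).2 - 1 * (β 0).1))
      (fun v _ => by rw [L_zero, hyx, ← map_mul, div_mul_cancel₀ _ hz1ne])
      (fun v hv => by
        obtain ⟨_, _, g3, _, _⟩ := hSg v hv
        rw [map_mul, g3, one_mul (fv v _)])
    have k1 := key 1 (c1 * (x * (β 1).2 - 1 * (β 1).1))
      (fun v _ => by rw [L_one, map_one, one_mul (fv v _)])
      (fun v hv => by
        obtain ⟨_, _, _, g4, _⟩ := hSg v hv
        rw [map_mul, g4, one_mul (fv v _)])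
    have k2 := key 2 (c2 * (x * (β 2).2 - 1 * (β 2).1))
      (fun v _ => by rw [L_two, hy1, ← map_mul, div_mul_cancel₀ _ hz1ne, map_neg_eq_map])
      (fun v hv => by
        obtain ⟨_, _, _, _, g5⟩ := hSg v hv
        rw [map_mul, g5, one_mul (fv v _)])
    have h9 : lam * hr (aff x) ≤ lam * (ht (y x) + C) := mul_le_mul_of_nonneg_left hh.2 hl
    linarith
  · rw [mul_assoc, ← Real.exp_add]
    congr 2
    ring

end Pool.Agent.R365.QP
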