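import Mathlib
import Pool.Agent.R365.QP.Trans

set_option autoImplicit false

/-!
# The points with few reductions, any number of given points
-/

namespace Pool.Agent.R365.QP

open NumberField IsDedekindDomain Height Finset Pool.Agent.H691R3 Pool.Agent.W223.AK

/-- a subset of given size with at least average sum -/
lemma exists_heavy {q : ℕ} (f : Fin q → ℝ) (r : ℕ) (hr : r ≤ q) :
    ∃ S : Finset (Fin q), S.card = r ∧ (r : ℝ) * ∑ i, f i ≤ q * ∑ i ∈ S, f i := by
  classical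
  have key : ∀ s : ℕ, s ≤ q → ∃ S : Finset (Fin q), S.card = q - s ∧
      ((q - s : ℕ) : ℝ) * ∑ i, f i ≤ q * ∑ i ∈ S, f i := by
    intro s
    induction s with
    | zero =>
      intro _
      refine ⟨Finset.univ, by simp, ?_⟩
      simp
    | succ s ih =>
      intro hs
      obtain ⟨S, hS1, hS2⟩ := ih (by omega)
      have hne : S.Nonempty := by
        rw [← Finset.card_pos, hS1]; omega
      obtain ⟨i0, hi0, hmin⟩ := Finset.exists_min_image S f hne
      refine ⟨S.erase i0, ?_, ?_⟩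
      · rw [Finset.card_erase_of_mem hi0, hS1]; omega
      · have h1 : ∑ i ∈ S.erase i0, f i + f i0 = ∑ i ∈ S, f i :=
          Finset.sum_erase_add S f hi0
        have h2 : (S.card : ℝ) * f i0 ≤ ∑ i ∈ S, f i := by
          rw [← nsmul_eq_mul]
          exact Finset.card_nsmul_le_sum S f _ hmin
        rw [hS1] at h2
        have h3 : ((q - s : ℕ) : ℝ) = ((q - (s + 1) : ℕ) : ℝ) + 1 := by
          have : q - s = (q - (s + 1)) + 1 := by omega
          rw [this]; push_cast; ring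
        set n : ℝ := ((q - (s + 1) : ℕ) : ℝ) with hn
        have hn0 : 0 ≤ n := by rw [hn]; positivity
        rw [h3] at hS2 h2
        have h4 : (n + 1) * (n * ∑ i, f i) ≤ (n + 1) * (q * ∑ i ∈ S.erase i0, f i) := by
          have h5 : (n + 1) * (n * ∑ i, f i) ≤ n * (q * ∑ i ∈ S, f i) := by
            have := mul_le_mul_of_nonneg_left hS2 hn0
            linarith
          have h6 : n * (q * ∑ i ∈ S, f i) ≤ (n + 1) * (q * ∑ i ∈ S.erase i0, f i) := by
            have h7 : ∑ i ∈ S.erase i0, f i = ∑ i ∈ S, f i - f i0 := by linarith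
            rw [h7]
            have hq0 : (0 : ℝ) ≤ q := Nat.cast_nonneg _
            have h8 := mul_le_mul_of_nonneg_left h2 hq0
            nlinarith
          exact h5.trans h6
        exact le_of_mul_le_mul_left h4 (by linarith)
  obtain ⟨S, hS1, hS2⟩ := key (q - r) (by omega)
  have e : q - (q - r) = r := by omega
  rw [e] at hS1 hS2
  exact ⟨S, hS1, hS2⟩

variable {K : Type} [Field K] [NumberField K]

/-- the count for `q` points, from the count for three -/
theorem count_q {q : ℕ} (hq : 3 ≤ q) (T : Set (Pr K)) (hT : T.Finite) (α : Fin q → K × K)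
    (hα0 : ∀ l, α l ≠ 0) (hα : ∀ i j, i ≠ j → wg (α i) (α j) ≠ 0) (κ : ℝ) (hκq : κ < q)
    {e : ℝ} (he : 0 ≤ e) (hF : Pool.Agent.R365.AK.Fin3 K (3 - 3 * κ / q) e) (c₀ δ : ℝ)
    (hδ : 0 < δ) :
    ∃ D : ℝ, 0 < D ∧ ∀ (X : ℝ) (E : Finset K), 0 ≤ X →
      (∀ x ∈ E, Off α x ∧ NTc T α x < (q - κ) * hr (aff x) + c₀ ∧ hr (aff x) ≤ X) →
      (E.card : ℝ) ≤ D * Real.exp ((e + δ) * X) := by
  classical
  have hqR : (0 : ℝ) < q := by
    have : 0 < q := by omega
    exact_mod_cast this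
  have hlam : 0 ≤ 3 - 3 * κ / q := by
    have : 3 * κ / q ≤ 3 := by
      rw [div_le_iff₀ hqR]
      linarith
    linarith
  have h3 : ∀ p : Fin q × Fin q × Fin q, ∃ D : ℝ, 0 < D ∧ ∀ (X : ℝ) (E : Finset K), 0 ≤ X →
      (p.1 ≠ p.2.1 ∧ p.2.1 ≠ p.2.2 ∧ p.2.2 ≠ p.1) →
      (∀ x ∈ E, (∀ l, x * (α l).2 - 1 * (α l).1 ≠ 0) ∧ hr (aff x) ≤ X ∧
        n1 T (α p.1) x + n1 T (α p.2.1) x + n1 T (α p.2.2) x ≤
          (3 - 3 * κ / q) * hr (aff x) + 3 * c₀ / q) →
      (E.card : ℝ) ≤ D * Real.exp ((e + δ) * X) := by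
    intro p
    by_cases hp : p.1 ≠ p.2.1 ∧ p.2.1 ≠ p.2.2 ∧ p.2.2 ≠ p.1
    · obtain ⟨D, hD, h⟩ := three hlam he hF T hT ![α p.1, α p.2.1, α p.2.2]
        (by
          intro l
          fin_cases l
          · exact hα0 _
          · exact hα0 _
          · exact hα0 _)
        (hα _ _ hp.1) (hα _ _ hp.2.1) (hα _ _ hp.2.2) (3 * c₀ / q) δ hδ
      refine ⟨D, hD, fun X E hX _ hE => h X E hX fun x hx => ?_⟩
      obtain ⟨h1, h2, h3⟩ := hE x hx
      refine ⟨?_, h2, h3⟩
      intro l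
      fin_cases l
      · exact h1 _
      · exact h1 _
      · exact h1 _
    · exact ⟨1, one_pos, fun X E _ h => absurd h hp⟩
  choose D hD h3 using h3
  refine ⟨1 + ∑ p, D p, ?_, fun X E hX hE => ?_⟩
  · have : 0 ≤ ∑ p, D p := Finset.sum_nonneg fun p _ => (hD p).le
    linarith
  set Q : Fin q × Fin q × Fin q → K → Prop := fun p x =>
    (p.1 ≠ p.2.1 ∧ p.2.1 ≠ p.2.2 ∧ p.2.2 ≠ p.1) ∧
      n1 T (α p.1) x + n1 T (α p.2.1) x + n1 T (α p.2.2) x ≤
          (3 - 3 * κ / q) * hr (aff x) + 3 * c₀ / q with hQ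
  have hcov : E ⊆ Finset.univ.biUnion fun p => E.filter (Q p) := by
    intro x hx
    obtain ⟨ho, hn, hh⟩ := hE x hx
    rw [NTc_eq T hα0 ho] at hn
    obtain ⟨S, hS1, hS2⟩ := exists_heavy (fun l => - n1 T (α l) x) 3 hq
    rw [Finset.sum_neg_distrib, Finset.sum_neg_distrib] at hS2
    obtain ⟨i, j, k, hij, hik, hjk, rfl⟩ := Finset.card_eq_three.mp hS1
    rw [Finset.sum_insert (by simp [hij, hik]), Finset.sum_pair hjk] at hS2
    rw [Finset.mem_biUnion]
    refine ⟨(i, j, k), Finset.mem_univ _, ?_⟩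
    rw [Finset.mem_filter]
    refine ⟨hx, ⟨hij, hjk, hik.symm⟩, ?_⟩
    show n1 T (α i) x + n1 T (α j) x + n1 T (α k) x ≤ _
    have h5 : (q : ℝ) * (n1 T (α i) x + n1 T (α j) x + n1 T (α k) x) ≤
        3 * ((q - κ) * hr (aff x) + c₀) := by
      push_cast at hS2
      linarith
    have h6 : (3 - 3 * κ / q) * hr (aff x) + 3 * c₀ / q =
        (3 * ((q - κ) * hr (aff x) + c₀)) / q := by
      field_simp
    rw [h6, le_div_iff₀ hqR]
    linarith
  have hc1 : (E.card : ℝ) ≤ ∑ p, ((E.filter (Q p)).card : ℝ) := by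
    have := (Finset.card_le_card hcov).trans Finset.card_biUnion_le
    exact_mod_cast this
  have hc2 : ∀ p, ((E.filter (Q p)).card : ℝ) ≤ D p * Real.exp ((e + δ) * X) := by
    intro p
    by_cases hp : p.1 ≠ p.2.1 ∧ p.2.1 ≠ p.2.2 ∧ p.2.2 ≠ p.1
    · refine h3 p X _ hX hp fun x hx => ?_
      rw [Finset.mem_filter] at hx
      obtain ⟨ho, _, hh⟩ := hE x hx.1
      exact ⟨ho, hh, hx.2.2⟩
    · have : E.filter (Q p) = ∅ := by
        rw [Finset.filter_eq_empty_iff]
        intro x _ hx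
        exact hp hx.1
      rw [this, Finset.card_empty, Nat.cast_zero]
      have := hD p
      positivity
  refine hc1.trans ((Finset.sum_le_sum fun p _ => hc2 p).trans ?_)
  rw [← Finset.sum_mul]
  refine mul_le_mul_of_nonneg_right ?_ (Real.exp_pos _).le
  linarith

end Pool.Agent.R365.QP
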