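import Pool.Agent.R365.QP.Stm

/-! QP-COPR: at least `M ^ 2 / 4` coprime pairs with odd second entry. -/

set_option autoImplicit false

namespace Pool.Agent.R365.QP

namespace CoprX

/-- pairs with both entries divisible by `d` -/
def dv (M d : ℕ) : Finset (ℕ × ℕ) :=
  (Finset.Icc 1 M ×ˢ Finset.Icc 1 M).filter fun p => d ∣ p.1 ∧ d ∣ p.2

theorem dv_card (M d : ℕ) : (dv M d).card = (M / d) ^ 2 := by
  have h : dv M d = ((Finset.Icc 1 M).filter fun a => d ∣ a) ×ˢ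
      ((Finset.Icc 1 M).filter fun a => d ∣ a) := by
    ext p
    simp only [dv, Finset.mem_filter, Finset.mem_product]
    tauto
  have h1 : ((Finset.Icc 1 M).filter fun a => d ∣ a).card = M / d := by
    rw [← Nat.Ioc_filter_dvd_card_eq_div M d]
    congr 1
  rw [h, Finset.card_product, h1, sq]

theorem dv_card_le (M d : ℕ) :
    ((dv M d).card : ℝ) ≤ (M : ℝ) ^ 2 * (1 / (d : ℝ) ^ 2) := by
  rw [dv_card]
  push_cast
  have h1 : ((M / d : ℕ) : ℝ) ≤ (M : ℝ) / d := Nat.cast_div_le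
  have h2 : (0 : ℝ) ≤ ((M / d : ℕ) : ℝ) := Nat.cast_nonneg _
  calc ((M / d : ℕ) : ℝ) ^ 2 ≤ ((M : ℝ) / d) ^ 2 := pow_le_pow_left₀ h2 h1 2
    _ = _ := by
      rw [div_pow]
      ring

theorem sum_bound (n : ℕ) : ∑ k ∈ Finset.Icc 1 n, (1 / ((2 * k + 1 : ℕ) : ℝ) ^ 2) ≤
    1 / 4 - 1 / (4 * ((n : ℝ) + 1)) := by
  induction n with
  | zero => norm_num
  | succ n ih =>
    rw [Finset.sum_Icc_succ_top (by omega)]
    have h1 : (1 / ((2 * (n + 1) + 1 : ℕ) : ℝ) ^ 2) ≤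
        1 / (4 * ((n : ℝ) + 1)) - 1 / (4 * ((n : ℝ) + 1 + 1)) := by
      have h2 : 1 / (4 * ((n : ℝ) + 1)) - 1 / (4 * ((n : ℝ) + 1 + 1)) =
          1 / (4 * ((n : ℝ) + 1) * ((n : ℝ) + 2)) := by
        field_simp
        ring
      rw [h2]
      apply one_div_le_one_div_of_le
      · positivity
      · push_cast
        nlinarith
    push_cast at h1 ih ⊢
    linarith

theorem nc_sub (M : ℕ) : ((Finset.Icc 1 M ×ˢ Finset.Icc 1 M).filter
      fun p : ℕ × ℕ => ¬ Nat.Coprime p.1 p.2) ⊆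
    dv M 2 ∪ (Finset.Icc 1 M).biUnion fun k => dv M (2 * k + 1) := by
  intro p hp
  obtain ⟨hp1, hp2⟩ := Finset.mem_filter.1 hp
  obtain ⟨q, hq, hq1, hq2⟩ := Nat.Prime.not_coprime_iff_dvd.1 hp2
  have hp3 := Finset.mem_product.1 hp1
  have hp4 := Finset.mem_Icc.1 hp3.1
  rcases hq.eq_two_or_odd with h | h
  · subst h
    exact Finset.mem_union_left _ (Finset.mem_filter.2 ⟨hp1, hq1, hq2⟩)
  · refine Finset.mem_union_right _ (Finset.mem_biUnion.2 ⟨q / 2, ?_, ?_⟩)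
    · have h1 := hq.two_le
      have h2 := Nat.le_of_dvd (by omega) hq1
      rw [Finset.mem_Icc]
      omega
    · have h1 : 2 * (q / 2) + 1 = q := by omega
      rw [h1]
      exact Finset.mem_filter.2 ⟨hp1, hq1, hq2⟩

theorem nc_card (M : ℕ) : (((Finset.Icc 1 M ×ˢ Finset.Icc 1 M).filter
      fun p : ℕ × ℕ => ¬ Nat.Coprime p.1 p.2).card : ℝ) ≤ (M : ℝ) ^ 2 / 2 := by
  have h1 : (((Finset.Icc 1 M ×ˢ Finset.Icc 1 M).filter
      fun p : ℕ × ℕ => ¬ Nat.Coprime p.1 p.2).card : ℝ) ≤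
      ((dv M 2).card : ℝ) + ∑ k ∈ Finset.Icc 1 M, ((dv M (2 * k + 1)).card : ℝ) := by
    have h2 := (Finset.card_le_card (nc_sub M)).trans ((Finset.card_union_le _ _).trans
      (Nat.add_le_add_left Finset.card_biUnion_le _))
    exact_mod_cast h2
  have h2 : ∑ k ∈ Finset.Icc 1 M, ((dv M (2 * k + 1)).card : ℝ) ≤
      (M : ℝ) ^ 2 * ∑ k ∈ Finset.Icc 1 M, (1 / ((2 * k + 1 : ℕ) : ℝ) ^ 2) := by
    rw [Finset.mul_sum]
    exact Finset.sum_le_sum fun k _ => dv_card_le M (2 * k + 1)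
  have h3 := dv_card_le M 2
  have h4 := sum_bound M
  have h5 : 1 / 4 - 1 / (4 * ((M : ℝ) + 1)) ≤ 1 / 4 := by
    have : 0 ≤ 1 / (4 * ((M : ℝ) + 1)) := by positivity
    linarith
  have h6 : (M : ℝ) ^ 2 * ∑ k ∈ Finset.Icc 1 M, (1 / ((2 * k + 1 : ℕ) : ℝ) ^ 2) ≤
      (M : ℝ) ^ 2 * (1 / 4) := mul_le_mul_of_nonneg_left (h4.trans h5) (by positivity)
  push_cast at h3
  linarith

end CoprX

open CoprX in
theorem t_COPR : S_COPR := by
  classical
  intro M _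
  have h1 := nc_card M
  have h2 : ((Finset.Icc 1 M ×ˢ Finset.Icc 1 M).filter
      fun p : ℕ × ℕ => Nat.Coprime p.1 p.2).card + ((Finset.Icc 1 M ×ˢ Finset.Icc 1 M).filter
      fun p : ℕ × ℕ => ¬ Nat.Coprime p.1 p.2).card = M ^ 2 := by
    rw [Finset.card_filter_add_card_filter_not, Finset.card_product, Nat.card_Icc, sq]
    simp
  have h3 : ((Finset.Icc 1 M ×ˢ Finset.Icc 1 M).filter
      fun p : ℕ × ℕ => Nat.Coprime p.1 p.2).card ≤
      2 * ((Finset.Icc 1 M ×ˢ Finset.Icc 1 M).filter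
        fun p : ℕ × ℕ => Nat.Coprime p.1 p.2 ∧ ¬ 2 ∣ p.2).card := by
    have h4 : ((Finset.Icc 1 M ×ˢ Finset.Icc 1 M).filter
        fun p : ℕ × ℕ => Nat.Coprime p.1 p.2) ⊆
        ((Finset.Icc 1 M ×ˢ Finset.Icc 1 M).filter
          fun p : ℕ × ℕ => Nat.Coprime p.1 p.2 ∧ ¬ 2 ∣ p.2) ∪
        ((Finset.Icc 1 M ×ˢ Finset.Icc 1 M).filter
          fun p : ℕ × ℕ => Nat.Coprime p.1 p.2 ∧ ¬ 2 ∣ p.2).image Prod.swap := by
      intro p hp
      obtain ⟨hp1, hp2⟩ := Finset.mem_filter.1 hp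
      by_cases h : 2 ∣ p.2
      · refine Finset.mem_union_right _ (Finset.mem_image.2 ⟨p.swap, ?_, Prod.swap_swap p⟩)
        refine Finset.mem_filter.2 ⟨?_, hp2.symm, ?_⟩
        · rw [Finset.mem_product] at hp1 ⊢
          exact ⟨hp1.2, hp1.1⟩
        · intro h'
          rw [Prod.snd_swap] at h'
          have h5 := Nat.dvd_gcd h' h
          rw [Nat.coprime_iff_gcd_eq_one.1 hp2] at h5
          omega
      · exact Finset.mem_union_left _ (Finset.mem_filter.2 ⟨hp1, hp2, h⟩)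
    have h5 := (Finset.card_le_card h4).trans (Finset.card_union_le _ _)
    have h6 := Finset.card_image_le (s := ((Finset.Icc 1 M ×ˢ Finset.Icc 1 M).filter
          fun p : ℕ × ℕ => Nat.Coprime p.1 p.2 ∧ ¬ 2 ∣ p.2)) (f := Prod.swap)
    omega
  have h2' : (((Finset.Icc 1 M ×ˢ Finset.Icc 1 M).filter
      fun p : ℕ × ℕ => Nat.Coprime p.1 p.2).card : ℝ) + (((Finset.Icc 1 M ×ˢ Finset.Icc 1 M).filter
      fun p : ℕ × ℕ => ¬ Nat.Coprime p.1 p.2).card : ℝ) = (M : ℝ) ^ 2 := by exact_mod_cast h2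
  have h3' : (((Finset.Icc 1 M ×ˢ Finset.Icc 1 M).filter
      fun p : ℕ × ℕ => Nat.Coprime p.1 p.2).card : ℝ) ≤
      2 * (((Finset.Icc 1 M ×ˢ Finset.Icc 1 M).filter
        fun p : ℕ × ℕ => Nat.Coprime p.1 p.2 ∧ ¬ 2 ∣ p.2).card : ℝ) := by exact_mod_cast h3
  linarith

end Pool.Agent.R365.QP
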