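import Pool.Agent.R365.QP.Stm
import Pool.Agent.H510R2.Div

/-! # MP_6e34ef_nt, piece QP-COUNT: quadratic polynomials whose discriminant has a small square
free part -/

set_option autoImplicit false

namespace Pool.Agent.R365.QP

namespace CountAux

lemma sum_inv_sqrt (n : ℕ) :
    ∑ k ∈ Finset.range n, 1 / √((k : ℝ) + 1) ≤ 2 * √(n : ℝ) := by
  induction n with
  | zero => simp
  | succ n ih =>
    rw [Finset.sum_range_succ]
    push_cast
    have h1 : 0 < √((n : ℝ) + 1) := Real.sqrt_pos.2 (by positivity)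
    have h2 : 0 ≤ √(n : ℝ) := Real.sqrt_nonneg _
    have h3 : √((n : ℝ) + 1) ^ 2 = n + 1 := Real.sq_sqrt (by positivity)
    have h4 : √(n : ℝ) ^ 2 = n := Real.sq_sqrt (by positivity)
    have h5 : 1 / √((n : ℝ) + 1) ≤ 2 * (√((n : ℝ) + 1) - √(n : ℝ)) := by
      rw [div_le_iff₀ h1]
      nlinarith [sq_nonneg (√((n : ℝ) + 1) - √(n : ℝ))]
    linarith

/-- the possible pairs `(s, m)` -/
noncomputable def R (M Y : ℝ) : Finset (ℤ × ℕ) :=
  insert ((1 : ℤ), 0) ((Finset.range ⌊Y⌋₊).biUnion fun k =>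
    ({((k : ℤ) + 1), -((k : ℤ) + 1)} : Finset ℤ) ×ˢ Finset.Icc 1 ⌊3 * M / √((k : ℝ) + 1)⌋₊)

lemma card_R {M Y : ℝ} (hM : 1 ≤ M) (hY : 1 ≤ Y) : ((R M Y).card : ℝ) ≤ 13 * (M * √Y) := by
  have h1 : (R M Y).card ≤ (∑ k ∈ Finset.range ⌊Y⌋₊, 2 * ⌊3 * M / √((k : ℝ) + 1)⌋₊) + 1 := by
    unfold R
    refine (Finset.card_insert_le _ _).trans (Nat.add_le_add_right ?_ 1)
    refine Finset.card_biUnion_le.trans (Finset.sum_le_sum fun k _ => ?_)
    rw [Finset.card_product, Nat.card_Icc]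
    refine Nat.mul_le_mul Finset.card_le_two (by omega)
  have h2 : ((R M Y).card : ℝ) ≤ (∑ k ∈ Finset.range ⌊Y⌋₊, 6 * M * (1 / √((k : ℝ) + 1))) + 1 := by
    refine (Nat.cast_le.2 h1).trans ?_
    push_cast
    refine add_le_add_left (Finset.sum_le_sum fun k _ => ?_) 1
    have h3 : ((⌊3 * M / √((k : ℝ) + 1)⌋₊ : ℕ) : ℝ) ≤ 3 * M / √((k : ℝ) + 1) :=
      Nat.floor_le (by positivity)
    calc 2 * ((⌊3 * M / √((k : ℝ) + 1)⌋₊ : ℕ) : ℝ) ≤ 2 * (3 * M / √((k : ℝ) + 1)) := by linarith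
      _ = 6 * M * (1 / √((k : ℝ) + 1)) := by ring
  rw [← Finset.mul_sum] at h2
  have h3 := sum_inv_sqrt ⌊Y⌋₊
  have h4 : √((⌊Y⌋₊ : ℕ) : ℝ) ≤ √Y := Real.sqrt_le_sqrt (Nat.floor_le (by linarith))
  have h5 : 1 ≤ √Y := Real.one_le_sqrt.2 hY
  have h6 : 1 ≤ M * √Y := by nlinarith
  have h7 : 6 * M * ∑ k ∈ Finset.range ⌊Y⌋₊, 1 / √((k : ℝ) + 1) ≤ 6 * M * (2 * √Y) :=
    mul_le_mul_of_nonneg_left (h3.trans (by linarith)) (by linarith)
  nlinarith

lemma mem_R {M Y : ℝ} (hM : 1 ≤ M) {s m : ℤ} (hs : s ≠ 0) (hm : m ≠ 0) (hsY : |(s : ℝ)| ≤ Y)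
    (h : |(s : ℝ)| * (m : ℝ) ^ 2 ≤ 9 * M ^ 2) : (s, m.natAbs) ∈ R M Y := by
  unfold R
  rw [Finset.mem_insert]
  right
  rw [Finset.mem_biUnion]
  have hs1 : 1 ≤ s.natAbs := Int.natAbs_pos.2 hs
  have hm1 : 1 ≤ m.natAbs := Int.natAbs_pos.2 hm
  have hcs : ((s.natAbs : ℕ) : ℝ) = |(s : ℝ)| := by rw [Nat.cast_natAbs, Int.cast_abs]
  have hcm : ((m.natAbs : ℕ) : ℝ) = |(m : ℝ)| := by rw [Nat.cast_natAbs, Int.cast_abs]
  refine ⟨s.natAbs - 1, ?_, ?_⟩
  · rw [Finset.mem_range]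
    have : s.natAbs ≤ ⌊Y⌋₊ := Nat.le_floor (by rw [hcs]; exact hsY)
    omega
  · rw [Finset.mem_product]
    have hk : ((s.natAbs - 1 : ℕ) : ℤ) + 1 = (s.natAbs : ℤ) := by omega
    have hk' : ((s.natAbs - 1 : ℕ) : ℝ) + 1 = |(s : ℝ)| := by
      rw [← hcs]
      have : s.natAbs - 1 + 1 = s.natAbs := by omega
      exact_mod_cast this
    refine ⟨?_, ?_⟩
    · show s ∈ ({(((s.natAbs - 1 : ℕ) : ℤ) + 1), -(((s.natAbs - 1 : ℕ) : ℤ) + 1)} : Finset ℤ)
      rw [hk, Finset.mem_insert, Finset.mem_singleton]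
      exact Int.natAbs_eq s
    · show m.natAbs ∈ Finset.Icc 1 ⌊3 * M / √(((s.natAbs - 1 : ℕ) : ℝ) + 1)⌋₊
      rw [hk', Finset.mem_Icc]
      refine ⟨hm1, Nat.le_floor ?_⟩
      have hsp : 0 < |(s : ℝ)| := abs_pos.2 (by exact_mod_cast hs)
      have hq : 0 < √|(s : ℝ)| := Real.sqrt_pos.2 hsp
      rw [hcm, le_div_iff₀ hq]
      have hsq : (|(m : ℝ)| * √|(s : ℝ)|) ^ 2 ≤ (3 * M) ^ 2 := by
        rw [mul_pow, sq_abs, Real.sq_sqrt hsp.le]
        nlinarith
      exact (pow_le_pow_iff_left₀ (by positivity) (by positivity) two_ne_zero).1 hsq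

end CountAux

open CountAux

theorem t_COUNT : S_COUNT := by
  classical
  intro ε hε
  obtain ⟨C, hC, hdiv⟩ := Pool.Agent.H510R2.divisor_bound (ε / 2) (by positivity)
  refine ⟨78 * C, by positivity, ?_⟩
  intro M Y E hM hY hE
  have hex : ∀ t ∈ E, ∃ s m : ℤ, s ≠ 0 ∧ t.2.1 ^ 2 - 4 * t.1 * t.2.2 = s * m ^ 2 ∧
      |(s : ℝ)| ≤ Y := fun t ht => (hE t ht).2.2.2.2.2
  choose! s m hsm using hex
  set φ : ℤ × ℤ × ℤ → ℤ × ℤ × ℕ := fun t =>
    (t.2.1, (if m t = 0 then 1 else s t), (m t).natAbs) with hφ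
  set L := ⌊M⌋₊ with hL
  have hφeq : ∀ t ∈ E, t.2.1 ^ 2 - 4 * t.1 * t.2.2 = (φ t).2.1 * ((φ t).2.2 : ℤ) ^ 2 := by
    intro t ht
    rw [(hsm t ht).2.1, hφ]
    show s t * m t ^ 2 = (if m t = 0 then 1 else s t) * (((m t).natAbs : ℕ) : ℤ) ^ 2
    rw [Int.natAbs_sq]
    split_ifs with h0
    · rw [h0]; ring
    · rfl
  have hmaps : ∀ t ∈ E, φ t ∈ Finset.Icc (-(L : ℤ)) (L : ℤ) ×ˢ R M Y := by
    intro t ht
    obtain ⟨ha0, hc0, hA, hB, hCc, _⟩ := hE t ht
    rw [Finset.mem_product]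
    constructor
    · show t.2.1 ∈ Finset.Icc (-(L : ℤ)) (L : ℤ)
      have h1 : t.2.1.natAbs ≤ L := by
        refine Nat.le_floor ?_
        rw [Nat.cast_natAbs]
        push_cast
        exact hB
      rw [Finset.mem_Icc]
      omega
    · show ((if m t = 0 then 1 else s t), (m t).natAbs) ∈ R M Y
      split_ifs with h0
      · rw [h0, Int.natAbs_zero]
        unfold R
        exact Finset.mem_insert_self _ _
      · refine mem_R hM (hsm t ht).1 h0 (hsm t ht).2.2 ?_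
        have h1 := (hsm t ht).2.1
        have h2 : ((t.2.1 : ℝ)) ^ 2 - 4 * t.1 * t.2.2 = s t * (m t : ℝ) ^ 2 := by exact_mod_cast h1
        have h3 : |(s t : ℝ)| * (m t : ℝ) ^ 2 = |(s t : ℝ) * (m t : ℝ) ^ 2| := by
          rw [abs_mul, abs_of_nonneg (sq_nonneg (m t : ℝ))]
        rw [h3, ← h2]
        have h4 : |(t.2.1 : ℝ) ^ 2| ≤ M ^ 2 := by
          rw [abs_pow]
          exact pow_le_pow_left₀ (abs_nonneg _) hB 2
        have h5 : |4 * (t.1 : ℝ) * t.2.2| ≤ 4 * M ^ 2 := by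
          rw [abs_mul, abs_mul, abs_of_pos (by norm_num : (0 : ℝ) < 4)]
          have := mul_le_mul hA hCc (abs_nonneg _) (by linarith)
          nlinarith
        have h6 := abs_sub (t.2.1 ^ 2 : ℝ) (4 * (t.1 : ℝ) * t.2.2)
        nlinarith [sq_nonneg M]
  have hMe : 0 < M ^ ε := Real.rpow_pos_of_pos (by linarith) _
  have hfib : ∀ b ∈ Finset.Icc (-(L : ℤ)) (L : ℤ) ×ˢ R M Y,
      (E.filter (fun t => φ t = b)).card ≤ ⌊2 * C * M ^ ε⌋₊ := by
    intro b _
    rcases (E.filter (fun t => φ t = b)).eq_empty_or_nonempty with he | ⟨t₀, ht₀⟩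
    · rw [he, Finset.card_empty]; exact Nat.zero_le _
    · rw [Finset.mem_filter] at ht₀
      set n : ℕ := (t₀.1 * t₀.2.2).natAbs with hn
      have hprod : ∀ t ∈ E.filter (fun t => φ t = b), t.2.1 = t₀.2.1 ∧
          t.1 * t.2.2 = t₀.1 * t₀.2.2 := by
        intro t ht
        rw [Finset.mem_filter] at ht
        have e1 := hφeq t ht.1
        have e2 := hφeq t₀ ht₀.1
        rw [ht.2] at e1
        rw [ht₀.2] at e2
        have e3 : t.2.1 = t₀.2.1 := by
          have f1 := congrArg Prod.fst ht.2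
          have f2 := congrArg Prod.fst ht₀.2
          have f3 : t.2.1 = b.1 := f1
          have f4 : t₀.2.1 = b.1 := f2
          rw [f3, f4]
        refine ⟨e3, ?_⟩
        rw [e3] at e1
        nlinarith
      have hn0 : n ≠ 0 := by
        obtain ⟨ha0, hc0, _⟩ := hE t₀ ht₀.1
        rw [hn]
        exact Int.natAbs_ne_zero.2 (mul_ne_zero ha0 hc0)
      have hnM : (n : ℝ) ≤ M ^ 2 := by
        obtain ⟨_, _, hA, _, hCc, _⟩ := hE t₀ ht₀.1
        rw [hn, Nat.cast_natAbs]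
        push_cast
        rw [abs_mul]
        have := mul_le_mul hA hCc (abs_nonneg _) (by linarith)
        nlinarith
      have himg : (E.filter (fun t => φ t = b)).card ≤ 2 * n.divisors.card := by
        have hinj : Set.InjOn (fun t : ℤ × ℤ × ℤ => t.1) (E.filter (fun t => φ t = b)) := by
          intro t ht t' ht' htt
          have h1 := hprod t ht
          have h2 := hprod t' ht'
          have htt' : t.1 = t'.1 := htt
          have ht0 : t.1 ≠ 0 := (hE t (Finset.mem_filter.1 ht).1).1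
          have h3 : t.1 * t.2.2 = t.1 * t'.2.2 := by
            rw [h1.2, ← h2.2, htt']
          have h4 := mul_left_cancel₀ ht0 h3
          exact Prod.ext htt' (Prod.ext (h1.1.trans h2.1.symm) h4)
        rw [← Finset.card_image_of_injOn hinj]
        have hsubs : (E.filter (fun t => φ t = b)).image (fun t : ℤ × ℤ × ℤ => t.1) ⊆
            n.divisors.image (fun d : ℕ => (d : ℤ)) ∪ n.divisors.image (fun d : ℕ => -(d : ℤ)) := by
          intro a ha
          obtain ⟨t, ht, rfl⟩ := Finset.mem_image.1 ha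
          have h1 := hprod t ht
          have h2 : t.1.natAbs ∈ n.divisors := by
            rw [Nat.mem_divisors]
            refine ⟨?_, hn0⟩
            rw [hn, ← h1.2, Int.natAbs_mul]
            exact dvd_mul_right _ _
          rw [Finset.mem_union, Finset.mem_image, Finset.mem_image]
          rcases Int.natAbs_eq t.1 with h | h
          · left; exact ⟨_, h2, h.symm⟩
          · right; exact ⟨_, h2, h.symm⟩
        refine (Finset.card_le_card hsubs).trans ((Finset.card_union_le _ _).trans ?_)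
        have c1 := Finset.card_image_le (s := n.divisors) (f := fun d : ℕ => (d : ℤ))
        have c2 := Finset.card_image_le (s := n.divisors) (f := fun d : ℕ => -(d : ℤ))
        omega
      refine Nat.le_floor ?_
      have h1 : ((E.filter (fun t => φ t = b)).card : ℝ) ≤ 2 * (n.divisors.card : ℝ) := by
        exact_mod_cast himg
      have h2 := hdiv n (Nat.one_le_iff_ne_zero.2 hn0)
      have h3 : (n : ℝ) ^ (ε / 2) ≤ M ^ ε := by
        have h4 : (n : ℝ) ^ (ε / 2) ≤ (M ^ 2) ^ (ε / 2) :=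
          Real.rpow_le_rpow (Nat.cast_nonneg _) hnM (by positivity)
        have h5 : (M ^ 2 : ℝ) ^ (ε / 2) = M ^ ε := by
          rw [← Real.rpow_natCast M 2, ← Real.rpow_mul (by linarith)]
          congr 1
          push_cast
          ring
        rw [h5] at h4
        exact h4
      have h6 := mul_le_mul_of_nonneg_left h3 hC.le
      linarith
  have hcard := Finset.card_le_mul_card_image_of_maps_to hmaps _ hfib
  have hcard' : (E.card : ℝ) ≤ ((⌊2 * C * M ^ ε⌋₊ : ℕ) : ℝ) *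
      (((Finset.Icc (-(L : ℤ)) (L : ℤ) ×ˢ R M Y).card : ℕ) : ℝ) := by exact_mod_cast hcard
  have hfl : ((⌊2 * C * M ^ ε⌋₊ : ℕ) : ℝ) ≤ 2 * C * M ^ ε := Nat.floor_le (by positivity)
  have hIcc : (((Finset.Icc (-(L : ℤ)) (L : ℤ)).card : ℕ) : ℝ) ≤ 3 * M := by
    rw [Int.card_Icc]
    have h1 : ((L : ℤ) + 1 - -(L : ℤ)).toNat = 2 * L + 1 := by omega
    rw [h1]
    push_cast
    have : (L : ℝ) ≤ M := Nat.floor_le (by linarith)
    linarith
  have hprod : (((Finset.Icc (-(L : ℤ)) (L : ℤ) ×ˢ R M Y).card : ℕ) : ℝ) ≤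
      3 * M * (13 * (M * √Y)) := by
    rw [Finset.card_product]
    push_cast
    exact mul_le_mul hIcc (card_R hM hY) (Nat.cast_nonneg _) (by linarith)
  have hpow : M ^ (2 + ε) = M ^ 2 * M ^ ε := by
    rw [Real.rpow_add (by linarith), Real.rpow_two]
  calc (E.card : ℝ) ≤ _ := hcard'
    _ ≤ (2 * C * M ^ ε) * (3 * M * (13 * (M * √Y))) :=
        mul_le_mul hfl hprod (Nat.cast_nonneg _) (by positivity)
    _ = 78 * C * M ^ (2 + ε) * √Y := by rw [hpow]; ring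

end Pool.Agent.R365.QP
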