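import Pool.Agent.R365.QP.Stm

/-!
# QP-DISC: the discriminant of a quadratic field and the square free part
-/

set_option autoImplicit false

namespace Pool.Agent.R365.QP

open NumberField Module

namespace DiscAux

theorem arith (s d f : ℤ) (hs : s ≠ 0) (hsq : Squarefree s) (h : 4 * s = f ^ 2 * d) :
    |s| ≤ |d| ∧ |d| ≤ 4 * |s| := by
  have hf : f ≠ 0 := by
    rintro rfl
    apply hs
    have : (4 : ℤ) * s = 0 := by rw [h]; ring
    omega
  have habs : 4 * |s| = f ^ 2 * |d| := by
    have h1 := congrArg abs h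
    rw [abs_mul, abs_mul, abs_of_nonneg (sq_nonneg f)] at h1
    simpa using h1
  have hf1 : 1 ≤ f ^ 2 := by
    have : 0 < f ^ 2 := by positivity
    omega
  refine ⟨?_, ?_⟩
  · rcases Int.even_or_odd f with ⟨g, hg⟩ | hodd
    · have h2 : s = g * g * d := by
        have : 4 * s = 4 * (g * g * d) := by rw [h, hg]; ring
        omega
      have hu : IsUnit g := hsq g ⟨d, h2⟩
      have h3 : g * g = 1 := by
        rcases Int.isUnit_iff.mp hu with h | h <;> rw [h] <;> norm_num
      rw [h2, h3, one_mul]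
    · have hco : IsCoprime (f * f) 4 := by
        have h1 : IsCoprime f 2 := by
          obtain ⟨k, hk⟩ := hodd
          exact ⟨1, -k, by rw [hk]; ring⟩
        have h2 : IsCoprime f (2 * 2) := h1.mul_right h1
        have h3 : IsCoprime (f * f) (2 * 2) := h2.mul_left h2
        norm_num at h3
        exact h3
      have hdvd : f * f ∣ s := by
        have h1 : f * f ∣ 4 * s := ⟨d, by rw [h]; ring⟩
        exact hco.dvd_of_dvd_mul_left h1
      have hu : IsUnit f := hsq f hdvd
      have h3 : f ^ 2 = 1 := by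
        rcases Int.isUnit_iff.mp hu with h | h <;> rw [h] <;> norm_num
      rw [h3, one_mul] at habs
      have := abs_nonneg s
      omega
  · have h1 : 1 * |d| ≤ f ^ 2 * |d| := mul_le_mul_of_nonneg_right hf1 (abs_nonneg d)
    omega

theorem sqfree_part (n : ℤ) (hn : n ≠ 0) : ∃ s m : ℤ, s ≠ 0 ∧ m ≠ 0 ∧ n = s * m ^ 2 ∧
    Squarefree s := by
  obtain ⟨a, b, hab, hsq⟩ := Nat.sq_mul_squarefree n.natAbs
  have hb : b ≠ 0 := by
    rintro rfl
    apply hn
    have h1 : n.natAbs = 0 := by rw [← hab]; ring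
    exact Int.natAbs_eq_zero.mp h1
  have ha : a ≠ 0 := hsq.ne_zero
  rcases Int.natAbs_eq n with h | h
  · refine ⟨a, b, by exact_mod_cast ha, by exact_mod_cast hb, ?_, ?_⟩
    · rw [h, ← hab]; push_cast; ring
    · rw [← Int.squarefree_natAbs]
      simpa using hsq
  · refine ⟨-a, b, by simpa using ha, by exact_mod_cast hb, ?_, ?_⟩
    · rw [h, ← hab]; push_cast; ring
    · rw [← Int.squarefree_natAbs]
      simpa using hsq

end DiscAux

open DiscAux

theorem t_DISC : S_DISC := by
  intro K _ _ hK w Δ hw hirr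
  have hΔ : Δ ≠ 0 := by
    rintro rfl
    apply hirr 0
    rw [map_zero]
    have : w ^ 2 = 0 := by rw [hw]; simp
    exact pow_eq_zero_iff two_ne_zero |>.mp this
  obtain ⟨s, m, hs, hm, hsm, hsq⟩ := sqfree_part Δ hΔ
  refine ⟨s, m, hs, hm, hsm, ?_⟩
  have hmK : (m : K) ≠ 0 := by exact_mod_cast hm
  set r : K := w / m with hr
  have hr2 : r ^ 2 = (s : K) := by
    rw [hr, div_pow, hw, hsm]
    push_cast
    field_simp
  have hrirr : ∀ q : ℚ, r ≠ algebraMap ℚ K q := by
    intro q hq
    apply hirr (q * m)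
    rw [map_mul, ← hq, hr, map_intCast]
    field_simp
  -- the rational basis
  have hli : LinearIndependent ℚ ![(1 : K), r] := by
    rw [LinearIndependent.pair_iff]
    intro x y hxy
    have hy : y = 0 := by
      by_contra hy
      apply hrirr (-x / y)
      rw [Algebra.smul_def, Algebra.smul_def, mul_one] at hxy
      have hyK : algebraMap ℚ K y ≠ 0 := by
        rw [Ne, map_eq_zero]
        exact hy
      rw [map_div₀, map_neg, eq_div_iff hyK]
      linear_combination hxy
    subst hy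
    rw [zero_smul, add_zero, Algebra.smul_def, mul_one, map_eq_zero] at hxy
    exact ⟨hxy, rfl⟩
  let B : Basis (Fin 2) ℚ K := basisOfLinearIndependentOfCardEqFinrank hli (by simp [hK])
  have hB0 : B 0 = 1 := by simp [B]
  have hB1 : B 1 = r := by simp [B]
  have htr : Algebra.trace ℚ K r = 0 := by
    rw [Algebra.trace_eq_matrix_trace B, Matrix.trace_fin_two, Algebra.leftMulMatrix_eq_repr_mul,
      Algebra.leftMulMatrix_eq_repr_mul]
    have h0 : B.repr (r * B 0) 0 = 0 := by
      rw [hB0, mul_one, ← hB1, Basis.repr_self]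
      simp
    have h1 : B.repr (r * B 1) 1 = 0 := by
      have h2 : r * B 1 = (s : ℚ) • B 0 := by
        rw [hB1, hB0, ← pow_two, hr2, Algebra.smul_def, mul_one, map_intCast]
      rw [h2, map_smul, Basis.repr_self]
      simp
    rw [h0, h1, add_zero]
  have htrc : ∀ q : ℚ, Algebra.trace ℚ K (algebraMap ℚ K q) = 2 * q := by
    intro q
    rw [Algebra.trace_algebraMap, hK, nsmul_eq_mul]
    norm_num
  -- the integral element
  have hint : IsIntegral ℤ r := by
    refine ⟨Polynomial.X ^ 2 - Polynomial.C s, Polynomial.monic_X_pow_sub_C s two_ne_zero, ?_⟩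
    rw [Polynomial.eval₂_sub, Polynomial.eval₂_pow, Polynomial.eval₂_X, Polynomial.eval₂_C, hr2,
      eq_intCast, sub_self]
  let ρ : 𝓞 K := ⟨r, hint⟩
  have hρ : (ρ : K) = r := rfl
  have hfr : finrank ℤ (𝓞 K) = 2 := by rw [RingOfIntegers.rank, hK]
  let b : Basis (Fin 2) ℤ (𝓞 K) := Module.finBasisOfFinrankEq ℤ (𝓞 K) hfr
  have hdisc := NumberField.discr_eq_discr K b
  have hv := b.toMatrix_map_vecMul ![(1 : 𝓞 K), ρ]
  have h1 := Algebra.discr_of_matrix_vecMul (A := ℤ) b (b.toMatrix ![(1 : 𝓞 K), ρ])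
  rw [hv, hdisc] at h1
  have t1 : Algebra.trace ℤ (𝓞 K) (1 * 1) = 2 := by
    have h2 : ((Algebra.trace ℤ (𝓞 K) (1 * 1) : ℤ) : ℚ) = 2 := by
      rw [Algebra.coe_trace_int]
      have h3 := htrc 1
      rw [map_one] at h3
      simpa using h3
    exact_mod_cast h2
  have t2 : Algebra.trace ℤ (𝓞 K) (1 * ρ) = 0 := by
    have h2 : ((Algebra.trace ℤ (𝓞 K) (1 * ρ) : ℤ) : ℚ) = 0 := by
      rw [Algebra.coe_trace_int, one_mul, hρ, htr]
    exact_mod_cast h2
  have t3 : Algebra.trace ℤ (𝓞 K) (ρ * 1) = 0 := by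
    rw [mul_comm]
    exact t2
  have t4 : Algebra.trace ℤ (𝓞 K) (ρ * ρ) = 2 * s := by
    have h2 : ((Algebra.trace ℤ (𝓞 K) (ρ * ρ) : ℤ) : ℚ) = 2 * s := by
      rw [Algebra.coe_trace_int]
      have h3 : (((ρ * ρ : 𝓞 K)) : K) = algebraMap ℚ K (s : ℚ) := by
        show r * r = _
        rw [← pow_two, hr2, map_intCast]
      rw [h3, htrc]
    exact_mod_cast h2
  have h2 : Algebra.discr ℤ ![(1 : 𝓞 K), ρ] = 4 * s := by
    rw [Algebra.discr_def, Matrix.det_fin_two]
    simp only [Algebra.traceMatrix_apply, Algebra.traceForm_apply, Matrix.cons_val_zero,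
      Matrix.cons_val_one]
    rw [t1, t2, t3, t4]
    ring
  rw [h2] at h1
  exact arith s _ _ hs hsq h1

end Pool.Agent.R365.QP
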