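import Pool.Agent.R365.QP.Stm
import Pool.Agent.H691R3.Global

/-! # MP_6e34ef_nt, piece QP-HSUM: the heights of the two roots of `a T ^ 2 + b T + c` -/

set_option autoImplicit false

namespace Pool.Agent.R365.QP

open NumberField IsDedekindDomain Pool.Agent.H691R3

namespace HsumAux

variable {K : Type} [Field K]

lemma arch_bd (f : AbsoluteValue K ℝ) {a b c x y : K} {T : ℝ} (hs : a * (x + y) = -b)
    (hp : a * (x * y) = c) (hA : f a ≤ T) (hB : f b ≤ T) (hC : f c ≤ T) :
    f a * max (f x) (f 1) * max (f y) (f 1) ≤ 2 * T := by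
  rw [map_one]
  have fa0 := f.nonneg a
  have fx0 := f.nonneg x
  have fy0 := f.nonneg y
  have hT : 0 ≤ T := le_trans fa0 hA
  rcases le_total (f x) 1 with hx | hx
  · rcases le_total (f y) 1 with hy | hy
    · rw [max_eq_right hx, max_eq_right hy]
      linarith
    · rw [max_eq_right hx, max_eq_left hy, mul_one, ← map_mul]
      have e : a * y = -b + -(a * x) := by rw [← hs]; ring
      rw [e]
      have h1 := f.add_le (-b) (-(a * x))
      rw [AbsoluteValue.map_neg, AbsoluteValue.map_neg, map_mul] at h1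
      have h2 : f a * f x ≤ f a * 1 := mul_le_mul_of_nonneg_left hx fa0
      linarith
  · rcases le_total (f y) 1 with hy | hy
    · rw [max_eq_left hx, max_eq_right hy, mul_one, ← map_mul]
      have e : a * x = -b + -(a * y) := by rw [← hs]; ring
      rw [e]
      have h1 := f.add_le (-b) (-(a * y))
      rw [AbsoluteValue.map_neg, AbsoluteValue.map_neg, map_mul] at h1
      have h2 : f a * f y ≤ f a * 1 := mul_le_mul_of_nonneg_left hy fa0
      linarith
    · rw [max_eq_left hx, max_eq_left hy, mul_assoc, ← map_mul, ← map_mul, hp]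
      linarith

lemma na_bd (f : AbsoluteValue K ℝ) (hna : ∀ a b, f (a + b) ≤ max (f a) (f b)) {a b c x y : K}
    (hs : a * (x + y) = -b) (hp : a * (x * y) = c) (hA : f a ≤ 1) (hB : f b ≤ 1) (hC : f c ≤ 1) :
    f a * max (f x) (f 1) * max (f y) (f 1) ≤ 1 := by
  rw [map_one]
  have fa0 := f.nonneg a
  have fx0 := f.nonneg x
  have fy0 := f.nonneg y
  rcases le_total (f x) 1 with hx | hx
  · rcases le_total (f y) 1 with hy | hy
    · rw [max_eq_right hx, max_eq_right hy]
      linarith
    · rw [max_eq_right hx, max_eq_left hy, mul_one, ← map_mul]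
      have e : a * y = -b + -(a * x) := by rw [← hs]; ring
      rw [e]
      have h1 := hna (-b) (-(a * x))
      rw [AbsoluteValue.map_neg, AbsoluteValue.map_neg, map_mul] at h1
      have h2 : f a * f x ≤ f a * 1 := mul_le_mul_of_nonneg_left hx fa0
      exact h1.trans (max_le hB (by linarith))
  · rcases le_total (f y) 1 with hy | hy
    · rw [max_eq_left hx, max_eq_right hy, mul_one, ← map_mul]
      have e : a * x = -b + -(a * y) := by rw [← hs]; ring
      rw [e]
      have h1 := hna (-b) (-(a * y))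
      rw [AbsoluteValue.map_neg, AbsoluteValue.map_neg, map_mul] at h1
      have h2 : f a * f y ≤ f a * 1 := mul_le_mul_of_nonneg_left hy fa0
      exact h1.trans (max_le hB (by linarith))
    · rw [max_eq_left hx, max_eq_left hy, mul_assoc, ← map_mul, ← map_mul, hp]
      exact hC

variable [NumberField K]

lemma fv_int_le (v : HeightOneSpectrum (𝓞 K)) (a : ℤ) : fv v (a : K) ≤ 1 := by
  have h : ((a : ℤ) : K) = algebraMap (𝓞 K) K (a : 𝓞 K) := by simp
  rw [h]
  exact FinitePlace.norm_le_one (K := K) (v := v) (a : 𝓞 K)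

lemma w_int (w : InfinitePlace K) (a : ℤ) : w (a : K) = |(a : ℝ)| := by
  rw [← InfinitePlace.norm_embedding_eq, map_intCast, Complex.norm_intCast]

lemma sum_mult : ∑ w : InfinitePlace K, (w.mult : ℝ) = (Module.finrank ℚ K : ℝ) := by
  have h := InfinitePlace.sum_mult_eq (K := K)
  rw [← h]
  push_cast
  rfl

/-- the height of the point `(x, 1 - x, -1)` against the height of `(x, 1)` -/
lemma height_le (x : K) : height ![x, 1 - x, -1] * (Module.finrank ℚ K : ℝ) ≤
    Real.log 2 * (Module.finrank ℚ K : ℝ) + hr (x, (1 : K)) := by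
  have hn : (0 : ℝ) < (Module.finrank ℚ K : ℝ) := by exact_mod_cast Module.finrank_pos
  unfold height
  rw [div_mul_cancel₀ _ hn.ne']
  unfold hr
  rw [← add_assoc]
  refine add_le_add ?_ (le_of_eq ?_)
  · rw [← sum_mult, Finset.mul_sum, ← Finset.sum_add_distrib]
    refine Finset.sum_le_sum fun w _ => ?_
    rw [mul_comm (Real.log 2), ← mul_add]
    refine mul_le_mul_of_nonneg_left ?_ (Nat.cast_nonneg _)
    have e1 : w (![x, 1 - x, -1] 0) = w x := rfl
    have e2 : w (![x, 1 - x, -1] 1) = w (1 - x) := rfl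
    have e3 : w (![x, 1 - x, -1] 2) = w (-1) := rfl
    rw [e1, e2, e3]
    have f3 : w (-1 : K) = 1 := by
      have := w_int w (-1)
      push_cast at this
      rw [this]; norm_num
    have f4 : w (1 : K) = 1 := map_one w
    have hx0 : 0 ≤ w x := apply_nonneg w x
    have f2 : w (1 - x) ≤ 1 + w x := by
      have h := w.1.add_le 1 (-x)
      rw [AbsoluteValue.map_neg, map_one, ← sub_eq_add_neg] at h
      exact h
    rw [f3]
    show Real.log (max (w x) (max (w (1 - x)) 1)) ≤ Real.log 2 + Real.log (max (w x) (w 1))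
    rw [f4, ← Real.log_mul two_ne_zero (lt_max_of_lt_right one_pos).ne']
    refine Real.log_le_log (lt_max_of_lt_right (lt_max_of_lt_right one_pos)) ?_
    have g1 := le_max_left (w x) (1 : ℝ)
    have g2 := le_max_right (w x) (1 : ℝ)
    refine max_le ?_ (max_le ?_ ?_) <;> linarith
  · refine finsum_congr fun v => ?_
    have e1 : FinitePlace.mk v (![x, 1 - x, -1] 0) = fv v x := rfl
    have e2 : FinitePlace.mk v (![x, 1 - x, -1] 1) = fv v (1 - x) := rfl
    have e3 : FinitePlace.mk v (![x, 1 - x, -1] 2) = fv v (-1) := rfl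
    rw [e1, e2, e3]
    show Real.log (max (fv v x) (max (fv v (1 - x)) (fv v (-1)))) =
      Real.log (max (fv v x) (fv v 1))
    have f3 : fv v (-1 : K) = 1 := by rw [AbsoluteValue.map_neg, map_one]
    have f2 : fv v (1 - x) ≤ max 1 (fv v x) := by
      have h := fv_na v 1 (-x)
      rw [AbsoluteValue.map_neg, map_one, ← sub_eq_add_neg] at h
      exact h
    rw [f3, map_one]
    congr 1
    refine le_antisymm ?_ ?_
    · refine max_le (le_max_left _ _) (max_le (f2.trans ?_) (le_max_right _ _))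
      rw [max_comm]
    · exact max_le (le_max_left _ _) ((le_max_right _ _).trans (le_max_right _ _))

lemma hr_sum_le {a b c : ℤ} {x y : K} {T : ℝ} (ha : a ≠ 0)
    (hs : (a : K) * (x + y) = -(b : K)) (hp : (a : K) * (x * y) = (c : K))
    (hA : |(a : ℝ)| ≤ T) (hB : |(b : ℝ)| ≤ T) (hC : |(c : ℝ)| ≤ T) :
    hr (x, (1 : K)) + hr (y, (1 : K)) ≤ Real.log (2 * T) * (Module.finrank ℚ K : ℝ) := by
  have haK : (a : K) ≠ 0 := by exact_mod_cast ha
  have hT : 0 < T := lt_of_lt_of_le (abs_pos.2 (by exact_mod_cast ha)) hA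
  have hx1 : ((x, (1 : K)) : K × K) ≠ 0 := fun h => one_ne_zero (congrArg Prod.snd h)
  have hy1 : ((y, (1 : K)) : K × K) ≠ 0 := fun h => one_ne_zero (congrArg Prod.snd h)
  have hpf := log_product_formula (K := K) haK
  have key1 : ∑ w : InfinitePlace K, (w.mult : ℝ) * Real.log (max (w x) (w 1)) +
      ∑ w : InfinitePlace K, (w.mult : ℝ) * Real.log (max (w y) (w 1)) +
      ∑ w : InfinitePlace K, (w.mult : ℝ) * Real.log (w (a : K)) ≤
      Real.log (2 * T) * (Module.finrank ℚ K : ℝ) := by
    rw [← Finset.sum_add_distrib, ← Finset.sum_add_distrib, ← sum_mult, Finset.mul_sum]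
    refine Finset.sum_le_sum fun w _ => ?_
    rw [← mul_add, ← mul_add, mul_comm (Real.log (2 * T))]
    refine mul_le_mul_of_nonneg_left ?_ (Nat.cast_nonneg _)
    have hm1 : 0 < max (w x) (w 1) := lt_max_of_lt_right (by rw [map_one]; exact one_pos)
    have hm2 : 0 < max (w y) (w 1) := lt_max_of_lt_right (by rw [map_one]; exact one_pos)
    have hm3 : 0 < w (a : K) := InfinitePlace.pos_iff.2 haK
    rw [← Real.log_mul hm1.ne' hm2.ne', ← Real.log_mul (mul_pos hm1 hm2).ne' hm3.ne']
    refine Real.log_le_log (mul_pos (mul_pos hm1 hm2) hm3) ?_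
    have h := arch_bd w.1 (T := T) hs hp (by
      have := w_int w a
      show w (a : K) ≤ T
      rw [this]; exact hA) (by
      have := w_int w b
      show w (b : K) ≤ T
      rw [this]; exact hB) (by
      have := w_int w c
      show w (c : K) ≤ T
      rw [this]; exact hC)
    calc max (w x) (w 1) * max (w y) (w 1) * w (a : K)
        = w.1 (a : K) * max (w.1 x) (w.1 1) * max (w.1 y) (w.1 1) := by
          show max (w x) (w 1) * max (w y) (w 1) * w (a : K) =
            w (a : K) * max (w x) (w 1) * max (w y) (w 1)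
          ring
      _ ≤ 2 * T := h
  have s1 := log_max_support_finite (K := K) hx1
  have s2 := log_max_support_finite (K := K) hy1
  have s3 := log_fv_support_finite (K := K) haK
  have s12 : (Function.support fun v : HeightOneSpectrum (𝓞 K) =>
      Real.log (max (fv v (x, (1 : K)).1) (fv v (x, (1 : K)).2)) +
      Real.log (max (fv v (y, (1 : K)).1) (fv v (y, (1 : K)).2))).Finite :=
    (s1.union s2).subset (Function.support_add _ _)
  have key2 : ∑ᶠ v : HeightOneSpectrum (𝓞 K),
        Real.log (max (fv v (x, (1 : K)).1) (fv v (x, (1 : K)).2)) +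
      ∑ᶠ v : HeightOneSpectrum (𝓞 K),
        Real.log (max (fv v (y, (1 : K)).1) (fv v (y, (1 : K)).2)) +
      ∑ᶠ v : HeightOneSpectrum (𝓞 K), Real.log (fv v (a : K)) ≤ 0 := by
    rw [← finsum_add_distrib s1 s2, ← finsum_add_distrib s12 s3]
    rw [← neg_nonneg, ← finsum_neg_distrib]
    refine finsum_nonneg fun v => neg_nonneg.2 ?_
    show Real.log (max (fv v x) (fv v 1)) + Real.log (max (fv v y) (fv v 1)) +
      Real.log (fv v (a : K)) ≤ 0
    have hm1 : 0 < max (fv v x) (fv v 1) := lt_max_of_lt_right (by rw [map_one]; exact one_pos)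
    have hm2 : 0 < max (fv v y) (fv v 1) := lt_max_of_lt_right (by rw [map_one]; exact one_pos)
    have hm3 : 0 < fv v (a : K) := (fv v).pos haK
    rw [← Real.log_mul hm1.ne' hm2.ne', ← Real.log_mul (mul_pos hm1 hm2).ne' hm3.ne']
    refine Real.log_nonpos (mul_pos (mul_pos hm1 hm2) hm3).le ?_
    have h := na_bd (fv v) (fv_na v) hs hp (fv_int_le v a) (fv_int_le v b) (fv_int_le v c)
    calc max (fv v x) (fv v 1) * max (fv v y) (fv v 1) * fv v (a : K)
        = fv v (a : K) * max (fv v x) (fv v 1) * max (fv v y) (fv v 1) := by ring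
      _ ≤ 1 := h
  unfold hr
  show ∑ w : InfinitePlace K, (w.mult : ℝ) * Real.log (max (w x) (w 1)) +
      ∑ᶠ v : HeightOneSpectrum (𝓞 K), Real.log (max (fv v x) (fv v 1)) +
      (∑ w : InfinitePlace K, (w.mult : ℝ) * Real.log (max (w y) (w 1)) +
      ∑ᶠ v : HeightOneSpectrum (𝓞 K), Real.log (max (fv v y) (fv v 1))) ≤ _
  have key2' : ∑ᶠ v : HeightOneSpectrum (𝓞 K), Real.log (max (fv v x) (fv v 1)) +
      ∑ᶠ v : HeightOneSpectrum (𝓞 K), Real.log (max (fv v y) (fv v 1)) +
      ∑ᶠ v : HeightOneSpectrum (𝓞 K), Real.log (fv v (a : K)) ≤ 0 := key2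
  linarith

end HsumAux

open HsumAux

theorem t_HSUM : S_HSUM := by
  refine ⟨3 * Real.log 2, ?_⟩
  intro K _ _ a b c x y T ha hs hp hA hB hC
  have hn : (0 : ℝ) < (Module.finrank ℚ K : ℝ) := by exact_mod_cast Module.finrank_pos
  have hT : 0 < T := lt_of_lt_of_le (abs_pos.2 (by exact_mod_cast ha)) hA
  have h1 := height_le (K := K) x
  have h2 := height_le (K := K) y
  have h3 := hr_sum_le (K := K) ha hs hp hA hB hC
  rw [Real.log_mul two_ne_zero hT.ne'] at h3
  have h4 : (height ![x, 1 - x, -1] + height ![y, 1 - y, -1]) * (Module.finrank ℚ K : ℝ) ≤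
      (Real.log T + 3 * Real.log 2) * (Module.finrank ℚ K : ℝ) := by
    nlinarith
  exact le_of_mul_le_mul_right h4 hn

end Pool.Agent.R365.QP
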