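import Mathlib

/-! Statements of the pieces of project QP (MP_6e34ef_nt, points of degree two), second part. -/

set_option autoImplicit false

namespace Pool.Agent.R365.QP

/-- QP-SQ: squares near `N` modulo squares -/
def S_SQ : Prop :=
  ∀ ε : ℝ, 0 < ε → ∃ D : ℝ, 0 < D ∧ ∀ (N : ℤ) (T Y M₁ : ℝ) (E : Finset ℤ), N ≠ 0 →
    |(N : ℝ)| ≤ T ^ 2 → 1 ≤ T → 1 ≤ Y → 1 ≤ M₁ →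
    (∀ β ∈ E, |(β : ℝ)| ≤ T ∧ ∃ s m : ℤ, s ≠ 0 ∧ 1 ≤ m ∧ (m : ℝ) ≤ M₁ ∧ |(s : ℝ)| ≤ Y ∧
      β ^ 2 - N = s * m ^ 2) →
    (E.card : ℝ) ≤ D * T ^ ε * (√Y + M₁)

/-- the radical -/
def rad (n : ℤ) : ℕ := ∏ p ∈ n.natAbs.primeFactors, p

/-- QP-RAD2: pairs with given product of the radicals -/
def S_RAD2 : Prop :=
  ∀ ε : ℝ, 0 < ε → ∃ D : ℝ, 0 < D ∧ ∀ (M R : ℝ) (E : Finset (ℤ × ℤ)), 1 ≤ M → 1 ≤ R →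
    (∀ t ∈ E, t.1 ≠ 0 ∧ t.2 ≠ 0 ∧ |(t.1 : ℝ)| ≤ M ∧ |(t.2 : ℝ)| ≤ M ∧
      (rad t.1 : ℝ) * rad t.2 ≤ R) →
    (E.card : ℝ) ≤ D * M ^ ε * R

/-- QP-JUP: quadratic polynomials whose discriminant has small square free part and three of whose
values have small radicals; to be proved from `S_SQ`, `S_RAD2` and `S_COUNT` -/
def S_JUP : Prop :=
  ∀ ε : ℝ, 0 < ε → ∃ D : ℝ, 0 < D ∧ ∀ (M R Y M₁ : ℝ) (E : Finset (ℤ × ℤ × ℤ)), 1 ≤ M → 1 ≤ R →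
    1 ≤ Y → 1 ≤ M₁ → M₁ ≤ M →
    (∀ t ∈ E, t.1 ≠ 0 ∧ t.2.2 ≠ 0 ∧ t.1 - t.2.1 + t.2.2 ≠ 0 ∧ |(t.1 : ℝ)| ≤ M ∧
      |(t.2.1 : ℝ)| ≤ M ∧ |(t.2.2 : ℝ)| ≤ M ∧
      (rad t.1 : ℝ) * rad t.2.2 * rad (t.1 - t.2.1 + t.2.2) ≤ R ∧
      ∃ s m : ℤ, s ≠ 0 ∧ t.2.1 ^ 2 - 4 * t.1 * t.2.2 = s * m ^ 2 ∧ |(s : ℝ)| ≤ Y) →
    (E.card : ℝ) ≤ D * M ^ ε * (R ^ (2 / 3 : ℝ) * (√Y + M₁) + M ^ 3 / M₁)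

/-- QP-LOWC: many quadratic polynomials whose discriminant has a large square factor -/
def S_LOWC : Prop :=
  ∀ ε : ℝ, 0 < ε → ∃ c : ℝ, 0 < c ∧ ∀ T M : ℝ, c⁻¹ ≤ T → 1 ≤ M → 16 * M ^ 2 ≤ T →
    ∃ E : Finset (ℤ × ℤ × ℤ), c * T ^ (3 - ε) / M ≤ (E.card : ℝ) ∧ ∀ t ∈ E,
      t.1 % 2 = 1 ∧ t.2.1 % 2 = 0 ∧ t.2.2 % 4 = 2 ∧ T / 2 ≤ (t.1 : ℝ) ∧ (t.1 : ℝ) ≤ T ∧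
      |(t.2.1 : ℝ)| ≤ T ∧ |(t.2.2 : ℝ)| ≤ T ∧ Int.gcd t.1 t.2.1 = 1 ∧
      ∃ m : ℤ, M / 4 ≤ (m : ℝ) ∧ 0 < m ∧ m ^ 2 ∣ t.2.1 ^ 2 - 4 * t.1 * t.2.2

end Pool.Agent.R365.QP
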