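import Pool.Agent.R365.QP.Small
import Pool.Agent.R365.QP.Stm2

/-! Points of degree two over fields of small discriminant with small radical. -/

set_option autoImplicit false

namespace Pool.Agent.R365.QP

open NumberField IsDedekindDomain Finset Pool.Agent.H691R3 Pool.Agent.W223.AK Polynomial
open Pool.Agent.W222.UABC

/-- the quadratic polynomial of a point of a quadratic field, with the radicals of three values -/
theorem quad_rad {K : Type} [Field K] [NumberField K] (hK : Module.finrank ℚ K = 2) {t : K}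
    (ht' : Pt t) {P : Fin 3 → Idl K} (hP : IsP ∅ t P) : ∃ A B C : ℤ, A ≠ 0 ∧ C ≠ 0 ∧
      A - B + C ≠ 0 ∧ |(A : ℝ)| ≤ 9 * Real.exp (ht t) ∧ |(B : ℝ)| ≤ 9 * Real.exp (ht t) ∧
      |(C : ℝ)| ≤ 9 * Real.exp (ht t) ∧ (A : K) * t ^ 2 + B * t + C = 0 ∧
      (rad A : ℝ) * rad C * rad (A - B + C) ≤ Real.exp (rl (P 0) + rl (P 1) + rl (P 2)) := by
  obtain ⟨z, χ, h1, h2, h3, h4, h5, h6, h7⟩ := data ht' hP
  rw [hK] at h2 h7
  have hlen : Real.log (nn (P 1)) ≤ ht t + 2 * Real.log 2 := by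
    rw [log_nn]
    have := len_le ht' hP 1
    rw [cS_empty, hK] at this
    push_cast at this
    linarith
  have hN0 : (0 : ℝ) < nn (P 1) := by exact_mod_cast nn_pos (P 1)
  have hN : (nn (P 1) : ℝ) ≤ 4 * Real.exp (ht t) := by
    rw [← Real.exp_log hN0]
    refine (Real.exp_le_exp.2 hlen).trans (le_of_eq ?_)
    rw [Real.exp_add, two_mul, Real.exp_add, Real.exp_log (by norm_num)]
    ring
  -- the coefficients of `χ`
  obtain ⟨u, v, huv⟩ : ∃ u v : ℚ, χ = X ^ 2 + Polynomial.C u * X + Polynomial.C v := by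
    refine ⟨χ.coeff 1, χ.coeff 0, ?_⟩
    have hc2 : χ.coeff 2 = 1 := by
      have := h1.coeff_natDegree
      rw [h2] at this
      exact this
    ext k
    rcases k with _ | _ | _ | k
    · simp
    · simp
    · simp [hc2]
    · have : χ.coeff (k + 3) = 0 := by
        apply Polynomial.coeff_eq_zero_of_natDegree_lt
        omega
      simp [this]
  have hz0 : (z 0 : ℚ) = (nn (P 1) : ℚ) * v := by
    rw [h4 0, huv]
    simp
  have hz1 : (z 1 : ℚ) = (nn (P 1) : ℚ) * (1 + u + v) := by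
    rw [h4 1, huv]
    simp
  have hzm : (z (-1) : ℚ) = (nn (P 1) : ℚ) * (1 - u + v) := by
    rw [h4 (-1), huv]
    simp only [Polynomial.eval_add, Polynomial.eval_pow, Polynomial.eval_X, Polynomial.eval_mul,
      Polynomial.eval_C]
    push_cast
    ring
  have hzm' : (z (-1) : ℤ) = (nn (P 1) : ℤ) - (z 1 - z 0 - nn (P 1)) + z 0 := by
    have : (z (-1) : ℚ) = (nn (P 1) : ℚ) - (z 1 - z 0 - nn (P 1)) + z 0 := by
      rw [hzm, hz1, hz0]
      ring
    exact_mod_cast this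
  have hroot : t ^ 2 + (u : K) * t + (v : K) = 0 := by
    rw [huv] at h3
    simpa [Polynomial.aeval_def] using h3
  have hexp : 0 < Real.exp (ht t) := Real.exp_pos _
  have hb0 := h7 0
  have hb1 := h7 1
  norm_num at hb0 hb1
  refine ⟨(nn (P 1) : ℤ), z 1 - z 0 - nn (P 1), z 0, ?_, ?_, ?_, ?_, ?_, ?_, ?_, ?_⟩
  · exact_mod_cast (nn_pos (P 1)).ne'
  · intro h
    rw [h, abs_zero] at h5
    exact (nn_pos (P 0)).ne' (by exact_mod_cast h5.symm)
  · rw [← hzm']
    intro h
    rw [h, abs_zero] at h6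
    exact (nn_pos (P 2)).ne' (by exact_mod_cast h6.symm)
  · rw [Int.cast_natCast, abs_of_pos hN0]
    linarith
  · push_cast
    rw [abs_le] at hb0 hb1 ⊢
    constructor <;> linarith [hb0.1, hb0.2, hb1.1, hb1.2]
  · linarith
  · have e0 : ((z 0 : ℤ) : K) = (nn (P 1) : K) * (v : K) := by exact_mod_cast congrArg (Rat.cast : ℚ → K) hz0
    have e1 : ((z 1 : ℤ) : K) = (nn (P 1) : K) * (1 + (u : K) + (v : K)) := by
      exact_mod_cast congrArg (Rat.cast : ℚ → K) hz1
    push_cast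
    rw [e0, e1]
    linear_combination (nn (P 1) : K) * hroot
  · rw [← hzm']
    have r0 : rad (z 0) = rd (nn (P 0)) := by
      unfold rad rd
      have : (z 0).natAbs = nn (P 0) := by
        rw [← Int.natAbs_abs, h5, Int.natAbs_natCast]
      rw [this]
    have r2 : rad (z (-1)) = rd (nn (P 2)) := by
      unfold rad rd
      have : (z (-1)).natAbs = nn (P 2) := by
        rw [← Int.natAbs_abs, h6, Int.natAbs_natCast]
      rw [this]
    have r1 : rad (nn (P 1) : ℤ) = rd (nn (P 1)) := by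
      unfold rad rd
      rw [Int.natAbs_natCast]
    have hpos : ∀ n : ℕ, (0 : ℝ) < rd n := by
      intro n
      have : 0 < rd n := Finset.prod_pos fun p hp => (Nat.prime_of_mem_primeFactors hp).pos
      exact_mod_cast this
    have hle : ∀ l, (rd (nn (P l)) : ℝ) ≤ Real.exp (rl (P l)) := by
      intro l
      rw [← Real.exp_log (hpos (nn (P l)))]
      exact Real.exp_le_exp.2 (log_rd_nn (P l))
    rw [r0, r1, r2, Real.exp_add, Real.exp_add]
    have k0 := hle 0
    have k1 := hle 1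
    have k2 := hle 2
    have p0 := hpos (nn (P 0))
    have p1 := hpos (nn (P 1))
    have p2 := hpos (nn (P 2))
    calc (rd (nn (P 1)) : ℝ) * rd (nn (P 0)) * rd (nn (P 2)) ≤
        Real.exp (rl (P 1)) * Real.exp (rl (P 0)) * Real.exp (rl (P 2)) := by gcongr
      _ = _ := by ring

/-- points over quadratic fields of small discriminant, with small radical -/
theorem jup_card (hD : S_DISC) (hJ : S_JUP) {ε : ℝ} (hε : 0 < ε) : ∃ D : ℝ, 0 < D ∧
    ∀ (X Z W V : ℝ) (E : Finset (AlgebraicClosure ℚ)), 0 ≤ X → 0 ≤ Z → 0 ≤ W → 0 ≤ V → V ≤ X →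
      (∀ x ∈ E, ∃ (K : IntermediateField ℚ (AlgebraicClosure ℚ)) (_ : NumberField K) (t : K),
        (t : AlgebraicClosure ℚ) = x ∧ Module.finrank ℚ K = 2 ∧ Pt t ∧ ht t ≤ X ∧
          Real.log |(NumberField.discr K : ℝ)| ≤ Z ∧ ∃ P : Fin 3 → Idl K, IsP ∅ t P ∧
            rl (P 0) + rl (P 1) + rl (P 2) ≤ W) →
      (E.card : ℝ) ≤ D * Real.exp (ε * X) * (Real.exp (2 / 3 * W) * (Real.exp (Z / 2) + Real.exp V) +
        Real.exp (3 * X - V)) := by
  classical
  obtain ⟨D, hD0, hcount⟩ := hJ ε hε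
  refine ⟨2 * (D * (9 : ℝ) ^ ε * 729), by positivity, ?_⟩
  intro X Z W V E hX hZ hW hV hVX hE
  have hex : ∀ x : AlgebraicClosure ℚ, ∃ p : ℤ × ℤ × ℤ, x ∈ E → (p.1 ≠ 0 ∧ p.2.2 ≠ 0 ∧
      p.1 - p.2.1 + p.2.2 ≠ 0 ∧
      |(p.1 : ℝ)| ≤ 9 * Real.exp X ∧ |(p.2.1 : ℝ)| ≤ 9 * Real.exp X ∧
      |(p.2.2 : ℝ)| ≤ 9 * Real.exp X ∧
      (rad p.1 : ℝ) * rad p.2.2 * rad (p.1 - p.2.1 + p.2.2) ≤ Real.exp W ∧
      (∃ s m : ℤ, s ≠ 0 ∧ p.2.1 ^ 2 - 4 * p.1 * p.2.2 = s * m ^ 2 ∧ |(s : ℝ)| ≤ Real.exp Z)) ∧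
      (p.1 : AlgebraicClosure ℚ) * x ^ 2 + p.2.1 * x + p.2.2 = 0 := by
    intro x
    by_cases hx : x ∈ E
    · obtain ⟨K, hnf, t, htx, hK, hPt, hht, hd, P, hP, hrl⟩ := hE x hx
      obtain ⟨A, B, C, h1, h2, h22, h3, h4, h5, h6, h66⟩ := quad_rad hK hPt hP
      obtain ⟨s, m, h7, h8, h9⟩ := disc_all hD hK h1 h6
      have he : 9 * Real.exp (ht t) ≤ 9 * Real.exp X :=
        mul_le_mul_of_nonneg_left (Real.exp_le_exp.2 hht) (by norm_num)
      refine ⟨(A, B, C), fun _ => ⟨⟨h1, h2, h22, h3.trans he, h4.trans he, h5.trans he,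
        h66.trans (Real.exp_le_exp.2 hrl), ⟨s, m, h7, h8, ?_⟩⟩, ?_⟩⟩
      · have h10 : |(s : ℝ)| ≤ |(NumberField.discr K : ℝ)| := by exact_mod_cast h9
        have h11 : (0 : ℝ) < |(NumberField.discr K : ℝ)| := by
          have := one_le_disc (K := K)
          linarith
        refine h10.trans ?_
        rw [← Real.exp_log h11]
        exact Real.exp_le_exp.2 hd
      · rw [← htx]
        have := congrArg (algebraMap K (AlgebraicClosure ℚ)) h6
        simpa using this
    · exact ⟨(0, 0, 0), fun h => absurd h hx⟩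
  choose Φ hΦ using hex
  have hfib : ∀ b ∈ E.image Φ, (E.filter fun x => Φ x = b).card ≤ 2 := by
    intro b hb
    obtain ⟨x0, hx0, rfl⟩ := Finset.mem_image.1 hb
    set f : Polynomial (AlgebraicClosure ℚ) :=
      Polynomial.C ((Φ x0).1 : AlgebraicClosure ℚ) * Polynomial.X ^ 2 +
      Polynomial.C ((Φ x0).2.1 : AlgebraicClosure ℚ) * Polynomial.X +
      Polynomial.C ((Φ x0).2.2 : AlgebraicClosure ℚ) with hf
    have ha : ((Φ x0).1 : AlgebraicClosure ℚ) ≠ 0 := by
      exact_mod_cast (hΦ x0 hx0).1.1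
    have hdeg : f.natDegree = 2 := Polynomial.natDegree_quadratic ha
    have hf0 : f ≠ 0 := by
      intro h
      rw [h] at hdeg
      simp at hdeg
    have hsub : (E.filter fun x => Φ x = Φ x0) ⊆ f.roots.toFinset := by
      intro x hx
      obtain ⟨hxE, hxx⟩ := Finset.mem_filter.1 hx
      rw [Multiset.mem_toFinset, Polynomial.mem_roots hf0, Polynomial.IsRoot, hf]
      have := (hΦ x hxE).2
      rw [hxx] at this
      simpa using this
    refine (Finset.card_le_card hsub).trans ((Multiset.toFinset_card_le _).trans ?_)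
    rw [← hdeg]
    exact Polynomial.card_roots' _
  have h1 := Finset.card_le_mul_card_image E 2 hfib
  have hM : (1 : ℝ) ≤ 9 * Real.exp X := by
    have := Real.one_le_exp hX
    linarith
  have hVM : Real.exp V ≤ 9 * Real.exp X := by
    have := Real.exp_le_exp.2 hVX
    have := Real.exp_pos X
    linarith
  have h2 := hcount (9 * Real.exp X) (Real.exp W) (Real.exp Z) (Real.exp V) (E.image Φ) hM
    (Real.one_le_exp hW) (Real.one_le_exp hZ) (Real.one_le_exp hV) hVM (by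
    intro p hp
    obtain ⟨x, hx, rfl⟩ := Finset.mem_image.1 hp
    exact (hΦ x hx).1)
  calc (E.card : ℝ) ≤ 2 * ((E.image Φ).card : ℝ) := by exact_mod_cast h1
    _ ≤ 2 * (D * (9 * Real.exp X) ^ ε * (Real.exp W ^ (2 / 3 : ℝ) * (√(Real.exp Z) + Real.exp V) +
          (9 * Real.exp X) ^ 3 / Real.exp V)) := by gcongr
    _ = 2 * (D * (9 : ℝ) ^ ε) * Real.exp (ε * X) * (Real.exp (2 / 3 * W) *
          (Real.exp (Z / 2) + Real.exp V) + 729 * Real.exp (3 * X - V)) := by
        rw [Real.mul_rpow (by norm_num) (Real.exp_pos _).le, ← Real.exp_mul, Real.sqrt_eq_rpow,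
          ← Real.exp_mul, ← Real.exp_mul, mul_pow, ← Real.exp_nat_mul, mul_div_assoc, ← Real.exp_sub]
        have e1 : X * ε = ε * X := by ring
        have e2 : W * (2 / 3) = 2 / 3 * W := by ring
        have e3 : Z * (1 / 2) = Z / 2 := by ring
        have e4 : ((3 : ℕ) : ℝ) * X - V = 3 * X - V := by push_cast; ring
        rw [e1, e2, e3, e4]
        ring
    _ ≤ 2 * (D * (9 : ℝ) ^ ε) * Real.exp (ε * X) * (729 * (Real.exp (2 / 3 * W) *
          (Real.exp (Z / 2) + Real.exp V)) + 729 * Real.exp (3 * X - V)) := by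
        have : 0 ≤ Real.exp (2 / 3 * W) * (Real.exp (Z / 2) + Real.exp V) := by positivity
        refine mul_le_mul_of_nonneg_left ?_ (by positivity)
        linarith
    _ = _ := by ring

end Pool.Agent.R365.QP
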