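import Pool.Agent.R365.QP.Stm
import Pool.Agent.R365.QP.Stm2

/-!
# Piece QP-JUP of project QP (MP_6e34ef_nt)
-/

set_option autoImplicit false

namespace Pool.Agent.R365.QP

namespace JupAux

/-- at most two square roots -/
theorem card_sq (G : Finset ℤ) (N : ℤ) (h : ∀ β ∈ G, β ^ 2 = N) : G.card ≤ 2 := by
  classical
  rcases G.eq_empty_or_nonempty with h0 | ⟨b, hb⟩
  · simp [h0]
  · have : G ⊆ {b, -b} := by
      intro x hx
      have h1 := h x hx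
      have h2 := h b hb
      rcases sq_eq_sq_iff_eq_or_eq_neg.1 (h1.trans h2.symm) with h | h <;> simp [h]
    exact (Finset.card_le_card this).trans (Finset.card_insert_le _ _)

/-- the bound for one class -/
theorem class_bound (ε D1 D2 : ℝ) (hD2 : 0 < D2)
    (h1 : ∀ (M R : ℝ) (E : Finset (ℤ × ℤ)), 1 ≤ M → 1 ≤ R →
      (∀ t ∈ E, t.1 ≠ 0 ∧ t.2 ≠ 0 ∧ |(t.1 : ℝ)| ≤ M ∧ |(t.2 : ℝ)| ≤ M ∧
        (rad t.1 : ℝ) * rad t.2 ≤ R) → (E.card : ℝ) ≤ D1 * M ^ ε * R)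
    (h2 : ∀ (N : ℤ) (T Y M₁ : ℝ) (E : Finset ℤ), N ≠ 0 →
      |(N : ℝ)| ≤ T ^ 2 → 1 ≤ T → 1 ≤ Y → 1 ≤ M₁ →
      (∀ β ∈ E, |(β : ℝ)| ≤ T ∧ ∃ s m : ℤ, s ≠ 0 ∧ 1 ≤ m ∧ (m : ℝ) ≤ M₁ ∧ |(s : ℝ)| ≤ Y ∧
        β ^ 2 - N = s * m ^ 2) → (E.card : ℝ) ≤ D2 * T ^ ε * (√Y + M₁))
    (M R Y M₁ : ℝ) (hM : 1 ≤ M) (hR : 1 ≤ R) (hY : 1 ≤ Y) (hM₁ : 1 ≤ M₁) (F : Finset (ℤ × ℤ × ℤ))
    (hF : ∀ t ∈ F, t.1 ≠ 0 ∧ t.2.1 ≠ 0 ∧ |(t.1 : ℝ)| ≤ M ∧ |(t.2.1 : ℝ)| ≤ 3 * M ∧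
      |(t.2.2 : ℝ)| ≤ 3 * M ∧ (rad t.1 : ℝ) * rad t.2.1 ≤ R ∧
      ∃ s m : ℤ, s ≠ 0 ∧ t.2.2 ^ 2 - 4 * t.1 * t.2.1 = s * m ^ 2 ∧ |(s : ℝ)| ≤ Y ∧ |(m : ℝ)| ≤ M₁) :
    (F.card : ℝ) ≤ D1 * (3 * M) ^ ε * R * (D2 * (4 * M) ^ ε * (√Y + M₁) + 2) := by
  classical
  let f : ℤ × ℤ × ℤ → ℤ × ℤ := fun t => (t.1, t.2.1)
  have hK : 0 ≤ D2 * (4 * M) ^ ε * (√Y + M₁) + 2 := by positivity
  have himg : ((F.image f).card : ℝ) ≤ D1 * (3 * M) ^ ε * R := by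
    refine h1 (3 * M) R _ (by linarith) hR ?_
    intro t ht
    obtain ⟨x, hx, rfl⟩ := Finset.mem_image.1 ht
    obtain ⟨a1, a2, a3, a4, -, a6, -⟩ := hF x hx
    exact ⟨a1, a2, by linarith [a3], a4, a6⟩
  have hfib : ∀ a ∈ F.image f, ((F.filter (fun x => f x = a)).card : ℝ) ≤
      D2 * (4 * M) ^ ε * (√Y + M₁) + 2 := by
    intro a ha
    obtain ⟨x0, hx0, hx0a⟩ := Finset.mem_image.1 ha
    obtain ⟨b1, b2, b3, b4, -⟩ := hF x0 hx0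
    set Fa := F.filter (fun x => f x = a) with hFa
    let G := Fa.image (fun x => x.2.2)
    have hGc : G.card = Fa.card := by
      apply Finset.card_image_of_injOn
      intro x hx y hy hxy
      have hx' := (Finset.mem_filter.1 (Finset.mem_coe.1 hx)).2
      have hy' := (Finset.mem_filter.1 (Finset.mem_coe.1 hy)).2
      have hxy' : f x = f y := hx'.trans hy'.symm
      have e1 : x.1 = y.1 := (Prod.mk.inj hxy').1
      have e2 : x.2.1 = y.2.1 := (Prod.mk.inj hxy').2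
      exact Prod.ext e1 (Prod.ext e2 hxy)
    set N : ℤ := 4 * x0.1 * x0.2.1 with hN
    have hG : ∀ β ∈ G, |(β : ℝ)| ≤ 3 * M ∧ ∃ s m : ℤ, s ≠ 0 ∧ β ^ 2 - N = s * m ^ 2 ∧ |(s : ℝ)| ≤ Y ∧
        |(m : ℝ)| ≤ M₁ := by
      intro β hβ
      obtain ⟨x, hx, rfl⟩ := Finset.mem_image.1 hβ
      obtain ⟨hxF, hxa⟩ := Finset.mem_filter.1 hx
      obtain ⟨-, -, -, -, a5, -, s, m, hs, hsm, hsY, hm⟩ := hF x hxF
      have hff : f x = f x0 := hxa.trans hx0a.symm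
      have e1 : x.1 = x0.1 := (Prod.mk.inj hff).1
      have e2 : x.2.1 = x0.2.1 := (Prod.mk.inj hff).2
      rw [e1, e2] at hsm
      exact ⟨a5, s, m, hs, hsm, hsY, hm⟩
    have hG0 : (G.filter (fun β => β ^ 2 = N)).card ≤ 2 :=
      card_sq _ N fun β hβ => (Finset.mem_filter.1 hβ).2
    have hNr : |(N : ℝ)| ≤ (4 * M) ^ 2 := by
      rw [hN]
      push_cast
      rw [abs_mul, abs_mul, abs_of_pos (by norm_num : (0 : ℝ) < 4)]
      have : |(x0.1 : ℝ)| * |(x0.2.1 : ℝ)| ≤ M * (3 * M) :=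
        mul_le_mul b3 b4 (abs_nonneg _) (by linarith)
      nlinarith
    have hG1 : ((G.filter (fun β => ¬ β ^ 2 = N)).card : ℝ) ≤ D2 * (4 * M) ^ ε * (√Y + M₁) := by
      refine h2 N (4 * M) Y M₁ _ ?_ hNr (by linarith) hY hM₁ ?_
      · rw [hN]
        exact mul_ne_zero (mul_ne_zero (by norm_num) b1) b2
      · intro β hβ
        obtain ⟨hβG, hne⟩ := Finset.mem_filter.1 hβ
        obtain ⟨c1, s, m, hs, hsm, hsY, hm⟩ := hG β hβG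
        refine ⟨by linarith, s, |m|, hs, ?_, ?_, hsY, ?_⟩
        · have : m ≠ 0 := by
            rintro rfl
            apply hne
            have : β ^ 2 - N = 0 := by rw [hsm]; ring
            linarith
          have := abs_pos.2 this
          omega
        · push_cast; exact hm
        · rw [sq_abs]; exact hsm
    have hsplit : G.card = (G.filter (fun β => β ^ 2 = N)).card + (G.filter (fun β => ¬ β ^ 2 = N)).card :=
      (Finset.card_filter_add_card_filter_not _).symm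
    have : (Fa.card : ℝ) = ((G.filter (fun β => β ^ 2 = N)).card : ℝ) +
        ((G.filter (fun β => ¬ β ^ 2 = N)).card : ℝ) := by
      rw [← hGc, hsplit]; push_cast; ring
    rw [this]
    have : ((G.filter (fun β => β ^ 2 = N)).card : ℝ) ≤ 2 := by exact_mod_cast hG0
    linarith
  have hsum : (F.card : ℝ) = ∑ a ∈ F.image f, ((F.filter (fun x => f x = a)).card : ℝ) := by
    rw [← Nat.cast_sum]
    congr 1
    exact Finset.card_eq_sum_card_image f F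
  rw [hsum]
  refine (Finset.sum_le_sum hfib).trans ?_
  rw [Finset.sum_const, nsmul_eq_mul]
  exact mul_le_mul_of_nonneg_right himg hK

theorem two_of_three {a b c R : ℝ} (ha : 0 ≤ a) (hb : 0 ≤ b) (hc : 0 ≤ c) (hR : 1 ≤ R)
    (h : a * b * c ≤ R) :
    a * b ≤ R ^ (2 / 3 : ℝ) ∨ a * c ≤ R ^ (2 / 3 : ℝ) ∨ b * c ≤ R ^ (2 / 3 : ℝ) := by
  by_contra hne
  push Not at hne
  obtain ⟨h1, h2, h3⟩ := hne
  set ρ := R ^ (2 / 3 : ℝ) with hρ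
  have hρ0 : 0 < ρ := by positivity
  have hρ3 : ρ ^ 3 = R ^ 2 := by
    rw [hρ, ← Real.rpow_natCast, ← Real.rpow_mul (by linarith)]
    norm_num
  have e1 : ρ * ρ < (a * b) * (a * c) := mul_lt_mul'' h1 h2 hρ0.le hρ0.le
  have e2 : (ρ * ρ) * ρ < ((a * b) * (a * c)) * (b * c) :=
    mul_lt_mul'' e1 h3 (by positivity) hρ0.le
  have e3 : (a * b * c) ^ 2 ≤ R ^ 2 := pow_le_pow_left₀ (by positivity) h 2
  have e4 : ((a * b) * (a * c)) * (b * c) = (a * b * c) ^ 2 := by ring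
  have e5 : (ρ * ρ) * ρ = ρ ^ 3 := by ring
  rw [e4, e5, hρ3] at e2
  linarith

end JupAux

open JupAux

theorem t_JUP (hSQ : S_SQ) (hR : S_RAD2) (hC : S_COUNT) : S_JUP := by
  classical
  intro ε hε
  obtain ⟨D1, hD1, h1⟩ := hR (ε / 2) (by positivity)
  obtain ⟨D2, hD2, h2⟩ := hSQ (ε / 2) (by positivity)
  obtain ⟨D3, hD3, h3⟩ := hC ε hε
  set c := (3 : ℝ) ^ (ε / 2) * 4 ^ (ε / 2) with hc
  have hc0 : 0 < c := by positivity
  refine ⟨3 * (D1 * c * (D2 + 1)) + 3 * D3, by positivity, ?_⟩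
  intro M R Y M₁ E hM hR1 hY hM₁ hM₁M hE
  have hM0 : 0 < M := by linarith
  have hM₁0 : 0 < M₁ := by linarith
  set ρ := R ^ (2 / 3 : ℝ) with hρ
  have hρ1 : 1 ≤ ρ := Real.one_le_rpow hR1 (by norm_num)
  have hsY : 1 ≤ √Y := Real.one_le_sqrt.2 hY
  -- the class bound in simplified form
  set W := D1 * c * (D2 + 1) * (M ^ ε * (ρ * (√Y + M₁))) with hW
  have hWb : D1 * (3 * M) ^ (ε / 2) * ρ * (D2 * (4 * M) ^ (ε / 2) * (√Y + M₁) + 2) ≤ W := by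
    have e1 : (1 : ℝ) ≤ (4 * M) ^ (ε / 2) := Real.one_le_rpow (by linarith) (by positivity)
    have e2 : D2 * (4 * M) ^ (ε / 2) * (√Y + M₁) + 2 ≤ (D2 + 1) * (4 * M) ^ (ε / 2) * (√Y + M₁) := by
      have : 2 ≤ (4 * M) ^ (ε / 2) * (√Y + M₁) := by
        calc (2 : ℝ) = 1 * 2 := by ring
          _ ≤ (4 * M) ^ (ε / 2) * (√Y + M₁) := mul_le_mul e1 (by linarith) (by norm_num) (by positivity)
      nlinarith
    have e3 : (3 * M) ^ (ε / 2) = 3 ^ (ε / 2) * M ^ (ε / 2) := Real.mul_rpow (by norm_num) hM0.le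
    have e4 : (4 * M) ^ (ε / 2) = 4 ^ (ε / 2) * M ^ (ε / 2) := Real.mul_rpow (by norm_num) hM0.le
    have e5 : M ^ (ε / 2) * M ^ (ε / 2) = M ^ ε := by
      rw [← Real.rpow_add hM0]; congr 1; ring
    calc D1 * (3 * M) ^ (ε / 2) * ρ * (D2 * (4 * M) ^ (ε / 2) * (√Y + M₁) + 2)
        ≤ D1 * (3 * M) ^ (ε / 2) * ρ * ((D2 + 1) * (4 * M) ^ (ε / 2) * (√Y + M₁)) :=
          mul_le_mul_of_nonneg_left e2 (by positivity)
      _ = D1 * c * (D2 + 1) * ((M ^ (ε / 2) * M ^ (ε / 2)) * (ρ * (√Y + M₁))) := by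
          rw [e3, e4, hc]; ring
      _ = W := by rw [e5]
  -- large square part
  let P1 : ℤ × ℤ × ℤ → Prop := fun t => ∃ s m : ℤ, s ≠ 0 ∧
    t.2.1 ^ 2 - 4 * t.1 * t.2.2 = s * m ^ 2 ∧ |(s : ℝ)| ≤ Y ∧ M₁ < |(m : ℝ)|
  have hE1 : ((E.filter P1).card : ℝ) ≤ 3 * D3 * (M ^ ε * (M ^ 3 / M₁)) := by
    have hY' : 1 ≤ 5 * M ^ 2 / M₁ ^ 2 := by
      rw [le_div_iff₀ (by positivity)]
      nlinarith
    have hb := h3 M (5 * M ^ 2 / M₁ ^ 2) (E.filter P1) hM hY' ?_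
    · have hs : √(5 * M ^ 2 / M₁ ^ 2) ≤ 3 * M / M₁ := by
        apply Real.sqrt_le_iff.2
        refine ⟨by positivity, ?_⟩
        rw [div_pow, div_le_div_iff_of_pos_right (by positivity)]
        nlinarith
      calc ((E.filter P1).card : ℝ) ≤ D3 * M ^ (2 + ε) * √(5 * M ^ 2 / M₁ ^ 2) := hb
        _ ≤ D3 * M ^ (2 + ε) * (3 * M / M₁) := mul_le_mul_of_nonneg_left hs (by positivity)
        _ = 3 * D3 * (M ^ ε * (M ^ 3 / M₁)) := by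
            rw [Real.rpow_add hM0]
            have : M ^ (2 : ℝ) = M ^ 2 := Real.rpow_natCast M 2
            rw [this]
            field_simp
    · intro t ht
      obtain ⟨htE, s, m, hs, hsm, -, hm⟩ := Finset.mem_filter.1 ht
      obtain ⟨a1, a2, -, a4, a5, a6, -⟩ := hE t htE
      refine ⟨a1, a2, a4, a5, a6, s, m, hs, hsm, ?_⟩
      rw [le_div_iff₀ (by positivity)]
      have hΔ : |(s : ℝ)| * (m : ℝ) ^ 2 ≤ 5 * M ^ 2 := by
        have : (s : ℝ) * (m : ℝ) ^ 2 = (t.2.1 : ℝ) ^ 2 - 4 * t.1 * t.2.2 := by exact_mod_cast hsm.symm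
        have h' : |(s : ℝ)| * (m : ℝ) ^ 2 = |(t.2.1 : ℝ) ^ 2 - 4 * t.1 * t.2.2| := by
          rw [← this, abs_mul, abs_of_nonneg (sq_nonneg (m : ℝ))]
        rw [h']
        have b1 : (t.2.1 : ℝ) ^ 2 ≤ M ^ 2 := by
          rw [← sq_abs]; exact pow_le_pow_left₀ (abs_nonneg _) a5 2
        have b2 : |(t.1 : ℝ) * t.2.2| ≤ M * M := by
          rw [abs_mul]; exact mul_le_mul a4 a6 (abs_nonneg _) hM0.le
        have b3 := abs_le.1 b2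
        rw [abs_le]
        constructor <;> nlinarith [sq_nonneg (t.2.1 : ℝ), b3.1, b3.2]
      have hmm : M₁ ^ 2 ≤ (m : ℝ) ^ 2 := by
        rw [← sq_abs (m : ℝ)]; exact pow_le_pow_left₀ hM₁0.le hm.le 2
      exact (mul_le_mul_of_nonneg_left hmm (abs_nonneg _)).trans hΔ
  -- the rest
  set E2 := E.filter (fun t => ¬ P1 t) with hE2
  have hE2' : ∀ t ∈ E2, t.1 ≠ 0 ∧ t.2.2 ≠ 0 ∧ t.1 - t.2.1 + t.2.2 ≠ 0 ∧ |(t.1 : ℝ)| ≤ M ∧
      |(t.2.1 : ℝ)| ≤ M ∧ |(t.2.2 : ℝ)| ≤ M ∧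
      (rad t.1 : ℝ) * rad t.2.2 * rad (t.1 - t.2.1 + t.2.2) ≤ R ∧
      ∃ s m : ℤ, s ≠ 0 ∧ t.2.1 ^ 2 - 4 * t.1 * t.2.2 = s * m ^ 2 ∧ |(s : ℝ)| ≤ Y ∧
        |(m : ℝ)| ≤ M₁ := by
    intro t ht
    obtain ⟨htE, hnP⟩ := Finset.mem_filter.1 ht
    obtain ⟨a1, a2, a3, a4, a5, a6, a7, s, m, hs, hsm, hsY'⟩ := hE t htE
    refine ⟨a1, a2, a3, a4, a5, a6, a7, s, m, hs, hsm, hsY', ?_⟩
    by_contra hlt
    push Not at hlt
    exact hnP ⟨s, m, hs, hsm, hsY', hlt⟩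
  have habs : ∀ t ∈ E2, |((t.1 - t.2.1 + t.2.2 : ℤ) : ℝ)| ≤ 3 * M ∧
      |((t.2.1 - 2 * t.1 : ℤ) : ℝ)| ≤ 3 * M ∧ |((t.2.1 - 2 * t.2.2 : ℤ) : ℝ)| ≤ 3 * M := by
    intro t ht
    obtain ⟨-, -, -, a4, a5, a6, -⟩ := hE2' t ht
    have b1 := abs_le.1 a4
    have b2 := abs_le.1 a5
    have b3 := abs_le.1 a6
    push_cast
    refine ⟨abs_le.2 ⟨?_, ?_⟩, abs_le.2 ⟨?_, ?_⟩, abs_le.2 ⟨?_, ?_⟩⟩ <;> linarith [b1.1, b1.2, b2.1, b2.2, b3.1, b3.2]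
  let Q1 : ℤ × ℤ × ℤ → Prop := fun t => (rad t.1 : ℝ) * rad t.2.2 ≤ ρ
  let Q2 : ℤ × ℤ × ℤ → Prop := fun t => (rad t.1 : ℝ) * rad (t.1 - t.2.1 + t.2.2) ≤ ρ
  let Q3 : ℤ × ℤ × ℤ → Prop := fun t => (rad t.2.2 : ℝ) * rad (t.1 - t.2.1 + t.2.2) ≤ ρ
  have hcl := class_bound (ε / 2) D1 D2 hD2 h1 h2 M ρ Y M₁ hM hρ1 hY hM₁
  have hF1 : ((E2.filter Q1).card : ℝ) ≤ W := by
    let f : ℤ × ℤ × ℤ → ℤ × ℤ × ℤ := fun t => (t.1, t.2.2, t.2.1)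
    have hinj : Set.InjOn f (E2.filter Q1 : Set (ℤ × ℤ × ℤ)) := by
      rintro ⟨a, b, d⟩ - ⟨a', b', d'⟩ - h
      simp only [f, Prod.mk.injEq] at h
      obtain ⟨r1, r2, r3⟩ := h
      subst r1 r2 r3; rfl
    rw [← Finset.card_image_of_injOn hinj]
    refine (hcl _ ?_).trans hWb
    intro t ht
    obtain ⟨x, hx, rfl⟩ := Finset.mem_image.1 ht
    obtain ⟨hx2, hxQ⟩ := Finset.mem_filter.1 hx
    obtain ⟨a1, a2, a3, a4, a5, a6, a7, s, m, hs, hsm, hsY', hm⟩ := hE2' x hx2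
    exact ⟨a1, a2, a4, by linarith, by linarith, hxQ, s, m, hs, hsm, hsY', hm⟩
  have hF2 : ((E2.filter Q2).card : ℝ) ≤ W := by
    let f : ℤ × ℤ × ℤ → ℤ × ℤ × ℤ := fun t => (t.1, t.1 - t.2.1 + t.2.2, t.2.1 - 2 * t.1)
    have hinj : Set.InjOn f (E2.filter Q2 : Set (ℤ × ℤ × ℤ)) := by
      rintro ⟨a, b, d⟩ - ⟨a', b', d'⟩ - h
      simp only [f, Prod.mk.injEq] at h
      obtain ⟨r1, r2, r3⟩ := h
      have : b = b' := by omega
      have : d = d' := by omega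
      subst r1; subst b'; subst d'; rfl
    rw [← Finset.card_image_of_injOn hinj]
    refine (hcl _ ?_).trans hWb
    intro t ht
    obtain ⟨x, hx, rfl⟩ := Finset.mem_image.1 ht
    obtain ⟨hx2, hxQ⟩ := Finset.mem_filter.1 hx
    obtain ⟨a1, a2, a3, a4, a5, a6, a7, s, m, hs, hsm, hsY', hm⟩ := hE2' x hx2
    obtain ⟨q1, q2, q3⟩ := habs x hx2
    refine ⟨a1, a3, a4, q1, q2, hxQ, s, m, hs, ?_, hsY', hm⟩
    rw [← hsm]
    simp only [f]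
    ring
  have hF3 : ((E2.filter Q3).card : ℝ) ≤ W := by
    let f : ℤ × ℤ × ℤ → ℤ × ℤ × ℤ := fun t => (t.2.2, t.1 - t.2.1 + t.2.2, t.2.1 - 2 * t.2.2)
    have hinj : Set.InjOn f (E2.filter Q3 : Set (ℤ × ℤ × ℤ)) := by
      rintro ⟨a, b, d⟩ - ⟨a', b', d'⟩ - h
      simp only [f, Prod.mk.injEq] at h
      obtain ⟨r1, r2, r3⟩ := h
      have : b = b' := by omega
      have : a = a' := by omega
      subst r1; subst b'; subst a'; rfl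
    rw [← Finset.card_image_of_injOn hinj]
    refine (hcl _ ?_).trans hWb
    intro t ht
    obtain ⟨x, hx, rfl⟩ := Finset.mem_image.1 ht
    obtain ⟨hx2, hxQ⟩ := Finset.mem_filter.1 hx
    obtain ⟨a1, a2, a3, a4, a5, a6, a7, s, m, hs, hsm, hsY', hm⟩ := hE2' x hx2
    obtain ⟨q1, q2, q3⟩ := habs x hx2
    refine ⟨a2, a3, a6, q1, q3, hxQ, s, m, hs, ?_, hsY', hm⟩
    rw [← hsm]
    simp only [f]
    ring
  have hcov : E2 ⊆ E2.filter Q1 ∪ (E2.filter Q2 ∪ E2.filter Q3) := by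
    intro t ht
    obtain ⟨-, -, -, -, -, -, a7, -⟩ := hE2' t ht
    simp only [Finset.mem_union, Finset.mem_filter]
    rcases two_of_three (Nat.cast_nonneg _) (Nat.cast_nonneg _) (Nat.cast_nonneg _) hR1 a7 with h | h | h
    · exact Or.inl ⟨ht, h⟩
    · exact Or.inr (Or.inl ⟨ht, h⟩)
    · exact Or.inr (Or.inr ⟨ht, h⟩)
  have hE2c : (E2.card : ℝ) ≤ 3 * W := by
    have := (Finset.card_le_card hcov).trans ((Finset.card_union_le _ _).trans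
      (Nat.add_le_add_left (Finset.card_union_le _ _) _))
    have h' : (E2.card : ℝ) ≤ (E2.filter Q1).card + ((E2.filter Q2).card + (E2.filter Q3).card) := by
      exact_mod_cast this
    linarith
  have hsplit : (E.card : ℝ) = ((E.filter P1).card : ℝ) + (E2.card : ℝ) := by
    have : E.card = (E.filter P1).card + E2.card := (Finset.card_filter_add_card_filter_not _).symm
    rw [this]; push_cast; ring
  rw [hsplit]
  have hA : 0 ≤ M ^ ε * (M ^ 3 / M₁) := by positivity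
  have hB : 0 ≤ M ^ ε * (ρ * (√Y + M₁)) := by positivity
  have hk1 : 0 ≤ 3 * (D1 * c * (D2 + 1)) := by positivity
  have hk2 : 0 ≤ 3 * D3 := by positivity
  calc ((E.filter P1).card : ℝ) + (E2.card : ℝ)
      ≤ 3 * D3 * (M ^ ε * (M ^ 3 / M₁)) + 3 * W := add_le_add hE1 hE2c
    _ = 3 * D3 * (M ^ ε * (M ^ 3 / M₁)) + 3 * (D1 * c * (D2 + 1)) * (M ^ ε * (ρ * (√Y + M₁))) := by
        rw [hW]; ring
    _ ≤ (3 * (D1 * c * (D2 + 1)) + 3 * D3) * (M ^ ε * (M ^ 3 / M₁)) +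
        (3 * (D1 * c * (D2 + 1)) + 3 * D3) * (M ^ ε * (ρ * (√Y + M₁))) :=
        add_le_add (mul_le_mul_of_nonneg_right (by linarith) hA)
          (mul_le_mul_of_nonneg_right (by linarith) hB)
    _ = (3 * (D1 * c * (D2 + 1)) + 3 * D3) * M ^ ε * (ρ * (√Y + M₁) + M ^ 3 / M₁) := by ring

end Pool.Agent.R365.QP
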