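import Pool.Agent.R365.QP.VUp

/-! Lower bounds: many points of degree two, many violations. -/

set_option autoImplicit false

namespace Pool.Agent.R365.QP

open NumberField IsDedekindDomain Finset Pool.Agent.H691R3 Pool.Agent.W223.AK
open Pool.Agent.W222.UABC

/-- admissible coefficients -/
def Adm (p : ℤ × ℤ × ℤ) : Prop :=
  p.1 % 2 = 1 ∧ p.2.1 % 2 = 0 ∧ p.2.2 % 4 = 2 ∧ 0 < p.1 ∧ Int.gcd p.1 (Int.gcd p.2.1 p.2.2) = 1

/-- two quadratic equations of one irrational number -/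
theorem prop_of {K : Type} [Field K] [CharZero K] {t : K} (hirr : ∀ q : ℚ, t ≠ algebraMap ℚ K q)
    {a b c a' b' c' : ℤ} (ha : a ≠ 0) (h : (a : K) * t ^ 2 + b * t + c = 0)
    (h' : (a' : K) * t ^ 2 + b' * t + c' = 0) : a' * b = a * b' ∧ a' * c = a * c' := by
  have h1 : ((a' * b - a * b' : ℤ) : K) * t = ((a * c' - a' * c : ℤ) : K) := by
    push_cast
    linear_combination (a' : K) * h - (a : K) * h'
  have h2 : a' * b - a * b' = 0 := by
    by_contra h3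
    have h4 : ((a' * b - a * b' : ℤ) : K) ≠ 0 := by exact_mod_cast h3
    apply hirr (((a * c' - a' * c : ℤ) : ℚ) / ((a' * b - a * b' : ℤ) : ℚ))
    rw [map_div₀, map_intCast, map_intCast, eq_div_iff h4, mul_comm]
    exact h1
  rw [h2, Int.cast_zero, zero_mul] at h1
  have h3 : a * c' - a' * c = 0 := by exact_mod_cast h1.symm
  constructor <;> linarith

/-- the leading coefficient divides -/
theorem dvd_of {a b c a' b' c' : ℤ} (hg : Int.gcd a (Int.gcd b c) = 1) (h1 : a' * b = a * b')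
    (h2 : a' * c = a * c') : a ∣ a' := by
  have k1 : a ∣ a' * b := ⟨b', h1⟩
  have k2 : a ∣ a' * c := ⟨c', h2⟩
  have k3 : a ∣ a' * (Int.gcd b c : ℤ) := by
    rw [Int.gcd_eq_gcd_ab b c]
    have : a' * (b * Int.gcdA b c + c * Int.gcdB b c) =
        a' * b * Int.gcdA b c + a' * c * Int.gcdB b c := by ring
    rw [this]
    exact dvd_add (Dvd.dvd.mul_right k1 _) (Dvd.dvd.mul_right k2 _)
  exact (Int.isCoprime_iff_gcd_eq_one.2 hg).dvd_of_dvd_mul_right k3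

/-- the point attached to admissible coefficients -/
def At (C : ℝ) (T : ℝ) (p : ℤ × ℤ × ℤ) (x : AlgebraicClosure ℚ) : Prop :=
  ∃ (K : IntermediateField ℚ (AlgebraicClosure ℚ)) (_ : NumberField K) (t : K),
    (t : AlgebraicClosure ℚ) = x ∧ Module.finrank ℚ K = 2 ∧ (∀ q : ℚ, t ≠ algebraMap ℚ K q) ∧
      (p.1 : K) * t ^ 2 + p.2.1 * t + p.2.2 = 0 ∧
      W222.UABC.height ![t, 1 - t, -1] ≤ Real.log T / 2 + C

theorem height_eq {K : Type} [Field K] [NumberField K] (x : Fin 3 → K) :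
    height x = W222.UABC.height x := rfl

theorem exists_at (hR : S_ROOT) (hH : S_HSUM) : ∃ C : ℝ, ∀ (T : ℝ) (p : ℤ × ℤ × ℤ), Adm p →
    |(p.1 : ℝ)| ≤ T → |(p.2.1 : ℝ)| ≤ T → |(p.2.2 : ℝ)| ≤ T → ∃ x, At C T p x := by
  obtain ⟨C, hC⟩ := hH
  refine ⟨C / 2, ?_⟩
  rintro T ⟨a, b, c⟩ ⟨h1, h2, h3, h4, h5⟩ k1 k2 k3
  simp only at h1 h2 h3 h4 h5 k1 k2 k3
  obtain ⟨K, hnf, x, y, hK, hx, hy, e1, e2⟩ := hR a b c h1 h2 h3
  have hs := hC K a b c x y T h4.ne' e1 e2 k1 k2 k3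
  rw [height_eq, height_eq] at hs
  have ex : (a : K) * x ^ 2 + b * x + c = 0 := by linear_combination x * e1 - e2
  have ey : (a : K) * y ^ 2 + b * y + c = 0 := by linear_combination y * e1 - e2
  rcases le_total (W222.UABC.height ![x, 1 - x, -1]) (W222.UABC.height ![y, 1 - y, -1]) with h | h
  · exact ⟨x, K, hnf, x, rfl, hK, hx, ex, by linarith⟩
  · exact ⟨y, K, hnf, y, rfl, hK, hy, ey, by linarith⟩

theorem at_inj {C T : ℝ} {p q : ℤ × ℤ × ℤ} {x : AlgebraicClosure ℚ} (hp : Adm p) (hq : Adm q)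
    (h : At C T p x) (h' : At C T q x) : p = q := by
  obtain ⟨a, b, c⟩ := p
  obtain ⟨a', b', c'⟩ := q
  obtain ⟨-, -, -, p4, p5⟩ := hp
  obtain ⟨-, -, -, q4, q5⟩ := hq
  obtain ⟨K, hnf, t, htx, hK, hirr, he, -⟩ := h
  obtain ⟨K', hnf', t', htx', hK', hirr', he', -⟩ := h'
  simp only at p4 p5 q4 q5 he he'
  have hxirr : ∀ r : ℚ, x ≠ algebraMap ℚ (AlgebraicClosure ℚ) r := by
    intro r hr
    apply hirr r
    apply (algebraMap K (AlgebraicClosure ℚ)).injective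
    change (t : AlgebraicClosure ℚ) = _
    rw [htx, hr]
    rfl
  have e1 : (a : AlgebraicClosure ℚ) * x ^ 2 + b * x + c = 0 := by
    rw [← htx]
    have := congrArg (algebraMap K (AlgebraicClosure ℚ)) he
    simpa using this
  have e2 : (a' : AlgebraicClosure ℚ) * x ^ 2 + b' * x + c' = 0 := by
    rw [← htx']
    have := congrArg (algebraMap K' (AlgebraicClosure ℚ)) he'
    simpa using this
  obtain ⟨k1, k2⟩ := prop_of hxirr p4.ne' e1 e2
  have d1 := dvd_of p5 k1 k2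
  have d2 := dvd_of q5 k1.symm k2.symm
  have haa : a = a' := by
    apply le_antisymm
    · exact Int.le_of_dvd q4 d1
    · exact Int.le_of_dvd p4 d2
  subst haa
  have hb : b = b' := mul_left_cancel₀ p4.ne' k1
  have hc : c = c' := mul_left_cancel₀ p4.ne' k2
  rw [hb, hc]

/-- the points of a set of admissible coefficients -/
theorem exists_pts (hR : S_ROOT) (hH : S_HSUM) : ∃ C : ℝ, 0 ≤ C ∧
    ∀ (T : ℝ) (F : Finset (ℤ × ℤ × ℤ)), 1 ≤ T →
    (∀ p ∈ F, Adm p ∧ |(p.1 : ℝ)| ≤ T ∧ |(p.2.1 : ℝ)| ≤ T ∧ |(p.2.2 : ℝ)| ≤ T) →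
    ∃ E : Finset (AlgebraicClosure ℚ), E.card = F.card ∧ ∀ x ∈ E, ∃ p ∈ F, At C T p x := by
  classical
  obtain ⟨C, hC⟩ := exists_at hR hH
  have hmono : ∀ (T : ℝ) (p : ℤ × ℤ × ℤ) (x : AlgebraicClosure ℚ), At C T p x →
      At |C| T p x := by
    rintro T p x ⟨K, hnf, t, h1, h2, h3, h4, h5⟩
    exact ⟨K, hnf, t, h1, h2, h3, h4, h5.trans (by linarith [le_abs_self C])⟩
  refine ⟨|C|, abs_nonneg C, ?_⟩
  intro T F hT hF
  have hex : ∀ p : ℤ × ℤ × ℤ, ∃ x : AlgebraicClosure ℚ, p ∈ F → At |C| T p x := by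
    intro p
    by_cases hp : p ∈ F
    · obtain ⟨h1, h2, h3, h4⟩ := hF p hp
      obtain ⟨x, hx⟩ := hC T p h1 h2 h3 h4
      exact ⟨x, fun _ => hmono _ _ _ hx⟩
    · exact ⟨0, fun h => absurd h hp⟩
  choose φ hφ using hex
  refine ⟨F.image φ, ?_, ?_⟩
  · apply Finset.card_image_of_injOn
    intro p hp q hq hpq
    have h1 := hφ p hp
    have h2 := hφ q hq
    rw [hpq] at h1
    exact at_inj (hF p hp).1 (hF q hq).1 h1 h2
  · intro x hx
    obtain ⟨p, hp, rfl⟩ := Finset.mem_image.1 hx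
    exact ⟨p, hp, hφ p hp⟩

/-- `x` has degree two and height at most `B` -/
def Quad2 (B : ℝ) (x : AlgebraicClosure ℚ) : Prop :=
  ∃ (K : IntermediateField ℚ (AlgebraicClosure ℚ)) (_ : NumberField K) (t : K),
    (t : AlgebraicClosure ℚ) = x ∧ Module.finrank ℚ K = 2 ∧ (∀ q : ℚ, t ≠ algebraMap ℚ K q) ∧
      W222.UABC.height ![t, 1 - t, -1] ≤ Real.log B

/-- many points of degree two -/
theorem many (hR : S_ROOT) (hH : S_HSUM) (hP : S_COPR) : ∃ c B0 : ℝ, 0 < c ∧ 1 ≤ B0 ∧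
    ∀ B : ℝ, B0 ≤ B → ∃ E : Finset (AlgebraicClosure ℚ), c * B ^ 6 ≤ (E.card : ℝ) ∧
      ∀ x ∈ E, Quad2 B x := by
  classical
  obtain ⟨C, hC0, hC⟩ := exists_pts hR hH
  have hexp : 0 < Real.exp (-(2 * C)) := Real.exp_pos _
  have hexp1 : Real.exp (-(2 * C)) ≤ 1 := Real.exp_le_one_iff.2 (by linarith)
  refine ⟨Real.exp (-(2 * C)) ^ 3 / 256, 2 * Real.exp (2 * C), by positivity, ?_, ?_⟩
  · have := Real.one_le_exp (by linarith : 0 ≤ 2 * C)
    linarith
  intro B hB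
  have he2 : 1 ≤ Real.exp (2 * C) := Real.one_le_exp (by linarith)
  have hB1 : 1 ≤ B := by linarith
  obtain ⟨T, hT⟩ : ∃ T : ℝ, T = B ^ 2 * Real.exp (-(2 * C)) := ⟨_, rfl⟩
  have hT2 : 2 ≤ T := by
    have h1 : 2 * Real.exp (2 * C) ≤ B ^ 2 := by nlinarith
    have h2 : Real.exp (2 * C) * Real.exp (-(2 * C)) = 1 := by
      rw [← Real.exp_add]
      simp
    rw [hT]
    calc (2 : ℝ) = 2 * Real.exp (2 * C) * Real.exp (-(2 * C)) := by rw [mul_assoc, h2]; ring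
      _ ≤ B ^ 2 * Real.exp (-(2 * C)) := by gcongr
  obtain ⟨M, hM⟩ : ∃ M : ℕ, M = ⌊T / 2⌋₊ := ⟨_, rfl⟩
  have hM1 : 1 ≤ M := by
    rw [hM]
    exact Nat.le_floor (by push_cast; linarith)
  have hMT : 2 * (M : ℝ) ≤ T := by
    have := Nat.floor_le (by linarith : 0 ≤ T / 2)
    rw [← hM] at this
    linarith
  have hMT2 : T / 4 ≤ M := by
    have h1 := Nat.lt_floor_add_one (T / 2)
    rw [← hM] at h1
    have h2 : (1 : ℝ) ≤ M := by exact_mod_cast hM1
    linarith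
  set Q := (Finset.Icc 1 M ×ˢ Finset.Icc 1 M).filter
      fun p : ℕ × ℕ => Nat.Coprime p.1 p.2 ∧ ¬ 2 ∣ p.2 with hQ
  set f : ℕ × (ℕ × ℕ) → ℤ × ℤ × ℤ := fun r => (2 * (r.1 : ℤ) - 1, 2 * (r.2.1 : ℤ), 2 * (r.2.2 : ℤ))
    with hf
  have hinj : Function.Injective f := by
    rintro ⟨i, u, v⟩ ⟨i', u', v'⟩ h
    rw [hf] at h
    simp only [Prod.mk.injEq] at h ⊢
    omega
  set F : Finset (ℤ × ℤ × ℤ) := (Finset.Icc 1 M ×ˢ Q).image f with hF
  have hFcard : (M : ℝ) ^ 3 / 4 ≤ (F.card : ℝ) := by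
    rw [hF, Finset.card_image_of_injective _ hinj, Finset.card_product, Nat.card_Icc]
    have := hP M hM1
    push_cast
    have hM0 : (0 : ℝ) ≤ M := Nat.cast_nonneg M
    calc (M : ℝ) ^ 3 / 4 = M * ((M : ℝ) ^ 2 / 4) := by ring
      _ ≤ M * (Q.card : ℝ) := mul_le_mul_of_nonneg_left this hM0
  obtain ⟨E, hE1, hE2⟩ := hC T F (by linarith) (by
    intro p hp
    obtain ⟨⟨i, u, v⟩, hr, rfl⟩ := Finset.mem_image.1 hp
    obtain ⟨hi, huv⟩ := Finset.mem_product.1 hr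
    rw [hQ] at huv
    obtain ⟨huv1, hcop, hodd⟩ := Finset.mem_filter.1 huv
    obtain ⟨hu, hv⟩ := Finset.mem_product.1 huv1
    rw [Finset.mem_Icc] at hi hu hv
    simp only at hi hu hv hcop hodd
    have hiM : (i : ℝ) ≤ M := by exact_mod_cast hi.2
    have hi1 : (1 : ℝ) ≤ i := by exact_mod_cast hi.1
    have huM : (u : ℝ) ≤ M := by exact_mod_cast hu.2
    have hvM : (v : ℝ) ≤ M := by exact_mod_cast hv.2
    have hu0 : (0 : ℝ) ≤ u := Nat.cast_nonneg u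
    have hv0 : (0 : ℝ) ≤ v := Nat.cast_nonneg v
    refine ⟨⟨?_, ?_, ?_, ?_, ?_⟩, ?_, ?_, ?_⟩
    · simp only [hf]
      omega
    · simp only [hf]
      omega
    · simp only [hf]
      have : v % 2 = 1 := by omega
      omega
    · simp only [hf]
      omega
    · simp only [hf]
      have h1 : Int.gcd (2 * (u : ℤ)) (2 * (v : ℤ)) = 2 := by
        rw [Int.gcd_mul_left]
        have : Int.gcd (u : ℤ) (v : ℤ) = 1 := by
          rw [Int.gcd_natCast_natCast]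
          exact hcop
        rw [this]
        rfl
      rw [h1]
      rw [← Int.isCoprime_iff_gcd_eq_one]
      refine ⟨-1, i, ?_⟩
      push_cast
      ring
    · simp only [hf]
      push_cast
      rw [abs_le]
      constructor <;> linarith
    · simp only [hf]
      push_cast
      rw [abs_of_nonneg (by positivity)]
      linarith
    · simp only [hf]
      push_cast
      rw [abs_of_nonneg (by positivity)]
      linarith)
  refine ⟨E, ?_, ?_⟩
  · rw [hE1]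
    refine le_trans ?_ hFcard
    have hT0 : 0 ≤ T / 4 := by linarith
    have h3 : (T / 4) ^ 3 ≤ (M : ℝ) ^ 3 := by gcongr
    have h4 : Real.exp (-(2 * C)) ^ 3 / 256 * B ^ 6 = (T / 4) ^ 3 / 4 := by
      rw [hT]
      ring
    rw [h4]
    linarith
  · intro x hx
    obtain ⟨p, -, K, hnf, t, k1, k2, k3, -, k5⟩ := hE2 x hx
    refine ⟨K, hnf, t, k1, k2, k3, k5.trans (le_of_eq ?_)⟩
    rw [hT, Real.log_mul (by positivity) (by positivity), Real.log_exp, Real.log_pow]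
    push_cast
    ring

end Pool.Agent.R365.QP
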