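import Pool.Agent.R365.QP.Stm2
import Pool.Agent.Cov.PNT
import Pool.Agent.H353R2.Z2

/-! QP-LOWC: many quadratic polynomials whose discriminant has a large square factor. -/

set_option autoImplicit false

namespace Pool.Agent.R365.QP

open Filter Topology

lemma lowc_theta : ∃ T0 : ℝ, 1 ≤ T0 ∧ ∀ T : ℝ, T0 ≤ T →
    T / 4 ≤ Chebyshev.theta T - Chebyshev.theta (T / 2) := by
  have h1 := Pool.Agent.Cov.PNT.theta_div_tendsto
  have e1 : ∀ᶠ x : ℝ in atTop, 9 / 10 < Chebyshev.theta x / x :=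
    h1.eventually (lt_mem_nhds (by norm_num))
  have e2 : ∀ᶠ x : ℝ in atTop, Chebyshev.theta x / x < 11 / 10 :=
    h1.eventually (gt_mem_nhds (by norm_num))
  obtain ⟨a, ha⟩ := eventually_atTop.1 e1
  obtain ⟨b, hb⟩ := eventually_atTop.1 e2
  refine ⟨max 1 (max a (2 * b)), le_max_left _ _, fun T hT => ?_⟩
  have hT1 : 1 ≤ T := le_trans (le_max_left _ _) hT
  have hTa : a ≤ T := le_trans (le_trans (le_max_left _ _) (le_max_right _ _)) hT
  have hTb : 2 * b ≤ T := le_trans (le_trans (le_max_right _ _) (le_max_right _ _)) hT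
  have h3 := ha T hTa
  have h4 := hb (T / 2) (by linarith)
  rw [lt_div_iff₀ (by linarith)] at h3
  rw [div_lt_iff₀ (by linarith)] at h4
  linarith

/-- primes in `(T/2, T]` -/
noncomputable def lowPT (T : ℝ) : Finset ℕ := (Finset.Ioc ⌊T / 2⌋₊ ⌊T⌋₊).filter Nat.Prime

/-- indices of the odd moduli -/
noncomputable def lowJM (M : ℝ) : Finset ℕ := Finset.Icc ⌊M / 4⌋₊ (2 * ⌊M / 4⌋₊ - 1)

lemma low_mem_PT {T : ℝ} (hT : 0 ≤ T) {p : ℕ} (h : p ∈ lowPT T) :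
    p.Prime ∧ T / 2 < p ∧ (p : ℝ) ≤ T := by
  rw [lowPT, Finset.mem_filter, Finset.mem_Ioc] at h
  exact ⟨h.2, (Nat.floor_lt (by linarith)).1 h.1.1, (Nat.le_floor_iff hT).1 h.1.2⟩

lemma low_mem_JM {M : ℝ} (hM : 1 ≤ M) {j : ℕ} (h : j ∈ lowJM M) :
    M / 4 ≤ ((2 * j + 1 : ℕ) : ℝ) ∧ ((2 * j + 1 : ℕ) : ℝ) ≤ M := by
  rw [lowJM, Finset.mem_Icc] at h
  have h1 : ((⌊M / 4⌋₊ : ℕ) : ℝ) ≤ M / 4 := Nat.floor_le (by linarith)
  have h2 : M / 4 < (⌊M / 4⌋₊ : ℝ) + 1 := Nat.lt_floor_add_one _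
  generalize ⌊M / 4⌋₊ = q at h h1 h2
  constructor
  · have h3 : q + 1 ≤ 2 * j + 1 := by omega
    have h4 : ((q + 1 : ℕ) : ℝ) ≤ ((2 * j + 1 : ℕ) : ℝ) := by exact_mod_cast h3
    push_cast at h4 ⊢
    linarith
  · rcases Nat.eq_zero_or_pos q with h0 | h0
    · have h3 : j = 0 := by omega
      subst h3
      simpa using hM
    · have h3 : 2 * j + 1 ≤ 4 * q := by omega
      have h4 : ((2 * j + 1 : ℕ) : ℝ) ≤ ((4 * q : ℕ) : ℝ) := by exact_mod_cast h3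
      push_cast at h4 ⊢
      linarith

lemma low_card_JM (M : ℝ) : M / 8 ≤ ((lowJM M).card : ℝ) := by
  rw [lowJM, Nat.card_Icc]
  have h2 : M / 4 < (⌊M / 4⌋₊ : ℝ) + 1 := Nat.lt_floor_add_one _
  generalize ⌊M / 4⌋₊ = q at h2
  obtain ⟨r, hr⟩ : ∃ r : ℕ, r = 2 * q - 1 + 1 - q := ⟨_, rfl⟩
  rw [← hr]
  have h3 : q + 1 ≤ 2 * r := by omega
  have h4 : ((q + 1 : ℕ) : ℝ) ≤ ((2 * r : ℕ) : ℝ) := by exact_mod_cast h3
  push_cast at h4
  linarith

lemma low_card_PT {T : ℝ} (hT : 1 ≤ T) :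
    Chebyshev.theta T - Chebyshev.theta (T / 2) ≤ ((lowPT T).card : ℝ) * Real.log T := by
  have hsub : ⌊T / 2⌋₊ ≤ ⌊T⌋₊ := Nat.floor_le_floor (by linarith)
  have hun : (Finset.Ioc 0 ⌊T⌋₊).filter Nat.Prime =
      (Finset.Ioc 0 ⌊T / 2⌋₊).filter Nat.Prime ∪ lowPT T := by
    ext p
    simp only [lowPT, Finset.mem_filter, Finset.mem_Ioc, Finset.mem_union]
    constructor
    · rintro ⟨⟨h1, h2⟩, h3⟩
      rcases le_or_gt p ⌊T / 2⌋₊ with h | h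
      · exact Or.inl ⟨⟨h1, h⟩, h3⟩
      · exact Or.inr ⟨⟨h, h2⟩, h3⟩
    · rintro (⟨⟨h1, h2⟩, h3⟩ | ⟨⟨h1, h2⟩, h3⟩)
      · exact ⟨⟨h1, le_trans h2 hsub⟩, h3⟩
      · exact ⟨⟨by omega, h2⟩, h3⟩
  have hdis : Disjoint ((Finset.Ioc 0 ⌊T / 2⌋₊).filter Nat.Prime) (lowPT T) := by
    rw [Finset.disjoint_left]
    intro p h1 h2
    simp only [lowPT, Finset.mem_filter, Finset.mem_Ioc] at h1 h2
    omega
  have h1 : Chebyshev.theta T = Chebyshev.theta (T / 2) + ∑ p ∈ lowPT T, Real.log p := by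
    unfold Chebyshev.theta
    rw [hun, Finset.sum_union hdis]
  have h2 : ∑ p ∈ lowPT T, Real.log (p : ℝ) ≤ (lowPT T).card • Real.log T := by
    apply Finset.sum_le_card_nsmul
    intro p hp
    obtain ⟨h3, h4, h5⟩ := low_mem_PT (by linarith) hp
    exact Real.log_le_log (by exact_mod_cast h3.pos) h5
  rw [nsmul_eq_mul] at h2
  linarith

lemma lowc_c0 (p u m : ℕ) (hp : p.Coprime (m ^ 2)) (hm : m % 2 = 1) :
    ∃ c0 : ℕ, c0 < 4 * m ^ 2 ∧ c0 % 4 = 2 ∧ p * c0 ≡ u ^ 2 [MOD m ^ 2] := by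
  obtain ⟨k1, hk1, hk2⟩ := Nat.chineseRemainder hp 0 (u ^ 2)
  obtain ⟨x, rfl⟩ := (Nat.modEq_zero_iff_dvd.1 hk1)
  have h4 : Nat.Coprime 4 (m ^ 2) := by
    have h2 : Nat.Coprime 2 m := by
      rw [Nat.coprime_two_left, Nat.odd_iff]
      exact hm
    have := Nat.Coprime.pow 2 2 h2
    simpa using this
  have hm0 : m ^ 2 ≠ 0 := by
    have : m ≠ 0 := by
      rintro rfl
      simp at hm
    positivity
  refine ⟨(Nat.chineseRemainder h4 2 x).1,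
    Nat.chineseRemainder_lt_mul h4 2 x (by norm_num) hm0, ?_,
    (Nat.ModEq.mul_left p (Nat.chineseRemainder h4 2 x).2.2).trans hk2⟩
  have := (Nat.chineseRemainder h4 2 x).2.1
  exact this

lemma lowc_family (T M : ℝ) (hM : 1 ≤ M) (hTM : 16 * M ^ 2 ≤ T) (D : ℕ)
    (hD : ∀ n : ℕ, n ≠ 0 → (n : ℝ) ≤ 4 * T ^ 2 → n.divisors.card ≤ D) :
    ∃ E : Finset (ℤ × ℤ × ℤ),
      (lowPT T).card * (⌊T / 4⌋₊ * ((lowJM M).card * ⌊T / (4 * M ^ 2)⌋₊)) ≤ D * E.card ∧ ∀ t ∈ E,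
      t.1 % 2 = 1 ∧ t.2.1 % 2 = 0 ∧ t.2.2 % 4 = 2 ∧ T / 2 ≤ (t.1 : ℝ) ∧ (t.1 : ℝ) ≤ T ∧
      |(t.2.1 : ℝ)| ≤ T ∧ |(t.2.2 : ℝ)| ≤ T ∧ Int.gcd t.1 t.2.1 = 1 ∧
      ∃ m : ℤ, M / 4 ≤ (m : ℝ) ∧ 0 < m ∧ m ^ 2 ∣ t.2.1 ^ 2 - 4 * t.1 * t.2.2 := by
  classical
  have hT : 16 ≤ T := by nlinarith
  have hMM : M ≤ M ^ 2 := by nlinarith
  have hex : ∀ p u m : ℕ, ∃ c0 : ℕ, p.Coprime (m ^ 2) → m % 2 = 1 →
      c0 < 4 * m ^ 2 ∧ c0 % 4 = 2 ∧ p * c0 ≡ u ^ 2 [MOD m ^ 2] := by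
    intro p u m
    by_cases h : p.Coprime (m ^ 2) ∧ m % 2 = 1
    · obtain ⟨c, hc⟩ := lowc_c0 p u m h.1 h.2
      exact ⟨c, fun _ _ => hc⟩
    · exact ⟨0, fun h1 h2 => absurd ⟨h1, h2⟩ h⟩
  choose c0 hc0 using hex
  obtain ⟨S, hS⟩ : ∃ S : Finset (ℕ × ℕ × ℕ × ℕ), S = lowPT T ×ˢ (Finset.Icc 1 ⌊T / 4⌋₊ ×ˢ
    (lowJM M ×ˢ Finset.range ⌊T / (4 * M ^ 2)⌋₊)) := ⟨_, rfl⟩
  obtain ⟨g, hg⟩ : ∃ g : ℕ × ℕ × ℕ × ℕ → ℕ, ∀ p u j k, g (p, u, j, k) =
    c0 p u (2 * j + 1) + 4 * (2 * j + 1) ^ 2 * k :=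
    ⟨fun s => c0 s.1 s.2.1 (2 * s.2.2.1 + 1) + 4 * (2 * s.2.2.1 + 1) ^ 2 * s.2.2.2,
      fun _ _ _ _ => rfl⟩
  obtain ⟨f, hf⟩ : ∃ f : ℕ × ℕ × ℕ × ℕ → ℤ × ℤ × ℤ, ∀ p u j k, f (p, u, j, k) =
    ((p : ℤ), 2 * (u : ℤ), (g (p, u, j, k) : ℤ)) :=
    ⟨fun s => ((s.1 : ℤ), 2 * (s.2.1 : ℤ), (g s : ℤ)), fun _ _ _ _ => rfl⟩
  have key : ∀ p u j k, (p, u, j, k) ∈ S → p.Prime ∧ T / 2 < p ∧ (p : ℝ) ≤ T ∧ p % 2 = 1 ∧
      1 ≤ u ∧ (u : ℝ) ≤ T / 4 ∧ M / 4 ≤ ((2 * j + 1 : ℕ) : ℝ) ∧ ((2 * j + 1 : ℕ) : ℝ) ≤ M ∧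
      Nat.Coprime p (2 * u) ∧ (g (p, u, j, k) : ℝ) ≤ T ∧ g (p, u, j, k) % 4 = 2 ∧
      p * g (p, u, j, k) ≡ u ^ 2 [MOD (2 * j + 1) ^ 2] := by
    intro p u j k hs
    rw [hS, Finset.mem_product, Finset.mem_product, Finset.mem_product] at hs
    obtain ⟨h1, h2, h3, h4⟩ := hs
    simp only at h1 h2 h3 h4
    obtain ⟨hp, hp1, hp2⟩ := low_mem_PT (by linarith) h1
    rw [Finset.mem_Icc] at h2
    rw [Finset.mem_range] at h4
    have hu : (u : ℝ) ≤ T / 4 := (Nat.le_floor_iff (by linarith)).1 h2.2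
    obtain ⟨hj1, hj2⟩ := low_mem_JM hM h3
    have hpodd : p % 2 = 1 := by
      rcases hp.eq_two_or_odd with h | h
      · rw [h] at hp1
        push_cast at hp1
        linarith
      · exact h
    have hcop : Nat.Coprime p (2 * u) := by
      refine Nat.coprime_of_lt_prime (by omega) ?_ hp
      have : ((2 * u : ℕ) : ℝ) < p := by
        push_cast
        linarith
      exact_mod_cast this
    have hcopm : Nat.Coprime p ((2 * j + 1) ^ 2) := by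
      apply Nat.Coprime.pow_right
      refine Nat.coprime_of_lt_prime (by omega) ?_ hp
      have : ((2 * j + 1 : ℕ) : ℝ) < p := by
        linarith
      exact_mod_cast this
    obtain ⟨hc1, hc2, hc3⟩ := hc0 p u (2 * j + 1) hcopm (by omega)
    refine ⟨hp, hp1, hp2, hpodd, h2.1, hu, hj1, hj2, hcop, ?_, ?_, ?_⟩
    · have h5 : g (p, u, j, k) ≤ 4 * (2 * j + 1) ^ 2 * ⌊T / (4 * M ^ 2)⌋₊ := by
        rw [hg]
        calc c0 p u (2 * j + 1) + 4 * (2 * j + 1) ^ 2 * k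
            ≤ 4 * (2 * j + 1) ^ 2 + 4 * (2 * j + 1) ^ 2 * k := by omega
          _ = 4 * (2 * j + 1) ^ 2 * (k + 1) := by ring
          _ ≤ _ := Nat.mul_le_mul_left _ h4
      have h6 : (g (p, u, j, k) : ℝ) ≤
          4 * ((2 * j + 1 : ℕ) : ℝ) ^ 2 * (⌊T / (4 * M ^ 2)⌋₊ : ℝ) := by
        exact_mod_cast h5
      have h7 : (⌊T / (4 * M ^ 2)⌋₊ : ℝ) ≤ T / (4 * M ^ 2) := Nat.floor_le (by positivity)
      have h8 : ((2 * j + 1 : ℕ) : ℝ) ^ 2 ≤ M ^ 2 := by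
        apply pow_le_pow_left₀ (by positivity) hj2
      calc (g (p, u, j, k) : ℝ) ≤ 4 * ((2 * j + 1 : ℕ) : ℝ) ^ 2 * (⌊T / (4 * M ^ 2)⌋₊ : ℝ) := h6
        _ ≤ 4 * M ^ 2 * (T / (4 * M ^ 2)) := by
          apply mul_le_mul (by linarith) h7 (by positivity) (by positivity)
        _ = T := by
          field_simp
    · rw [hg, Nat.add_mod, hc2, mul_assoc, Nat.mul_mod_right]
    · rw [hg, mul_add]
      have h9 : p * (4 * (2 * j + 1) ^ 2 * k) ≡ 0 [MOD (2 * j + 1) ^ 2] := by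
        rw [Nat.modEq_zero_iff_dvd]
        exact ⟨p * 4 * k, by ring⟩
      exact (Nat.ModEq.add hc3 h9)
  have hdvd : ∀ p u j k, (p, u, j, k) ∈ S →
      ((2 * j + 1 : ℕ) : ℤ) ^ 2 ∣ (2 * (u : ℤ)) ^ 2 - 4 * (p : ℤ) * (g (p, u, j, k) : ℤ) := by
    intro p u j k hs
    obtain ⟨-, -, -, -, -, -, -, -, -, -, -, h⟩ := key p u j k hs
    rw [Nat.modEq_iff_dvd] at h
    push_cast at h
    obtain ⟨w, hw⟩ := h
    refine ⟨4 * w, ?_⟩
    push_cast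
    linear_combination 4 * hw
  have hdelta : ∀ p u j k, (p, u, j, k) ∈ S →
      (2 * (u : ℤ)) ^ 2 - 4 * (p : ℤ) * (g (p, u, j, k) : ℤ) ≠ 0 := by
    intro p u j k hs h0
    obtain ⟨-, -, -, hpo, -, -, -, -, -, -, hg4, -⟩ := key p u j k hs
    have h1 : u ^ 2 = p * g (p, u, j, k) := by
      have : (u : ℤ) ^ 2 = p * g (p, u, j, k) := by linarith
      exact_mod_cast this
    have h2 : (p * g (p, u, j, k)) % 4 = 2 := by
      rw [Nat.mul_mod, hg4]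
      have : p % 4 = 1 ∨ p % 4 = 3 := by omega
      rcases this with h | h <;> simp [h]
    have h3 : u ^ 2 % 4 = 0 ∨ u ^ 2 % 4 = 1 := by
      rw [Nat.pow_mod]
      have : u % 4 < 4 := Nat.mod_lt _ (by norm_num)
      interval_cases (u % 4) <;> simp
    rw [h1] at h3
    omega
  have hbd : ∀ p u j k, (p, u, j, k) ∈ S →
      ((((2 * (u : ℤ)) ^ 2 - 4 * (p : ℤ) * (g (p, u, j, k) : ℤ)).natAbs : ℕ) : ℝ) ≤
        4 * T ^ 2 := by
    intro p u j k hs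
    obtain ⟨-, hp1, hp2, -, hu1, hu2, -, -, -, hg1, -, -⟩ := key p u j k hs
    rw [Nat.cast_natAbs]
    push_cast
    rw [abs_le]
    have hu0 : (0 : ℝ) ≤ u := Nat.cast_nonneg _
    have hp0 : (0 : ℝ) ≤ p := Nat.cast_nonneg _
    have hg0 : (0 : ℝ) ≤ g (p, u, j, k) := Nat.cast_nonneg _
    have h1 : (p : ℝ) * g (p, u, j, k) ≤ T * T := mul_le_mul hp2 hg1 hg0 (by linarith)
    have h2 : (0 : ℝ) ≤ (p : ℝ) * g (p, u, j, k) := by positivity
    constructor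
    · nlinarith
    · nlinarith
  refine ⟨S.image f, ?_, ?_⟩
  · have hcard : S.card = (lowPT T).card * (⌊T / 4⌋₊ * ((lowJM M).card * ⌊T / (4 * M ^ 2)⌋₊)) := by
      rw [hS, Finset.card_product, Finset.card_product, Finset.card_product, Nat.card_Icc,
        Finset.card_range]
      simp
    rw [← hcard]
    apply Finset.card_le_mul_card_image
    intro a ha
    rw [Finset.mem_image] at ha
    obtain ⟨⟨p, u, j, k⟩, hs, rfl⟩ := ha
    refine le_trans ?_ (hD ((2 * (u : ℤ)) ^ 2 - 4 * (p : ℤ) * (g (p, u, j, k) : ℤ)).natAbs ?_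
      (hbd p u j k hs))
    · apply Finset.card_le_card_of_injOn (fun s => 2 * s.2.2.1 + 1)
      · rintro ⟨p', u', j', k'⟩ hs'
        rw [Finset.mem_coe, Finset.mem_filter] at hs'
        obtain ⟨hs1, hs2⟩ := hs'
        rw [hf, hf] at hs2
        simp only [Prod.mk.injEq] at hs2
        obtain ⟨e1, e2, e3⟩ := hs2
        have hd := hdvd p' u' j' k' hs1
        rw [e1, e2, e3] at hd
        rw [Finset.mem_coe, Nat.mem_divisors]
        refine ⟨?_, ?_⟩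
        · rw [← Int.natCast_dvd]
          exact dvd_trans (Dvd.intro_left _ (by ring_nf)) hd
        · rw [Ne, Int.natAbs_eq_zero]
          exact hdelta p u j k hs
      · rintro ⟨p1, u1, j1, k1⟩ h1 ⟨p2, u2, j2, k2⟩ h2 h12
        rw [Finset.mem_coe, Finset.mem_filter] at h1 h2
        have e := h1.2.trans h2.2.symm
        rw [hf, hf] at e
        simp only [Prod.mk.injEq] at e
        obtain ⟨e1, e2, e3⟩ := e
        simp only at h12
        have hj : j1 = j2 := by omega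
        have hp : p1 = p2 := by exact_mod_cast e1
        have hu : u1 = u2 := by
          have : (u1 : ℤ) = u2 := by linarith
          exact_mod_cast this
        subst hj hp hu
        rw [hg, hg] at e3
        have e4 : c0 p1 u1 (2 * j1 + 1) + 4 * (2 * j1 + 1) ^ 2 * k1 =
            c0 p1 u1 (2 * j1 + 1) + 4 * (2 * j1 + 1) ^ 2 * k2 := by exact_mod_cast e3
        have e5 := Nat.add_left_cancel e4
        have e6 : k1 = k2 := Nat.eq_of_mul_eq_mul_left (by positivity) e5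
        rw [e6]
    · rw [Ne, Int.natAbs_eq_zero]
      exact hdelta p u j k hs
  · intro t ht
    rw [Finset.mem_image] at ht
    obtain ⟨⟨p, u, j, k⟩, hs, rfl⟩ := ht
    rw [hf]
    obtain ⟨hp, hp1, hp2, hpo, hu1, hu2, hj1, hj2, hcop, hg1, hg4, -⟩ := key p u j k hs
    simp only
    refine ⟨by omega, by omega, by omega, ?_, ?_, ?_, ?_, ?_,
      ((2 * j + 1 : ℕ) : ℤ), ?_, by positivity, hdvd p u j k hs⟩
    · push_cast
      linarith
    · exact_mod_cast hp2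
    · push_cast
      rw [abs_of_nonneg (by positivity)]
      linarith
    · push_cast
      rw [abs_of_nonneg (by positivity)]
      exact hg1
    · have h1 : (2 * (u : ℤ)) = ((2 * u : ℕ) : ℤ) := by push_cast; rfl
      rw [h1, Int.gcd_natCast_natCast]
      exact hcop
    · exact_mod_cast hj1

theorem t_LOWC : S_LOWC := by
  intro ε hε
  obtain ⟨C, hC, hdiv⟩ := H353.divisor_bound_real (ε / 4) (by linarith)
  obtain ⟨T0, hT0, hθ⟩ := lowc_theta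
  have hy : (0 : ℝ) < (4 : ℝ) ^ (ε / 4) := by positivity
  set y : ℝ := (4 : ℝ) ^ (ε / 4) with hyd
  refine ⟨min (T0⁻¹) (ε / (4096 * C * y)), lt_min (by positivity) (by positivity),
    fun T M hT hM hTM => ?_⟩
  have hcT : T0 ≤ T := by
    have h1 : T0 ≤ (min (T0⁻¹) (ε / (4096 * C * y)))⁻¹ := by
      rw [le_inv_comm₀ (by linarith) (lt_min (by positivity) (by positivity))]
      exact min_le_left _ _
    linarith
  have hT16 : 16 ≤ T := by nlinarith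
  have hTpos : 0 < T := by linarith
  have hx : 0 < T ^ (ε / 2) := by positivity
  obtain ⟨x, hxd⟩ : ∃ x : ℝ, x = T ^ (ε / 2) := ⟨_, rfl⟩
  rw [← hxd] at hx
  have hpow : (4 * T ^ 2 : ℝ) ^ (ε / 4) = y * x := by
    rw [Real.mul_rpow (by norm_num) (by positivity), hyd, hxd, ← Real.rpow_natCast,
      ← Real.rpow_mul hTpos.le]
    congr 2
    push_cast
    ring
  obtain ⟨E, hE1, hE2⟩ := lowc_family T M hM hTM ⌊C * (y * x)⌋₊ (by
    intro n hn hnT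
    apply Nat.le_floor
    refine le_trans (hdiv n hn) ?_
    rw [← hpow]
    apply mul_le_mul_of_nonneg_left _ hC.le
    exact Real.rpow_le_rpow (Nat.cast_nonneg _) hnT (by linarith))
  refine ⟨E, ?_, hE2⟩
  have h1 : T / 4 ≤ ((lowPT T).card : ℝ) * (x / (ε / 2)) := by
    have h2 := hθ T hcT
    have h3 := low_card_PT (T := T) (by linarith)
    have h4 : Real.log T ≤ T ^ (ε / 2) / (ε / 2) := Real.log_le_rpow_div hTpos.le (by linarith)
    rw [← hxd] at h4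
    have h5 : ((lowPT T).card : ℝ) * Real.log T ≤ ((lowPT T).card : ℝ) * (x / (ε / 2)) :=
      mul_le_mul_of_nonneg_left h4 (Nat.cast_nonneg _)
    linarith
  have h1' : ε * T / (8 * x) ≤ ((lowPT T).card : ℝ) := by
    rw [div_le_iff₀ (by positivity)]
    have h2 : ((lowPT T).card : ℝ) * (x / (ε / 2)) * ε = ((lowPT T).card : ℝ) * (2 * x) := by
      field_simp
    nlinarith
  have h2 : T / 8 ≤ (⌊T / 4⌋₊ : ℝ) := by
    have := Nat.lt_floor_add_one (T / 4)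
    linarith
  have h3 : M / 8 ≤ ((lowJM M).card : ℝ) := low_card_JM M
  have h4 : T / (8 * M ^ 2) ≤ (⌊T / (4 * M ^ 2)⌋₊ : ℝ) := by
    have h5 := Nat.lt_floor_add_one (T / (4 * M ^ 2))
    have h6 : T / (8 * M ^ 2) = T / (4 * M ^ 2) / 2 := by
      field_simp
      norm_num
    have h7 : 4 ≤ T / (4 * M ^ 2) := by
      rw [le_div_iff₀ (by positivity)]
      linarith
    rw [h6]
    linarith
  have h5 : ε * T / (8 * x) * (T / 8 * (M / 8 * (T / (8 * M ^ 2)))) ≤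
      ((lowPT T).card : ℝ) * ((⌊T / 4⌋₊ : ℝ) * (((lowJM M).card : ℝ) * (⌊T / (4 * M ^ 2)⌋₊ : ℝ))) := by
    apply mul_le_mul h1' _ (by positivity) (by positivity)
    apply mul_le_mul h2 _ (by positivity) (by positivity)
    apply mul_le_mul h3 h4 (by positivity) (by positivity)
  have h6 : ((lowPT T).card : ℝ) * ((⌊T / 4⌋₊ : ℝ) * (((lowJM M).card : ℝ) * (⌊T / (4 * M ^ 2)⌋₊ : ℝ)))
      ≤ (⌊C * (y * x)⌋₊ : ℝ) * (E.card : ℝ) := by
    exact_mod_cast hE1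
  have h7 : (⌊C * (y * x)⌋₊ : ℝ) ≤ C * (y * x) := Nat.floor_le (by positivity)
  have h8 : (⌊C * (y * x)⌋₊ : ℝ) * (E.card : ℝ) ≤ C * (y * x) * (E.card : ℝ) :=
    mul_le_mul_of_nonneg_right h7 (Nat.cast_nonneg _)
  have h9 := le_trans h5 (le_trans h6 h8)
  have h10 : T ^ (3 - ε) = T ^ 3 / (x * x) := by
    rw [Real.rpow_sub hTpos, hxd, ← Real.rpow_add hTpos]
    congr 1
    · norm_cast
    · congr 1
      ring
  rw [h10]
  have h11 : min (T0⁻¹) (ε / (4096 * C * y)) * (T ^ 3 / (x * x)) / M ≤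
      ε / (4096 * C * y) * (T ^ 3 / (x * x)) / M := by
    apply div_le_div_of_nonneg_right _ (by linarith)
    exact mul_le_mul_of_nonneg_right (min_le_right _ _) (by positivity)
  refine le_trans h11 ?_
  have hM0 : 0 < M := by linarith
  have h12 : ε / (4096 * C * y) * (T ^ 3 / (x * x)) / M =
      ε * T / (8 * x) * (T / 8 * (M / 8 * (T / (8 * M ^ 2)))) / (C * (y * x)) := by
    field_simp
    norm_num
  rw [h12, div_le_iff₀ (by positivity)]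
  linarith

end Pool.Agent.R365.QP
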