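import Pool.Agent.R365.QP.Low

/-! The upper bound for the number of points of degree two. -/

set_option autoImplicit false

namespace Pool.Agent.R365.QP

open NumberField IsDedekindDomain Finset Pool.Agent.H691R3 Pool.Agent.W223.AK
open Pool.Agent.W222.UABC

theorem quad_up {B : ℝ} (hB : 1 ≤ B) (E : Finset (AlgebraicClosure ℚ))
    (hE : ∀ x ∈ E, Quad2 B x) : (E.card : ℝ) ≤ 13718 * B ^ 6 := by
  classical
  have hB0 : 0 < B := by linarith
  have hlB : 0 ≤ Real.log B := Real.log_nonneg hB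
  obtain ⟨X, hX⟩ : ∃ X : ℝ, X = 2 * Real.log B := ⟨_, rfl⟩
  have hX0 : 0 ≤ X := by rw [hX]; positivity
  have hex : ∀ x : AlgebraicClosure ℚ, ∃ p : ℤ × ℤ × ℤ, x ∈ E → (p.1 ≠ 0 ∧
      |(p.1 : ℝ)| ≤ 9 * Real.exp X ∧ |(p.2.1 : ℝ)| ≤ 9 * Real.exp X ∧
      |(p.2.2 : ℝ)| ≤ 9 * Real.exp X) ∧ x ≠ 1 ∧
      (p.1 : AlgebraicClosure ℚ) * (x / (1 - x)) ^ 2 + p.2.1 * (x / (1 - x)) + p.2.2 = 0 := by
    intro x
    by_cases hx : x ∈ E
    · obtain ⟨K, hnf, t, htx, hK, hirr, hh⟩ := hE x hx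
      have ht0 : t ≠ 0 := fun h => hirr 0 (by rw [h, map_zero])
      have ht1 : t ≠ 1 := fun h => hirr 1 (by rw [h, map_one])
      obtain ⟨hPt, hht, -⟩ := point_of ht0 ht1
      obtain ⟨A, B', C, h1, h2, h3, h4, h5, h6⟩ := quad hK hPt
      rw [hK] at hht
      push_cast at hht
      have he : 9 * Real.exp (ht (t / (1 - t))) ≤ 9 * Real.exp X :=
        mul_le_mul_of_nonneg_left (Real.exp_le_exp.2 (by rw [hX]; linarith)) (by norm_num)
      refine ⟨(A, B', C), fun _ => ⟨⟨h1, h3.trans he, h4.trans he, h5.trans he⟩, ?_, ?_⟩⟩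
      · rw [← htx]
        intro h
        apply ht1
        exact_mod_cast h
      · rw [← htx]
        have := congrArg (algebraMap K (AlgebraicClosure ℚ)) h6
        simpa using this
    · exact ⟨(0, 0, 0), fun h => absurd h hx⟩
  choose Φ hΦ using hex
  have hfib : ∀ b ∈ E.image Φ, (E.filter fun x => Φ x = b).card ≤ 2 := by
    intro b hb
    obtain ⟨x0, hx0, rfl⟩ := Finset.mem_image.1 hb
    set f : Polynomial (AlgebraicClosure ℚ) :=
      Polynomial.C ((Φ x0).1 : AlgebraicClosure ℚ) * Polynomial.X ^ 2 +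
      Polynomial.C ((Φ x0).2.1 : AlgebraicClosure ℚ) * Polynomial.X +
      Polynomial.C ((Φ x0).2.2 : AlgebraicClosure ℚ) with hf
    have ha : ((Φ x0).1 : AlgebraicClosure ℚ) ≠ 0 := by
      exact_mod_cast (hΦ x0 hx0).1.1
    have hdeg : f.natDegree = 2 := Polynomial.natDegree_quadratic ha
    have hf0 : f ≠ 0 := by
      intro h
      rw [h] at hdeg
      simp at hdeg
    rw [← Finset.card_image_of_injOn (inj_div (E.filter fun x => Φ x = Φ x0) fun x hx =>
      (hΦ x (Finset.mem_filter.1 hx).1).2.1)]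
    have hsub : (E.filter fun x => Φ x = Φ x0).image
        (fun x : AlgebraicClosure ℚ => x / (1 - x)) ⊆ f.roots.toFinset := by
      intro y hy
      obtain ⟨x, hx, rfl⟩ := Finset.mem_image.1 hy
      obtain ⟨hxE, hxx⟩ := Finset.mem_filter.1 hx
      rw [Multiset.mem_toFinset, Polynomial.mem_roots hf0, Polynomial.IsRoot, hf]
      have := (hΦ x hxE).2.2
      rw [hxx] at this
      simpa using this
    refine (Finset.card_le_card hsub).trans ((Multiset.toFinset_card_le _).trans ?_)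
    rw [← hdeg]
    exact Polynomial.card_roots' _
  have h1 := Finset.card_le_mul_card_image E 2 hfib
  obtain ⟨N, hN⟩ : ∃ N : ℤ, N = ⌊9 * Real.exp X⌋ := ⟨_, rfl⟩
  have hexp : 1 ≤ Real.exp X := Real.one_le_exp hX0
  have hN0 : 0 ≤ N := by rw [hN]; exact Int.floor_nonneg.2 (by linarith)
  have hNle : (N : ℝ) ≤ 9 * Real.exp X := by rw [hN]; exact Int.floor_le _
  have hmem : ∀ z : ℤ, |(z : ℝ)| ≤ 9 * Real.exp X → z ∈ Finset.Icc (-N) N := by
    intro z hz
    have h2 := abs_le.1 hz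
    rw [Finset.mem_Icc]
    constructor
    · have h3 : -z ≤ ⌊9 * Real.exp X⌋ := by
        rw [Int.le_floor]
        push_cast
        linarith [h2.1]
      rw [hN]
      linarith
    · rw [hN, Int.le_floor]
      exact h2.2
  have himg : E.image Φ ⊆ Finset.Icc (-N) N ×ˢ (Finset.Icc (-N) N ×ˢ Finset.Icc (-N) N) := by
    intro p hp
    obtain ⟨x, hx, rfl⟩ := Finset.mem_image.1 hp
    obtain ⟨⟨-, k2, k3, k4⟩, -⟩ := hΦ x hx
    exact Finset.mem_product.2 ⟨hmem _ k2, Finset.mem_product.2 ⟨hmem _ k3, hmem _ k4⟩⟩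
  have h2 := Finset.card_le_card himg
  rw [Finset.card_product, Finset.card_product, Int.card_Icc] at h2
  have hc : (((N + 1 - -N).toNat : ℕ) : ℝ) ≤ 19 * Real.exp X := by
    have a1 : (((N + 1 - -N).toNat : ℕ) : ℤ) = N + 1 - -N := Int.toNat_of_nonneg (by omega)
    have a2 : (((N + 1 - -N).toNat : ℕ) : ℝ) = 2 * (N : ℝ) + 1 := by
      have a3 : ((((N + 1 - -N).toNat : ℕ) : ℤ) : ℝ) = ((N + 1 - -N : ℤ) : ℝ) := by rw [a1]
      rw [Int.cast_natCast] at a3
      rw [a3]
      push_cast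
      ring
    rw [a2]
    linarith
  have h3 : ((E.image Φ).card : ℝ) ≤ (19 * Real.exp X) ^ 3 := by
    calc ((E.image Φ).card : ℝ) ≤ ((N + 1 - -N).toNat : ℝ) *
          (((N + 1 - -N).toNat : ℝ) * ((N + 1 - -N).toNat : ℝ)) := by exact_mod_cast h2
      _ = ((N + 1 - -N).toNat : ℝ) ^ 3 := by ring
      _ ≤ (19 * Real.exp X) ^ 3 := by gcongr
  calc (E.card : ℝ) ≤ 2 * ((E.image Φ).card : ℝ) := by exact_mod_cast h1
    _ ≤ 2 * (19 * Real.exp X) ^ 3 := by gcongr
    _ = 13718 * B ^ 6 := by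
        have : Real.exp X = B ^ 2 := by
          have e : (2 : ℝ) * Real.log B = Real.log (B ^ 2) := by
            rw [Real.log_pow]
            norm_num
          rw [hX, e, Real.exp_log (by positivity)]
        rw [this]
        ring

end Pool.Agent.R365.QP
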