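import Pool.Agent.R365.QP.Stm2
import Pool.Agent.W222.UABC.Tri

/-! QP-RAD2: pairs of integers with small radicals. -/

set_option autoImplicit false

namespace Pool.Agent.R365.QP

open Pool.Agent.W222.UABC in
theorem t_RAD2 : S_RAD2 := by
  classical
  intro ε hε
  obtain ⟨D, hD, h⟩ := tri_card hε
  refine ⟨4 * D, by positivity, ?_⟩
  intro M R E hM hR hE
  have hM0 : 0 < M := by linarith
  have hR0 : 0 < R := by linarith
  set f : ℤ × ℤ → ℕ × ℕ × ℕ := fun t => (t.1.natAbs, t.2.natAbs, 1) with hf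
  have h1 : E.card ≤ 4 * (E.image f).card := by
    refine Finset.card_le_mul_card_image E 4 ?_
    rintro ⟨a, b, c⟩ _
    have hsub : E.filter (fun x => f x = (a, b, c)) ⊆
        (({(a : ℤ), -(a : ℤ)} : Finset ℤ) ×ˢ ({(b : ℤ), -(b : ℤ)} : Finset ℤ)) := by
      intro t ht
      rw [Finset.mem_filter] at ht
      have h2 := ht.2
      simp only [hf, Prod.mk.injEq] at h2
      rw [Finset.mem_product, Finset.mem_insert, Finset.mem_singleton, Finset.mem_insert,
        Finset.mem_singleton]
      constructor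
      · omega
      · omega
    refine (Finset.card_le_card hsub).trans ?_
    rw [Finset.card_product]
    exact Nat.mul_le_mul Finset.card_le_two Finset.card_le_two
  have h2 := h (Real.log M) (Real.log R) (E.image f) ?_
  · have h3 : (E.card : ℝ) ≤ 4 * ((E.image f).card : ℝ) := by exact_mod_cast h1
    have h4 : Real.exp (Real.log R + ε * Real.log M) = M ^ ε * R := by
      rw [Real.exp_add, Real.exp_log hR0, Real.rpow_def_of_pos hM0, mul_comm, mul_comm ε]
    rw [h4] at h2
    calc (E.card : ℝ) ≤ 4 * ((E.image f).card : ℝ) := h3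
      _ ≤ 4 * (D * (M ^ ε * R)) := by linarith
      _ = 4 * D * M ^ ε * R := by ring
  · intro q hq
    rw [Finset.mem_image] at hq
    obtain ⟨t, ht, rfl⟩ := hq
    obtain ⟨k1, k2, k3, k4, k5⟩ := hE t ht
    have hr1 : (0 : ℝ) < rad t.1 := by exact_mod_cast rd_pos t.1.natAbs
    have hr2 : (0 : ℝ) < rad t.2 := by exact_mod_cast rd_pos t.2.natAbs
    have hlM : 0 ≤ Real.log M := Real.log_nonneg hM
    have e1 : rd (f t).1 = rad t.1 := rfl
    have e2 : rd (f t).2.1 = rad t.2 := rfl
    have e3 : rd (f t).2.2 = 1 := by simp [hf, rd]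
    have n1 : ((f t).1 : ℝ) = |(t.1 : ℝ)| := by
      simp only [hf]
      rw [Nat.cast_natAbs, Int.cast_abs]
    have n2 : ((f t).2.1 : ℝ) = |(t.2 : ℝ)| := by
      simp only [hf]
      rw [Nat.cast_natAbs, Int.cast_abs]
    refine ⟨⟨Int.natAbs_ne_zero.2 k1, Int.natAbs_ne_zero.2 k2, one_ne_zero⟩, ?_, ?_, ?_, ?_⟩
    · rw [e1, e2, e3, Nat.cast_one, Real.log_one, add_zero, ← Real.log_mul hr1.ne' hr2.ne']
      exact Real.log_le_log (mul_pos hr1 hr2) k5
    · rw [n1]
      exact Real.log_le_log (abs_pos.2 (by exact_mod_cast k1)) k3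
    · rw [n2]
      exact Real.log_le_log (abs_pos.2 (by exact_mod_cast k2)) k4
    · simp only [hf, Nat.cast_one, Real.log_one]
      exact hlM

end Pool.Agent.R365.QP
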