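import Pool.Agent.R365.QP.Stm

/-! QP-ROOT (helper451) -/

set_option autoImplicit false

namespace Pool.Agent.R365.QP

open NumberField Polynomial

namespace Root

lemma int_no_root {a b c p d : ℤ} (ha : a % 2 = 1) (hb : b % 2 = 0) (hc : c % 4 = 2)
    (h : a * p ^ 2 + b * (p * d) + c * d ^ 2 = 0) : 2 ∣ p ∧ 2 ∣ d := by
  obtain ⟨b', rfl⟩ : ∃ b', b = 2 * b' := ⟨b / 2, by omega⟩
  obtain ⟨c', rfl⟩ : ∃ c', c = 4 * c' + 2 := ⟨c / 4, by omega⟩
  have hp : 2 ∣ p := by
    have h1 : (2 : ℤ) ∣ a * p ^ 2 :=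
      ⟨-(b' * (p * d) + (2 * c' + 1) * d ^ 2), by linarith⟩
    rcases Int.prime_two.dvd_or_dvd h1 with h2 | h2
    · omega
    · exact Int.prime_two.dvd_of_dvd_pow h2
  obtain ⟨p', rfl⟩ := hp
  refine ⟨⟨p', rfl⟩, ?_⟩
  have h1 : (2 : ℤ) ∣ d ^ 2 :=
    ⟨-(a * p' ^ 2 + b' * (p' * d) + c' * d ^ 2), by linarith⟩
  exact Int.prime_two.dvd_of_dvd_pow h1

lemma rat_no_root {a b c : ℤ} (ha : a % 2 = 1) (hb : b % 2 = 0) (hc : c % 4 = 2) (q : ℚ) :
    (a : ℚ) * q ^ 2 + (b : ℚ) * q + (c : ℚ) ≠ 0 := by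
  intro h
  have hd : (q.den : ℚ) ≠ 0 := by exact_mod_cast q.den_nz
  have hq : q = (q.num : ℚ) / (q.den : ℚ) := (Rat.num_div_den q).symm
  have h2 : (a : ℚ) * (q.num : ℚ) ^ 2 + (b : ℚ) * ((q.num : ℚ) * (q.den : ℚ))
      + (c : ℚ) * (q.den : ℚ) ^ 2 = 0 := by
    have h3 : (q.num : ℚ) = q * (q.den : ℚ) := by
      field_simp at hq
      linarith
    rw [h3]
    have h4 : (a : ℚ) * (q * (q.den : ℚ)) ^ 2 + (b : ℚ) * ((q * (q.den : ℚ)) * (q.den : ℚ))
      + (c : ℚ) * (q.den : ℚ) ^ 2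
        = ((a : ℚ) * q ^ 2 + (b : ℚ) * q + (c : ℚ)) * (q.den : ℚ) ^ 2 := by ring
    rw [h4, h, zero_mul]
  have h5 : a * q.num ^ 2 + b * (q.num * (q.den : ℤ)) + c * (q.den : ℤ) ^ 2 = 0 := by
    exact_mod_cast h2
  obtain ⟨h6, h7⟩ := int_no_root ha hb hc h5
  have h8 : Nat.Coprime q.num.natAbs q.den := q.reduced
  have h9 : 2 ∣ q.num.natAbs := by omega
  have h10 : 2 ∣ q.den := by omega
  have h11 := Nat.dvd_gcd h9 h10
  rw [h8] at h11
  omega

end Root

open Root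

theorem t_ROOT : S_ROOT := by
  intro a b c ha hb hc
  have ha0 : (a : ℚ) ≠ 0 := by
    have : a ≠ 0 := by rintro rfl; simp at ha
    exact_mod_cast this
  set f : ℚ[X] := C (a : ℚ) * X ^ 2 + C (b : ℚ) * X + C (c : ℚ) with hf
  have hdeg : f.natDegree = 2 := natDegree_quadratic ha0
  have hev : ∀ q : ℚ, ¬ f.IsRoot q := by
    intro q hq
    have h1 : f.eval q = 0 := hq
    rw [hf] at h1
    simp only [eval_add, eval_mul, eval_C, eval_pow, eval_X] at h1
    exact rat_no_root ha hb hc q h1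
  have hirr : Irreducible f :=
    irreducible_of_degree_le_three_of_not_isRoot (by rw [hdeg]; decide) hev
  obtain ⟨x, hx⟩ := IsAlgClosed.exists_aeval_eq_zero (AlgebraicClosure ℚ) f (by
    rw [degree_eq_natDegree hirr.ne_zero, hdeg]; norm_num)
  have hint : IsIntegral ℚ x := isAlgebraic_iff_isIntegral.mp ⟨f, hirr.ne_zero, hx⟩
  have hmin : (minpoly ℚ x).natDegree = 2 := by
    rw [← minpoly.eq_of_irreducible hirr hx, natDegree_mul_C, hdeg]
    exact inv_ne_zero (leadingCoeff_ne_zero.mpr hirr.ne_zero)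
  have hfin : FiniteDimensional ℚ (IntermediateField.adjoin ℚ {x}) :=
    IntermediateField.adjoin.finiteDimensional hint
  have hrank : Module.finrank ℚ (IntermediateField.adjoin ℚ {x}) = 2 := by
    rw [IntermediateField.adjoin.finrank hint, hmin]
  have hNF : NumberField (IntermediateField.adjoin ℚ {x}) := ⟨⟩
  set K := IntermediateField.adjoin ℚ {x} with hK
  set g : K := IntermediateField.AdjoinSimple.gen ℚ x with hg
  have hxf : (a : AlgebraicClosure ℚ) * x ^ 2 + (b : AlgebraicClosure ℚ) * x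
      + (c : AlgebraicClosure ℚ) = 0 := by
    rw [hf] at hx
    simpa using hx
  have hgf : (a : K) * g ^ 2 + (b : K) * g + (c : K) = 0 := by
    apply Subtype.ext
    have h1 : ((g : K) : AlgebraicClosure ℚ) = x := IntermediateField.AdjoinSimple.coe_gen ℚ x
    push_cast
    rw [h1]
    exact hxf
  have haK : (a : K) ≠ 0 := by
    have : a ≠ 0 := by rintro rfl; simp at ha
    exact_mod_cast this
  have hgq : ∀ q : ℚ, g ≠ algebraMap ℚ K q := by
    intro q hq
    rw [hq] at hgf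
    have h1 : algebraMap ℚ K ((a : ℚ) * q ^ 2 + (b : ℚ) * q + (c : ℚ)) = 0 := by
      rw [map_add, map_add, map_mul, map_mul, map_pow, map_intCast, map_intCast, map_intCast]
      exact hgf
    exact rat_no_root ha hb hc q ((map_eq_zero _).mp h1)
  refine ⟨K, hNF, g, -(b : K) / (a : K) - g, ?_, hgq, ?_, ?_, ?_⟩
  · exact hrank
  · intro q hq
    apply hgq (-(b : ℚ) / (a : ℚ) - q)
    rw [map_sub, map_div₀, map_neg, map_intCast, map_intCast, ← hq]
    ring
  · field_simp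
    ring
  · have h1 : (a : K) * (g * (-(b : K) / (a : K) - g)) = -((b : K) * g) - (a : K) * g ^ 2 := by
      field_simp
    rw [h1]
    linear_combination -hgf

end Pool.Agent.R365.QP
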