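import Mathlib

/-! Statements of the pieces of project QP (MP_6e34ef_nt, points of degree two). -/

set_option autoImplicit false

namespace Pool.Agent.R365.QP

open NumberField

/-- QP-DISC: the discriminant of a quadratic field and the square free part of `Δ` -/
def S_DISC : Prop :=
  ∀ (K : Type) [Field K] [NumberField K], Module.finrank ℚ K = 2 →
    ∀ (w : K) (Δ : ℤ), w ^ 2 = (Δ : K) → (∀ q : ℚ, w ≠ algebraMap ℚ K q) →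
      ∃ s m : ℤ, s ≠ 0 ∧ m ≠ 0 ∧ Δ = s * m ^ 2 ∧ |s| ≤ |NumberField.discr K| ∧
        |NumberField.discr K| ≤ 4 * |s|

/-- QP-COUNT: quadratic polynomials whose discriminant has a small square free part -/
def S_COUNT : Prop :=
  ∀ ε : ℝ, 0 < ε → ∃ D : ℝ, 0 < D ∧ ∀ (M Y : ℝ) (E : Finset (ℤ × ℤ × ℤ)), 1 ≤ M → 1 ≤ Y →
    (∀ t ∈ E, t.1 ≠ 0 ∧ t.2.2 ≠ 0 ∧ |(t.1 : ℝ)| ≤ M ∧ |(t.2.1 : ℝ)| ≤ M ∧ |(t.2.2 : ℝ)| ≤ M ∧
      ∃ s m : ℤ, s ≠ 0 ∧ t.2.1 ^ 2 - 4 * t.1 * t.2.2 = s * m ^ 2 ∧ |(s : ℝ)| ≤ Y) →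
    (E.card : ℝ) ≤ D * M ^ (2 + ε) * √Y

/-- QP-COPR: many coprime pairs -/
def S_COPR : Prop :=
  ∀ M : ℕ, 1 ≤ M → (M : ℝ) ^ 2 / 4 ≤
    (((Finset.Icc 1 M ×ˢ Finset.Icc 1 M).filter
      fun p : ℕ × ℕ => Nat.Coprime p.1 p.2 ∧ ¬ 2 ∣ p.2).card : ℝ)

/-- `log H(x_0, x_1, x_2)`, the same text as `Pool.Agent.W222.UABC.height` -/
noncomputable def height {K : Type} [Field K] [NumberField K] (x : Fin 3 → K) : ℝ :=
  (∑ w : InfinitePlace K, (w.mult : ℝ) * Real.log (max (w (x 0)) (max (w (x 1)) (w (x 2)))) +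
    ∑ᶠ v : IsDedekindDomain.HeightOneSpectrum (𝓞 K), Real.log
      (max (FinitePlace.mk v (x 0)) (max (FinitePlace.mk v (x 1)) (FinitePlace.mk v (x 2))))) /
    (Module.finrank ℚ K : ℝ)

/-- QP-HSUM: the heights of the two roots of `a T ^ 2 + b T + c` -/
def S_HSUM : Prop :=
  ∃ C : ℝ, ∀ (K : Type) [Field K] [NumberField K] (a b c : ℤ) (x y : K) (T : ℝ),
    a ≠ 0 → (a : K) * (x + y) = -(b : K) → (a : K) * (x * y) = (c : K) →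
    |(a : ℝ)| ≤ T → |(b : ℝ)| ≤ T → |(c : ℝ)| ≤ T →
    height ![x, 1 - x, -1] + height ![y, 1 - y, -1] ≤ Real.log T + C

/-- QP-ROOT: the roots of `a T ^ 2 + b T + c`, which is irreducible by Eisenstein's criterion at
two -/
def S_ROOT : Prop :=
  ∀ (a b c : ℤ), a % 2 = 1 → b % 2 = 0 → c % 4 = 2 →
    ∃ (K : IntermediateField ℚ (AlgebraicClosure ℚ)) (_ : NumberField K) (x y : K),
      Module.finrank ℚ K = 2 ∧ (∀ q : ℚ, x ≠ algebraMap ℚ K q) ∧ (∀ q : ℚ, y ≠ algebraMap ℚ K q) ∧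
        (a : K) * (x + y) = -(b : K) ∧ (a : K) * (x * y) = (c : K)

end Pool.Agent.R365.QP
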