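import Pool.Agent.W222.UABC.Final
import Pool.Agent.R365.QP.Stm

/-! Points of degree two over fields of small discriminant. -/

set_option autoImplicit false

namespace Pool.Agent.R365.QP

open NumberField IsDedekindDomain Finset Pool.Agent.H691R3 Pool.Agent.W223.AK Polynomial
open Pool.Agent.W222.UABC

/-- the quadratic polynomial of a point of a quadratic field -/
theorem quad {K : Type} [Field K] [NumberField K] (hK : Module.finrank ℚ K = 2) {t : K}
    (ht' : Pt t) : ∃ A B C : ℤ, A ≠ 0 ∧ C ≠ 0 ∧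
      |(A : ℝ)| ≤ 9 * Real.exp (ht t) ∧ |(B : ℝ)| ≤ 9 * Real.exp (ht t) ∧
      |(C : ℝ)| ≤ 9 * Real.exp (ht t) ∧ (A : K) * t ^ 2 + B * t + C = 0 := by
  obtain ⟨P, hP⟩ := exists_isP ∅ ht'
  obtain ⟨z, χ, h1, h2, h3, h4, h5, h6, h7⟩ := data ht' hP
  rw [hK] at h2 h7
  have hlen : Real.log (nn (P 1)) ≤ ht t + 2 * Real.log 2 := by
    rw [log_nn]
    have := len_le ht' hP 1
    rw [cS_empty, hK] at this
    push_cast at this
    linarith
  have hN0 : (0 : ℝ) < nn (P 1) := by exact_mod_cast nn_pos (P 1)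
  have hN : (nn (P 1) : ℝ) ≤ 4 * Real.exp (ht t) := by
    rw [← Real.exp_log hN0]
    refine (Real.exp_le_exp.2 hlen).trans (le_of_eq ?_)
    rw [Real.exp_add, two_mul, Real.exp_add, Real.exp_log (by norm_num)]
    ring
  -- the coefficients of `χ`
  obtain ⟨u, v, huv⟩ : ∃ u v : ℚ, χ = X ^ 2 + Polynomial.C u * X + Polynomial.C v := by
    refine ⟨χ.coeff 1, χ.coeff 0, ?_⟩
    have hc2 : χ.coeff 2 = 1 := by
      have := h1.coeff_natDegree
      rw [h2] at this
      exact this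
    ext k
    rcases k with _ | _ | _ | k
    · simp
    · simp
    · simp [hc2]
    · have : χ.coeff (k + 3) = 0 := by
        apply Polynomial.coeff_eq_zero_of_natDegree_lt
        omega
      simp [this]
  have hz0 : (z 0 : ℚ) = (nn (P 1) : ℚ) * v := by
    rw [h4 0, huv]
    simp
  have hz1 : (z 1 : ℚ) = (nn (P 1) : ℚ) * (1 + u + v) := by
    rw [h4 1, huv]
    simp
  have hroot : t ^ 2 + (u : K) * t + (v : K) = 0 := by
    rw [huv] at h3
    simpa [Polynomial.aeval_def] using h3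
  have hexp : 0 < Real.exp (ht t) := Real.exp_pos _
  have hb0 := h7 0
  have hb1 := h7 1
  norm_num at hb0 hb1
  refine ⟨(nn (P 1) : ℤ), z 1 - z 0 - nn (P 1), z 0, ?_, ?_, ?_, ?_, ?_, ?_⟩
  · exact_mod_cast (nn_pos (P 1)).ne'
  · intro h
    rw [h, abs_zero] at h5
    exact (nn_pos (P 0)).ne' (by exact_mod_cast h5.symm)
  · rw [Int.cast_natCast, abs_of_pos hN0]
    linarith
  · push_cast
    rw [abs_le] at hb0 hb1 ⊢
    constructor <;> linarith [hb0.1, hb0.2, hb1.1, hb1.2]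
  · linarith
  · have e0 : ((z 0 : ℤ) : K) = (nn (P 1) : K) * (v : K) := by exact_mod_cast congrArg (Rat.cast : ℚ → K) hz0
    have e1 : ((z 1 : ℤ) : K) = (nn (P 1) : K) * (1 + (u : K) + (v : K)) := by
      exact_mod_cast congrArg (Rat.cast : ℚ → K) hz1
    push_cast
    rw [e0, e1]
    linear_combination (nn (P 1) : K) * hroot

/-- the square free part of the discriminant, irrational points -/
theorem disc_irr (hD : S_DISC) {K : Type} [Field K] [NumberField K]
    (hK : Module.finrank ℚ K = 2) {t : K} (hirr : ∀ q : ℚ, t ≠ algebraMap ℚ K q) {A B C : ℤ}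
    (hA : A ≠ 0) (h : (A : K) * t ^ 2 + B * t + C = 0) :
    ∃ s m : ℤ, s ≠ 0 ∧ m ≠ 0 ∧ B ^ 2 - 4 * A * C = s * m ^ 2 ∧ |s| ≤ |NumberField.discr K| ∧
      |NumberField.discr K| ≤ 4 * |s| := by
  have hAK : (A : K) ≠ 0 := by exact_mod_cast hA
  obtain ⟨s, m, h1, h2, h3, h4, h5⟩ := hD K hK (2 * A * t + B) (B ^ 2 - 4 * A * C) (by
    push_cast
    linear_combination 4 * (A : K) * h) (fun q hq => by
      apply hirr ((q - B) / (2 * A))
      rw [map_div₀, map_sub, map_mul, eq_div_iff (by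
        rw [map_ofNat, map_intCast]
        exact mul_ne_zero two_ne_zero hAK), ← hq]
      simp only [map_ofNat, map_intCast]
      ring)
  exact ⟨s, m, h1, h2, h3, h4, h5⟩

/-- the square free part of the discriminant, all points -/
theorem disc_all (hD : S_DISC) {K : Type} [Field K] [NumberField K]
    (hK : Module.finrank ℚ K = 2) {t : K} {A B C : ℤ}
    (hA : A ≠ 0) (h : (A : K) * t ^ 2 + B * t + C = 0) :
    ∃ s m : ℤ, s ≠ 0 ∧ B ^ 2 - 4 * A * C = s * m ^ 2 ∧ |s| ≤ |NumberField.discr K| := by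
  by_cases hirr : ∀ q : ℚ, t ≠ algebraMap ℚ K q
  · obtain ⟨s, m, h1, -, h3, h4, -⟩ := disc_irr hD hK hirr hA h
    exact ⟨s, m, h1, h3, h4⟩
  · push Not at hirr
    obtain ⟨q, rfl⟩ := hirr
    have hq : (A : ℚ) * q ^ 2 + B * q + C = 0 := by
      apply (algebraMap ℚ K).injective
      rw [map_zero, ← h]
      simp
    have hw : (2 * A * q + B) ^ 2 = ((B ^ 2 - 4 * A * C : ℤ) : ℚ) := by
      push_cast
      linear_combination 4 * (A : ℚ) * hq
    have hint : IsIntegral ℤ (2 * A * q + B : ℚ) := by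
      apply IsIntegral.of_pow (n := 2) (by norm_num)
      rw [hw]
      exact isIntegral_algebraMap (R := ℤ) (A := ℚ) (x := B ^ 2 - 4 * A * C)
    obtain ⟨m, hm⟩ := IsIntegrallyClosed.isIntegral_iff.1 hint
    refine ⟨1, m, one_ne_zero, ?_, ?_⟩
    · rw [← hm] at hw
      have : ((m ^ 2 : ℤ) : ℚ) = ((B ^ 2 - 4 * A * C : ℤ) : ℚ) := by
        rw [← hw]
        simp
      have h2 : m ^ 2 = B ^ 2 - 4 * A * C := by exact_mod_cast this
      rw [← h2, one_mul]
    · rw [abs_one]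
      exact Int.one_le_abs (NumberField.discr_ne_zero K)

/-- the points of quadratic fields of small discriminant -/
theorem small (hD : S_DISC) (hC : S_COUNT) {ε : ℝ} (hε : 0 < ε) : ∃ D : ℝ, 0 < D ∧
    ∀ (X Z : ℝ) (E : Finset (AlgebraicClosure ℚ)), 0 ≤ X → 0 ≤ Z →
      (∀ x ∈ E, ∃ (K : IntermediateField ℚ (AlgebraicClosure ℚ)) (_ : NumberField K) (t : K),
        (t : AlgebraicClosure ℚ) = x ∧ Module.finrank ℚ K = 2 ∧ Pt t ∧ ht t ≤ X ∧
          Real.log |(NumberField.discr K : ℝ)| ≤ Z) →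
      (E.card : ℝ) ≤ D * Real.exp (2 * X + Z / 2 + ε * X) := by
  classical
  obtain ⟨D, hD0, hcount⟩ := hC ε hε
  refine ⟨2 * (D * (9 : ℝ) ^ (2 + ε)), by positivity, ?_⟩
  intro X Z E hX hZ hE
  have hex : ∀ x : AlgebraicClosure ℚ, ∃ p : ℤ × ℤ × ℤ, x ∈ E → p.1 ≠ 0 ∧ p.2.2 ≠ 0 ∧
      |(p.1 : ℝ)| ≤ 9 * Real.exp X ∧ |(p.2.1 : ℝ)| ≤ 9 * Real.exp X ∧
      |(p.2.2 : ℝ)| ≤ 9 * Real.exp X ∧
      (∃ s m : ℤ, s ≠ 0 ∧ p.2.1 ^ 2 - 4 * p.1 * p.2.2 = s * m ^ 2 ∧ |(s : ℝ)| ≤ Real.exp Z) ∧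
      (p.1 : AlgebraicClosure ℚ) * x ^ 2 + p.2.1 * x + p.2.2 = 0 := by
    intro x
    by_cases hx : x ∈ E
    · obtain ⟨K, hnf, t, htx, hK, hPt, hht, hd⟩ := hE x hx
      obtain ⟨A, B, C, h1, h2, h3, h4, h5, h6⟩ := quad hK hPt
      obtain ⟨s, m, h7, h8, h9⟩ := disc_all hD hK h1 h6
      have he : 9 * Real.exp (ht t) ≤ 9 * Real.exp X :=
        mul_le_mul_of_nonneg_left (Real.exp_le_exp.2 hht) (by norm_num)
      refine ⟨(A, B, C), fun _ => ⟨h1, h2, h3.trans he, h4.trans he, h5.trans he,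
        ⟨s, m, h7, h8, ?_⟩, ?_⟩⟩
      · have h10 : |(s : ℝ)| ≤ |(NumberField.discr K : ℝ)| := by exact_mod_cast h9
        have h11 : (0 : ℝ) < |(NumberField.discr K : ℝ)| := by
          have := one_le_disc (K := K)
          linarith
        refine h10.trans ?_
        rw [← Real.exp_log h11]
        exact Real.exp_le_exp.2 hd
      · rw [← htx]
        have := congrArg (algebraMap K (AlgebraicClosure ℚ)) h6
        simpa using this
    · exact ⟨(0, 0, 0), fun h => absurd h hx⟩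
  choose Φ hΦ using hex
  have hfib : ∀ b ∈ E.image Φ, (E.filter fun x => Φ x = b).card ≤ 2 := by
    intro b hb
    obtain ⟨x0, hx0, rfl⟩ := Finset.mem_image.1 hb
    set f : Polynomial (AlgebraicClosure ℚ) :=
      Polynomial.C ((Φ x0).1 : AlgebraicClosure ℚ) * Polynomial.X ^ 2 +
      Polynomial.C ((Φ x0).2.1 : AlgebraicClosure ℚ) * Polynomial.X +
      Polynomial.C ((Φ x0).2.2 : AlgebraicClosure ℚ) with hf
    have ha : ((Φ x0).1 : AlgebraicClosure ℚ) ≠ 0 := by
      exact_mod_cast (hΦ x0 hx0).1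
    have hdeg : f.natDegree = 2 := Polynomial.natDegree_quadratic ha
    have hf0 : f ≠ 0 := by
      intro h
      rw [h] at hdeg
      simp at hdeg
    have hsub : (E.filter fun x => Φ x = Φ x0) ⊆ f.roots.toFinset := by
      intro x hx
      obtain ⟨hxE, hxx⟩ := Finset.mem_filter.1 hx
      rw [Multiset.mem_toFinset, Polynomial.mem_roots hf0, Polynomial.IsRoot, hf]
      have := (hΦ x hxE).2.2.2.2.2.2
      rw [hxx] at this
      simpa using this
    refine (Finset.card_le_card hsub).trans ((Multiset.toFinset_card_le _).trans ?_)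
    rw [← hdeg]
    exact Polynomial.card_roots' _
  have h1 := Finset.card_le_mul_card_image E 2 hfib
  have hM : (1 : ℝ) ≤ 9 * Real.exp X := by
    have := Real.one_le_exp hX
    linarith
  have h2 := hcount (9 * Real.exp X) (Real.exp Z) (E.image Φ) hM (Real.one_le_exp hZ) (by
    intro p hp
    obtain ⟨x, hx, rfl⟩ := Finset.mem_image.1 hp
    obtain ⟨k1, k2, k3, k4, k5, k6, -⟩ := hΦ x hx
    exact ⟨k1, k2, k3, k4, k5, k6⟩)
  calc (E.card : ℝ) ≤ 2 * ((E.image Φ).card : ℝ) := by exact_mod_cast h1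
    _ ≤ 2 * (D * (9 * Real.exp X) ^ (2 + ε) * √(Real.exp Z)) := by gcongr
    _ = 2 * (D * (9 : ℝ) ^ (2 + ε)) * Real.exp (2 * X + Z / 2 + ε * X) := by
        rw [Real.mul_rpow (by norm_num) (Real.exp_pos _).le, ← Real.exp_mul, Real.sqrt_eq_rpow,
          ← Real.exp_mul]
        have : Real.exp (2 * X + Z / 2 + ε * X) =
            Real.exp (X * (2 + ε)) * Real.exp (Z * (1 / 2)) := by
          rw [← Real.exp_add]
          congr 1
          ring
        rw [this]
        ring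

end Pool.Agent.R365.QP
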