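import Pool.Agent.R365.QP.Stm2
import Pool.Agent.H510R2.Div

set_option autoImplicit false

open Finset

namespace Pool.Agent.R365.QP

namespace PSQ

/-- integers in one class mod `q` at pairwise distance at most `L` -/
lemma card_class (q : ℕ) (hq : 0 < q) (L : ℝ) (S : Finset ℤ)
    (hc : ∀ a ∈ S, ∀ b ∈ S, (q : ℤ) ∣ a - b)
    (hd : ∀ a ∈ S, ∀ b ∈ S, |((a - b : ℤ) : ℝ)| ≤ L) :
    S.card ≤ ⌊L / q⌋₊ + 1 := by
  rcases S.eq_empty_or_nonempty with h | h
  · simp [h]
  · set m := S.min' h with hm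
    have hmem : m ∈ S := S.min'_mem h
    have hqz : (0:ℤ) < q := by exact_mod_cast hq
    have hqr : (0:ℝ) < q := by exact_mod_cast hq
    have hkey : ∀ b ∈ S, ∃ k : ℕ, b - m = q * (k : ℤ) := by
      intro b hb
      obtain ⟨k, hk⟩ := hc b hb m hmem
      have h0 : 0 ≤ b - m := sub_nonneg.mpr (S.min'_le b hb)
      have hk0 : 0 ≤ k := by
        rw [hk] at h0
        exact nonneg_of_mul_nonneg_right h0 hqz
      refine ⟨k.toNat, ?_⟩
      rw [Int.toNat_of_nonneg hk0, hk]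
    have : S.card ≤ (range (⌊L / q⌋₊ + 1)).card := by
      apply Finset.card_le_card_of_injOn (fun b => ((b - m) / q).toNat)
      · intro b hb
        have hb' : b ∈ S := hb
        obtain ⟨k, hk⟩ := hkey b hb'
        have h1 : ((b - m) / q).toNat = k := by
          rw [hk, Int.mul_ediv_cancel_left _ hqz.ne']
          simp
        have h2 := hd b hb' m hmem
        rw [hk] at h2
        push_cast at h2
        rw [abs_of_nonneg (by positivity)] at h2
        have h3 : (k : ℝ) ≤ L / q := by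
          rw [le_div_iff₀ hqr]; linarith
        have h4 := Nat.le_floor h3
        simp only [coe_range, Set.mem_Iio]
        rw [h1]; omega
      · intro b hb b' hb' he
        obtain ⟨k, hk⟩ := hkey b hb
        obtain ⟨k', hk'⟩ := hkey b' hb'
        have h1 : ((b - m) / q).toNat = k := by
          rw [hk, Int.mul_ediv_cancel_left _ hqz.ne']
          simp
        have h1' : ((b' - m) / q).toNat = k' := by
          rw [hk', Int.mul_ediv_cancel_left _ hqz.ne']
          simp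
        have he' : ((b - m) / q).toNat = ((b' - m) / q).toNat := he
        rw [h1, h1'] at he'
        rw [he'] at hk
        linarith
    simpa using this

lemma card_S (m : ℕ) (hm : 0 < m) (L : ℝ) (hL : 0 ≤ L) (S : Finset ℤ)
    (hg : ∀ b ∈ S, Int.gcd b m = 1) (hs : ∀ a ∈ S, ∀ b ∈ S, (m:ℤ)^2 ∣ a^2 - b^2)
    (hd : ∀ a ∈ S, ∀ b ∈ S, |((a - b : ℤ) : ℝ)| ≤ L) :
    (S.card : ℝ) ≤ ((m^2).divisors.card : ℝ)^2 * (2 * L / (m:ℝ)^2 + 1) := by
  rcases S.eq_empty_or_nonempty with h | ⟨b0, hb0⟩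
  · rw [h]; simp only [card_empty, CharP.cast_eq_zero]; positivity
  · have hmr : (0:ℝ) < (m:ℝ)^2 := by positivity
    have key : S.card ≤ (⌊2 * L / (m:ℝ)^2⌋₊ + 1) * ((m^2).divisors ×ˢ (m^2).divisors).card := by
      apply Finset.card_le_mul_card_image_of_maps_to
        (f := fun b : ℤ => ((b - b0).natAbs.gcd (m^2), (b + b0).natAbs.gcd (m^2)))
      · intro b hb
        have : m^2 ≠ 0 := by positivity
        simp only [mem_product, Nat.mem_divisors]
        exact ⟨⟨Nat.gcd_dvd_right _ _, this⟩, ⟨Nat.gcd_dvd_right _ _, this⟩⟩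
      · rintro ⟨m1, m2⟩ _
        set S' := S.filter (fun b : ℤ =>
          ((b - b0).natAbs.gcd (m^2), (b + b0).natAbs.gcd (m^2)) = (m1, m2)) with hS'
        rcases S'.eq_empty_or_nonempty with h' | ⟨b1, hb1⟩
        · rw [h']; simp
        · have hmem : ∀ b ∈ S', b ∈ S ∧ (b - b0).natAbs.gcd (m^2) = m1 ∧
              (b + b0).natAbs.gcd (m^2) = m2 := by
            intro b hb
            rw [hS', mem_filter, Prod.mk.injEq] at hb
            exact hb
          obtain ⟨hb1S, e1, e2⟩ := hmem b1 hb1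
          have hm2 : 0 < m^2 := by positivity
          have hm1p : 0 < m1 := e1 ▸ Nat.gcd_pos_of_pos_right _ hm2
          have hm2p : 0 < m2 := e2 ▸ Nat.gcd_pos_of_pos_right _ hm2
          have hdvd : m^2 ∣ m1 * m2 := by
            have h3 : m^2 ∣ (b1 - b0).natAbs * (b1 + b0).natAbs := by
              rw [← Int.natAbs_mul]
              have h4 := hs b1 hb1S b0 hb0
              have e : b1^2 - b0^2 = (b1 - b0) * (b1 + b0) := by ring
              rw [e] at h4
              have h5 := Int.natAbs_dvd_natAbs.mpr h4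
              simpa [Int.natAbs_pow] using h5
            have h6 := Nat.dvd_gcd_mul_gcd_iff_dvd_mul.mpr h3
            rw [Nat.gcd_comm, e1, Nat.gcd_comm, e2] at h6
            exact h6
          -- classes
          have hcls : ∀ a ∈ S', ∀ b ∈ S', ((Nat.lcm m1 m2 : ℕ) : ℤ) ∣ a - b := by
            intro a ha b hb
            obtain ⟨_, f1, f2⟩ := hmem a ha
            obtain ⟨_, g1, g2⟩ := hmem b hb
            have k1 : (m1 : ℤ) ∣ a - b0 := by
              rw [Int.natCast_dvd, ← f1]; exact Nat.gcd_dvd_left _ _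
            have k2 : (m1 : ℤ) ∣ b - b0 := by
              rw [Int.natCast_dvd, ← g1]; exact Nat.gcd_dvd_left _ _
            have k3 : (m2 : ℤ) ∣ a + b0 := by
              rw [Int.natCast_dvd, ← f2]; exact Nat.gcd_dvd_left _ _
            have k4 : (m2 : ℤ) ∣ b + b0 := by
              rw [Int.natCast_dvd, ← g2]; exact Nat.gcd_dvd_left _ _
            have l1 : (m1 : ℤ) ∣ a - b := by
              have := dvd_sub k1 k2
              rwa [show a - b0 - (b - b0) = a - b by ring] at this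
            have l2 : (m2 : ℤ) ∣ a - b := by
              have := dvd_sub k3 k4
              rwa [show a + b0 - (b + b0) = a - b by ring] at this
            rw [Int.natCast_dvd] at l1 l2 ⊢
            exact Nat.lcm_dvd l1 l2
          have hq : 0 < Nat.lcm m1 m2 := Nat.lcm_pos hm1p hm2p
          have hd2 : Nat.gcd m1 m2 ∣ 2 := by
            have c1 : Nat.gcd m1 m2 ∣ (b1 - b0).natAbs :=
              (Nat.gcd_dvd_left _ _).trans (e1 ▸ Nat.gcd_dvd_left _ _)
            have c2 : Nat.gcd m1 m2 ∣ (b1 + b0).natAbs :=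
              (Nat.gcd_dvd_right _ _).trans (e2 ▸ Nat.gcd_dvd_left _ _)
            have c3 : Nat.gcd m1 m2 ∣ m^2 :=
              (Nat.gcd_dvd_left _ _).trans (e1 ▸ Nat.gcd_dvd_right _ _)
            have c4 : ((Nat.gcd m1 m2 : ℕ) : ℤ) ∣ 2 * b1 := by
              have := dvd_add (Int.natCast_dvd.mpr c1) (Int.natCast_dvd.mpr c2)
              rwa [show b1 - b0 + (b1 + b0) = 2 * b1 by ring] at this
            have c5 : Nat.gcd m1 m2 ∣ 2 * b1.natAbs := by
              have := Int.natCast_dvd.mp c4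
              rwa [Int.natAbs_mul] at this
            have c6 : Nat.Coprime b1.natAbs m := by
              have := hg b1 hb1S
              rw [Int.gcd, Int.natAbs_natCast] at this
              exact this
            have c7 : Nat.Coprime (Nat.gcd m1 m2) b1.natAbs :=
              Nat.Coprime.coprime_dvd_left c3 (c6.pow_right 2).symm
            exact c7.dvd_of_dvd_mul_right c5
          have hle : m^2 ≤ 2 * Nat.lcm m1 m2 := by
            have c1 := Nat.le_of_dvd (Nat.mul_pos hm1p hm2p) hdvd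
            rw [← Nat.gcd_mul_lcm m1 m2] at c1
            have c2 := Nat.le_of_dvd (by norm_num) hd2
            exact c1.trans (Nat.mul_le_mul_right _ c2)
          have hfin := card_class (Nat.lcm m1 m2) hq L S' hcls
            (fun a ha b hb => hd a (hmem a ha).1 b (hmem b hb).1)
          refine hfin.trans (Nat.add_le_add_right (Nat.floor_le_floor ?_) 1)
          have hqr : (0:ℝ) < (Nat.lcm m1 m2 : ℕ) := by exact_mod_cast hq
          rw [div_le_div_iff₀ hqr hmr]
          have hler : (m:ℝ)^2 ≤ 2 * (Nat.lcm m1 m2 : ℕ) := by exact_mod_cast hle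
          calc L * (m:ℝ)^2 ≤ L * (2 * (Nat.lcm m1 m2 : ℕ)) := mul_le_mul_of_nonneg_left hler hL
            _ = 2 * L * (Nat.lcm m1 m2 : ℕ) := by ring
    have keyr : (S.card : ℝ) ≤ ((⌊2 * L / (m:ℝ)^2⌋₊ : ℝ) + 1) *
        (((m^2).divisors.card : ℝ) * ((m^2).divisors.card : ℝ)) := by
      rw [card_product] at key
      exact_mod_cast key
    refine keyr.trans ?_
    have hfl : (⌊2 * L / (m:ℝ)^2⌋₊ : ℝ) ≤ 2 * L / (m:ℝ)^2 := Nat.floor_le (by positivity)
    calc ((⌊2 * L / (m:ℝ)^2⌋₊ : ℝ) + 1) * (((m^2).divisors.card : ℝ) * ((m^2).divisors.card : ℝ))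
        ≤ (2 * L / (m:ℝ)^2 + 1) * (((m^2).divisors.card : ℝ) * ((m^2).divisors.card : ℝ)) :=
          mul_le_mul_of_nonneg_right (by linarith) (by positivity)
      _ = _ := by ring

lemma card_fib (N : ℤ) (Y : ℝ) (hY : 0 ≤ Y) (g m : ℕ) (hg : 0 < g) (hm : 0 < m) (σ : Bool)
    (S : Finset ℤ)
    (h : ∀ β ∈ S, ∃ b s : ℤ, β = g * b ∧ N = (g:ℤ)^2 * (b^2 - s * (m:ℤ)^2) ∧ Int.gcd b m = 1 ∧
      |(s:ℝ)| ≤ Y ∧ (σ = true ↔ 0 ≤ b)) :
    (S.card : ℝ) ≤ ((m^2).divisors.card : ℝ)^2 * (2 * √(2*Y) / m + 1) := by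
  have hgz : (g:ℤ) ≠ 0 := by exact_mod_cast hg.ne'
  have hmr : (0:ℝ) < m := by exact_mod_cast hm
  set S2 := S.image (fun β => β / (g:ℤ)) with hS2
  have hcard : S2.card = S.card := by
    apply card_image_of_injOn
    intro x hx y hy hxy
    obtain ⟨b, _, hb, _⟩ := h x hx
    obtain ⟨b', _, hb', _⟩ := h y hy
    have hxy' : x / (g:ℤ) = y / (g:ℤ) := hxy
    rw [hb, hb', Int.mul_ediv_cancel_left _ hgz, Int.mul_ediv_cancel_left _ hgz] at hxy'
    rw [hb, hb', hxy']
  have hprop : ∀ b ∈ S2, ∃ s : ℤ, N = (g:ℤ)^2 * (b^2 - s * (m:ℤ)^2) ∧ Int.gcd b m = 1 ∧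
      |(s:ℝ)| ≤ Y ∧ (σ = true ↔ 0 ≤ b) := by
    intro b hb
    rw [hS2, mem_image] at hb
    obtain ⟨β, hβ, he⟩ := hb
    obtain ⟨b', s, h1, h2⟩ := h β hβ
    rw [h1, Int.mul_ediv_cancel_left _ hgz] at he
    exact ⟨s, he ▸ h2⟩
  have hdiff : ∀ a ∈ S2, ∀ b ∈ S2, ∃ s : ℤ, a^2 - b^2 = s * (m:ℤ)^2 ∧ |(s:ℝ)| ≤ 2 * Y := by
    intro a ha b hb
    obtain ⟨s, h1, _, h2, _⟩ := hprop a ha
    obtain ⟨s', h1', _, h2', _⟩ := hprop b hb
    refine ⟨s - s', ?_, ?_⟩
    · rw [h1] at h1'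
      have h3 := mul_left_cancel₀ (pow_ne_zero 2 hgz) h1'
      linarith
    · push_cast
      exact (abs_sub _ _).trans (by linarith)
  rw [← hcard]
  have := card_S m hm (√(2*Y) * m) (by positivity) S2 (fun b hb => by
      obtain ⟨_, _, h1, _⟩ := hprop b hb
      exact h1) (fun a ha b hb => by
      obtain ⟨s, hs, _⟩ := hdiff a ha b hb
      rw [hs]; exact dvd_mul_left _ _) (fun a ha b hb => by
      obtain ⟨s, hs, hsY⟩ := hdiff a ha b hb
      obtain ⟨_, _, _, _, ha4⟩ := hprop a ha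
      obtain ⟨_, _, _, _, hb4⟩ := hprop b hb
      have hsgn : |a - b| ≤ |a + b| := by
        by_cases h0 : 0 ≤ a
        · have h0' : 0 ≤ b := hb4.mp (ha4.mpr h0)
          rw [abs_of_nonneg (by linarith : 0 ≤ a + b)]
          exact abs_le.mpr ⟨by linarith, by linarith⟩
        · have h0' : ¬ 0 ≤ b := fun hc => h0 (ha4.mp (hb4.mpr hc))
          push Not at h0 h0'
          rw [abs_of_neg (by linarith : a + b < 0)]
          exact abs_le.mpr ⟨by linarith, by linarith⟩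
      have hsq : (((a - b : ℤ) : ℝ))^2 ≤ 2 * Y * (m:ℝ)^2 := by
        have h5 : |a - b| * |a - b| ≤ |a - b| * |a + b| :=
          mul_le_mul_of_nonneg_left hsgn (abs_nonneg _)
        rw [← abs_mul, ← abs_mul, abs_mul_self, show (a - b) * (a + b) = a^2 - b^2 by ring, hs]
          at h5
        have h6 : (((a - b : ℤ) : ℝ)) * ((a - b : ℤ) : ℝ) ≤ |((s * (m:ℤ)^2 : ℤ) : ℝ)| := by
          exact_mod_cast h5
        rw [← pow_two] at h6
        push_cast at h6 ⊢
        rw [abs_mul, abs_of_nonneg (by positivity : (0:ℝ) ≤ (m:ℝ)^2)] at h6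
        exact h6.trans (mul_le_mul_of_nonneg_right hsY (by positivity))
      have h7 := Real.abs_le_sqrt hsq
      rwa [Real.sqrt_mul (by positivity), Real.sqrt_sq hmr.le] at h7)
  refine this.trans (le_of_eq ?_)
  congr 2
  field_simp

end PSQ

open PSQ

theorem t_SQ : S_SQ := by
  intro ε hε
  set η := ε / 7 with hη
  have hη0 : 0 < η := by positivity
  obtain ⟨C, hC, hτ⟩ := Pool.Agent.H510R2.divisor_bound η hη0
  refine ⟨2 * C ^ 3 * (4 * (1 + 1 / η)) * 2 ^ ε, by positivity, ?_⟩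
  intro N T Y M₁ E hN hNT hT hY hM h
  classical
  set K := ⌊min M₁ (2 * T)⌋₊ with hK
  have hmin1 : 1 ≤ min M₁ (2 * T) := le_min hM (by linarith)
  have hK1 : 1 ≤ K := Nat.le_floor (by exact_mod_cast hmin1)
  have hKle : (K : ℝ) ≤ min M₁ (2 * T) := Nat.floor_le (by linarith)
  have hKM : (K : ℝ) ≤ M₁ := hKle.trans (min_le_left _ _)
  have hKT : (K : ℝ) ≤ 2 * T := hKle.trans (min_le_right _ _)
  set I := (N.natAbs.divisors ×ˢ Icc 1 K) ×ˢ (univ : Finset Bool) with hI
  set P : ℤ → (ℕ × ℕ) × Bool → Prop := fun β i => ∃ b s : ℤ, β = (i.1.1 : ℤ) * b ∧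
    N = (i.1.1 : ℤ)^2 * (b^2 - s * (i.1.2 : ℤ)^2) ∧ Int.gcd b i.1.2 = 1 ∧ |(s:ℝ)| ≤ Y ∧
    (i.2 = true ↔ 0 ≤ b) with hP
  have hcover : E ⊆ I.biUnion (fun i => E.filter (fun β => P β i)) := by
    intro β hβ
    obtain ⟨hβT, s, m, hs0, hm1, hmM, hsY, hsm⟩ := h β hβ
    have hg0 : 0 < Int.gcd β m := Int.gcd_pos_of_ne_zero_right _ (by omega)
    obtain ⟨b, hb⟩ := Int.gcd_dvd_left (a := β) (b := m)
    obtain ⟨m', hm'⟩ := Int.gcd_dvd_right (a := β) (b := m)
    set g := Int.gcd β m with hg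
    have hgz : (0:ℤ) < g := by exact_mod_cast hg0
    have hm'0 : 0 < m' := by
      have : 0 < (g:ℤ) * m' := by rw [← hm']; omega
      exact (pos_iff_pos_of_mul_pos this).mp hgz
    lift m' to ℕ using hm'0.le with m''
    have hm''0 : 0 < m'' := by exact_mod_cast hm'0
    have hNg : N = (g:ℤ)^2 * (b^2 - s * (m'':ℤ)^2) := by
      have : N = β^2 - s * m^2 := by linarith
      rw [this]
      conv_lhs => rw [hb, hm']
      ring
    have hcop : Int.gcd b m'' = 1 := by
      have h1 : Int.gcd ((g:ℤ) * b) ((g:ℤ) * (m'':ℤ)) = g * Int.gcd b m'' := by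
        rw [Int.gcd_mul_left]; simp
      rw [← hb, ← hm', ← hg] at h1
      have h2 : g * 1 = g * Int.gcd b m'' := by rw [mul_one]; exact h1
      exact (Nat.eq_of_mul_eq_mul_left hg0 h2).symm
    have hm2T : (m:ℝ) ≤ 2 * T := by
      have h1 : (1:ℝ) ≤ |(s:ℝ)| := by
        exact_mod_cast Int.one_le_abs hs0
      have h2 : |(s:ℝ)| * (m:ℝ)^2 = |(β:ℝ)^2 - N| := by
        have : ((β:ℝ)^2 - N) = s * (m:ℝ)^2 := by exact_mod_cast hsm
        rw [this, abs_mul, abs_of_nonneg (by positivity : (0:ℝ) ≤ (m:ℝ)^2)]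
      have h3 : |(β:ℝ)^2 - N| ≤ T^2 + T^2 := by
        refine (abs_sub _ _).trans (add_le_add ?_ hNT)
        rw [abs_pow]
        exact pow_le_pow_left₀ (abs_nonneg _) hβT 2
      have h4 : (m:ℝ)^2 ≤ (2*T)^2 := by
        have h5 : 1 * (m:ℝ)^2 ≤ |(s:ℝ)| * (m:ℝ)^2 :=
          mul_le_mul_of_nonneg_right h1 (by positivity)
        nlinarith [sq_nonneg T]
      exact (pow_le_pow_iff_left₀ (by positivity) (by linarith) two_ne_zero).mp h4
    have hm''m : (m'':ℝ) ≤ m := by
      have h1 : (m'':ℤ) ≤ m := by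
        rw [hm']
        have : (1:ℤ) ≤ g := hgz
        nlinarith
      exact_mod_cast h1
    rw [mem_biUnion]
    refine ⟨((g, m''), decide (0 ≤ b)), ?_, ?_⟩
    · rw [hI, mem_product, mem_product, Nat.mem_divisors, mem_Icc]
      refine ⟨⟨⟨?_, Int.natAbs_ne_zero.mpr hN⟩, hm''0, ?_⟩, mem_univ _⟩
      · rw [← Int.natCast_dvd, hNg]
        exact Dvd.dvd.mul_right (dvd_pow_self _ two_ne_zero) _
      · exact Nat.le_floor (le_min (hm''m.trans hmM) (hm''m.trans hm2T))
    · rw [mem_filter]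
      refine ⟨hβ, b, s, hb, hNg, hcop, hsY, ?_⟩
      simp
  have h1 : (E.card : ℝ) ≤ ∑ i ∈ I, ((E.filter (fun β => P β i)).card : ℝ) := by
    exact_mod_cast (card_le_card hcover).trans card_biUnion_le
  set X := (2 * T) ^ η with hX
  have h2T : 0 ≤ 2 * T := by linarith
  have hX1 : 1 ≤ X := Real.one_le_rpow (by linarith) hη0.le
  have hX0 : 0 < X := by linarith
  have hX2 : ((2 * T)^2) ^ η = X^2 := by
    rw [hX, ← Real.rpow_natCast, ← Real.rpow_natCast, ← Real.rpow_mul h2T, ← Real.rpow_mul h2T]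
    congr 1
    ring
  have h2 : ∀ i ∈ I, ((E.filter (fun β => P β i)).card : ℝ) ≤
      (C * X^2)^2 * (2 * √(2*Y) / i.1.2 + 1) := by
    rintro ⟨⟨g, m⟩, σ⟩ hi
    rw [hI, mem_product, mem_product, Nat.mem_divisors, mem_Icc] at hi
    obtain ⟨⟨⟨hg1, hg2⟩, hm1, hm2⟩, _⟩ := hi
    have hg0 : 0 < g := Nat.pos_of_ne_zero (fun hc => by
      have hg1' : g ∣ N.natAbs := hg1
      rw [hc, zero_dvd_iff] at hg1'
      exact hg2 hg1')
    have h3 := card_fib N Y (by linarith) g m hg0 hm1 σ (E.filter (fun β => P β ((g, m), σ)))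
      (fun β hβ => (mem_filter.mp hβ).2)
    refine h3.trans ?_
    have h4 : (((m^2).divisors.card : ℕ) : ℝ) ≤ C * X^2 := by
      refine (hτ (m^2) (Nat.one_le_pow _ _ hm1)).trans ?_
      rw [← hX2]
      apply mul_le_mul_of_nonneg_left _ hC.le
      apply Real.rpow_le_rpow (by positivity) _ hη0.le
      push_cast
      have : (m:ℝ) ≤ 2 * T := (Nat.cast_le.mpr hm2).trans hKT
      exact pow_le_pow_left₀ (by positivity) this 2
    apply mul_le_mul_of_nonneg_right _ (by positivity)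
    exact pow_le_pow_left₀ (by positivity) h4 2
  have h3 : ∑ i ∈ I, (C * X^2)^2 * (2 * √(2*Y) / (i.1.2:ℝ) + 1) =
      (C * X^2)^2 * ((N.natAbs.divisors.card : ℝ) * (∑ m ∈ Icc 1 K, (2 * √(2*Y) / (m:ℝ) + 1)) * 2) := by
    rw [hI, sum_product, ]
    simp only [sum_const, card_univ, Fintype.card_bool, nsmul_eq_mul]
    rw [sum_product]
    simp only [sum_const, nsmul_eq_mul]
    rw [← mul_sum, ← mul_sum]
    push_cast
    ring
  have hH : ∑ m ∈ Icc 1 K, (2 * √(2*Y) / (m:ℝ) + 1) ≤ 4 * (1 + 1 / η) * X * (√Y + M₁) := by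
    have e1 : ∑ m ∈ Icc 1 K, (2 * √(2*Y) / (m:ℝ) + 1) = 2 * √(2*Y) * (harmonic K : ℝ) + K := by
      rw [sum_add_distrib, harmonic_eq_sum_Icc]
      push_cast
      rw [mul_sum]
      simp [div_eq_mul_inv]
    have e2 : (harmonic K : ℝ) ≤ 1 + Real.log K := harmonic_le_one_add_log K
    have e3 : Real.log K ≤ Real.log (2 * T) :=
      Real.log_le_log (by exact_mod_cast hK1) hKT
    have e4 : Real.log (2 * T) ≤ X / η := Real.log_le_rpow_div h2T hη0
    have e5 : (harmonic K : ℝ) ≤ (1 + 1 / η) * X := by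
      have : (1 + 1 / η) * X = X + X / η := by ring
      rw [this]; linarith
    have e6 : √(2*Y) ≤ 2 * √Y := by
      rw [Real.sqrt_mul (by norm_num)]
      apply mul_le_mul_of_nonneg_right _ (Real.sqrt_nonneg _)
      rw [Real.sqrt_le_left (by norm_num)]; norm_num
    have e7 : 0 ≤ 1 / η := by positivity
    have e8 : 1 ≤ (1 + 1 / η) * X := by nlinarith
    rw [e1]
    have hsY := Real.sqrt_nonneg Y
    have e9 : 2 * √(2*Y) * (harmonic K : ℝ) ≤ (4 * √Y) * ((1 + 1 / η) * X) := by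
      have hh : (0:ℝ) ≤ harmonic K := by
        rw [harmonic_eq_sum_Icc]; push_cast; positivity
      exact mul_le_mul (by linarith) e5 hh (by positivity)
    have e10 : (K:ℝ) ≤ 4 * ((1 + 1 / η) * X) * M₁ := by
      nlinarith
    linarith
  have hdN : (N.natAbs.divisors.card : ℝ) ≤ C * X^2 := by
    refine (hτ _ (Nat.one_le_iff_ne_zero.mpr (Int.natAbs_ne_zero.mpr hN))).trans ?_
    rw [← hX2]
    apply mul_le_mul_of_nonneg_left _ hC.le
    apply Real.rpow_le_rpow (by positivity) _ hη0.le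
    have : ((N.natAbs : ℕ) : ℝ) = |(N:ℝ)| := by
      rw [Nat.cast_natAbs]; simp
    rw [this]
    refine hNT.trans ?_
    exact pow_le_pow_left₀ (by linarith) (by linarith) 2
  have hS0 : 0 ≤ ∑ m ∈ Icc 1 K, (2 * √(2*Y) / (m:ℝ) + 1) := sum_nonneg (fun m _ => by positivity)
  have hX7 : X^7 = 2^ε * T^ε := by
    rw [← Real.mul_rpow (by norm_num) (by linarith), hX, ← Real.rpow_natCast,
      ← Real.rpow_mul h2T]
    congr 1
    rw [hη]; push_cast; ring
  calc (E.card : ℝ) ≤ _ := h1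
    _ ≤ ∑ i ∈ I, (C * X^2)^2 * (2 * √(2*Y) / (i.1.2:ℝ) + 1) := sum_le_sum h2
    _ = (C * X^2)^2 * ((N.natAbs.divisors.card : ℝ) *
        (∑ m ∈ Icc 1 K, (2 * √(2*Y) / (m:ℝ) + 1)) * 2) := h3
    _ ≤ (C * X^2)^2 * ((C * X^2) * (4 * (1 + 1 / η) * X * (√Y + M₁)) * 2) := by
        apply mul_le_mul_of_nonneg_left _ (by positivity)
        apply mul_le_mul_of_nonneg_right _ (by norm_num)
        exact mul_le_mul hdN hH hS0 (by positivity)
    _ = 2 * C ^ 3 * (4 * (1 + 1 / η)) * X^7 * (√Y + M₁) := by ring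
    _ = _ := by rw [hX7]; ring

end Pool.Agent.R365.QP
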