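import Pool.Agent.R365.QP.Small

/-! The conductor and the discriminant are at most powers of the height. -/

set_option autoImplicit false

namespace Pool.Agent.R365.QP

open NumberField IsDedekindDomain Finset Pool.Agent.H691R3 Pool.Agent.W223.AK
open Pool.Agent.W222.UABC

/-- the point `x / (1 - x)` -/
theorem point_of {K : Type} [Field K] [NumberField K] {x : K} (h0 : x ≠ 0) (h1 : x ≠ 1) :
    Pt (x / (1 - x)) ∧
      ht (x / (1 - x)) ≤ (Module.finrank ℚ K : ℝ) * W222.UABC.height ![x, 1 - x, -1] ∧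
      ∃ P : Fin 3 → Idl K, IsP ∅ (x / (1 - x)) P ∧
        (Module.finrank ℚ K : ℝ) * conductor ![x, 1 - x, -1] = rl (P 0) + rl (P 1) + rl (P 2) := by
  have h1' : (1 : K) - x ≠ 0 := sub_ne_zero.2 h1.symm
  set a : Fin 3 → K := ![x, 1 - x, -1] with ha
  have ha0 : a 0 = x := rfl
  have ha1 : a 1 = 1 - x := rfl
  have ha2 : a 2 = -1 := rfl
  have hs : a 0 + a 1 + a 2 = 0 := by rw [ha0, ha1, ha2]; ring
  have hb := H3_bounds (x := a) (by rw [ha1]; exact h1') hs
  have hPt : Pt (a 0 / a 1) := by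
    refine ⟨div_ne_zero (by rw [ha0]; exact h0) (by rw [ha1]; exact h1'), ?_⟩
    rw [ha0, ha1]
    have : x / (1 - x) + 1 = 1 / (1 - x) := by
      field_simp
      ring
    rw [this]
    exact div_ne_zero one_ne_zero h1'
  obtain ⟨P, hP⟩ := exists_isP ∅ hPt
  have hR := R3_eq (T := ∅) (T' := ∅) (fun v => by simp) (x := a) (by rw [ha1]; exact h1') hs hP
  refine ⟨hPt, ?_, P, hP, ?_⟩
  · rw [H3_height]
    exact hb.1
  · rw [R3_empty, hR]

theorem cond_le {K : Type} [Field K] [NumberField K] (hK : Module.finrank ℚ K = 2) {x : K}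
    (h0 : x ≠ 0) (h1 : x ≠ 1) :
    conductor ![x, 1 - x, -1] ≤ 3 * W222.UABC.height ![x, 1 - x, -1] + 3 * Real.log 2 := by
  obtain ⟨hPt, hh, P, hP, hR⟩ := point_of h0 h1
  have hl : ∀ l, rl (P l) ≤ ht (x / (1 - x)) + 2 * Real.log 2 := by
    intro l
    have h1 := rl_le_len (P l)
    have h2 := len_le hPt hP l
    rw [cS_empty, hK] at h2
    push_cast at h2
    linarith
  have k0 := hl 0
  have k1 := hl 1
  have k2 := hl 2
  rw [hK] at hh hR
  push_cast at hh hR
  linarith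

theorem disc_le (hD : S_DISC) {K : Type} [Field K] [NumberField K]
    (hK : Module.finrank ℚ K = 2) {x : K} (hirr : ∀ q : ℚ, x ≠ algebraMap ℚ K q) :
    Real.log |(NumberField.discr K : ℝ)| ≤
      4 * W222.UABC.height ![x, 1 - x, -1] + Real.log 1620 := by
  have h0 : x ≠ 0 := fun h => hirr 0 (by rw [h, map_zero])
  have h1 : x ≠ 1 := fun h => hirr 1 (by rw [h, map_one])
  have h1' : (1 : K) - x ≠ 0 := sub_ne_zero.2 h1.symm
  obtain ⟨hPt, hh, -⟩ := point_of h0 h1
  obtain ⟨A, B, C, k1, k2, k3, k4, k5, k6⟩ := quad hK hPt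
  have hirr' : ∀ q : ℚ, x / (1 - x) ≠ algebraMap ℚ K q := by
    intro q hq
    rw [div_eq_iff h1'] at hq
    have hq1 : (1 : K) + algebraMap ℚ K q ≠ 0 := by
      intro h
      have h2 : algebraMap ℚ K q = -1 := by linear_combination h
      rw [h2] at hq
      have : (0 : K) = 1 := by linear_combination -hq
      exact zero_ne_one this
    apply hirr (q / (1 + q))
    rw [map_div₀, map_add, map_one, eq_div_iff hq1]
    linear_combination hq
  obtain ⟨s, m, m1, m2, m3, m4, m5⟩ := disc_irr hD hK hirr' k1 k6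
  rw [hK] at hh
  push_cast at hh
  set X := ht (x / (1 - x)) with hX
  have hs : |(s : ℝ)| ≤ 405 * Real.exp X ^ 2 := by
    have e1 : ((B : ℝ) ^ 2 - 4 * A * C) = s * (m : ℝ) ^ 2 := by exact_mod_cast m3
    have e2 : (1 : ℝ) ≤ (m : ℝ) ^ 2 := by
      have : (1 : ℤ) ≤ m ^ 2 := by
        have := Int.one_le_abs m2
        nlinarith [sq_abs m]
      exact_mod_cast this
    have e3 : |(s : ℝ)| ≤ |(s : ℝ)| * (m : ℝ) ^ 2 := by
      have := abs_nonneg (s : ℝ)
      nlinarith
    have e4 : |(s : ℝ)| * (m : ℝ) ^ 2 = |(B : ℝ) ^ 2 - 4 * A * C| := by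
      rw [e1, abs_mul, abs_of_nonneg (by positivity : (0 : ℝ) ≤ (m : ℝ) ^ 2)]
    have e5 : |(B : ℝ) ^ 2 - 4 * A * C| ≤ |(B : ℝ)| ^ 2 + 4 * (|(A : ℝ)| * |(C : ℝ)|) := by
      refine (abs_sub _ _).trans (le_of_eq ?_)
      rw [abs_pow, abs_mul, abs_mul, abs_of_pos (by norm_num : (0 : ℝ) < 4)]
      ring
    have e6 : |(B : ℝ)| ^ 2 ≤ (9 * Real.exp X) ^ 2 := by gcongr
    have e7 : |(A : ℝ)| * |(C : ℝ)| ≤ (9 * Real.exp X) * (9 * Real.exp X) := by gcongr
    nlinarith
  have hd : |(NumberField.discr K : ℝ)| ≤ 1620 * Real.exp X ^ 2 := by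
    have : |(NumberField.discr K : ℝ)| ≤ 4 * |(s : ℝ)| := by exact_mod_cast m5
    linarith
  have hd0 : (0 : ℝ) < |(NumberField.discr K : ℝ)| := by
    have := one_le_disc (K := K)
    linarith
  have := Real.log_le_log hd0 hd
  rw [Real.log_mul (by norm_num) (by positivity), Real.log_pow, Real.log_exp] at this
  push_cast at this
  linarith

/-- `δ_K N ≤ C H ^ 5` -/
theorem up (hD : S_DISC) {K : Type} [Field K] [NumberField K]
    (hK : Module.finrank ℚ K = 2) {x : K} (hirr : ∀ q : ℚ, x ≠ algebraMap ℚ K q) :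
    rootDisc K + conductor ![x, 1 - x, -1] ≤
      5 * W222.UABC.height ![x, 1 - x, -1] + (3 * Real.log 2 + Real.log 1620 / 2) := by
  have h0 : x ≠ 0 := fun h => hirr 0 (by rw [h, map_zero])
  have h1 : x ≠ 1 := fun h => hirr 1 (by rw [h, map_one])
  have k1 := cond_le hK h0 h1
  have k2 := disc_le hD hK hirr
  unfold rootDisc
  rw [hK]
  push_cast
  linarith

end Pool.Agent.R365.QP
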