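import Pool.Agent.R365.QP.Low

/-! The lower bound for the number of violations of degree two. -/

set_option autoImplicit false

namespace Pool.Agent.R365.QP

open NumberField IsDedekindDomain Finset Pool.Agent.H691R3 Pool.Agent.W223.AK
open Pool.Agent.W222.UABC

/-- the height is at least the logarithm of the leading coefficient -/
theorem height_low {K : Type} [Field K] [NumberField K] (hK : Module.finrank ℚ K = 2) {t : K}
    (hirr : ∀ q : ℚ, t ≠ algebraMap ℚ K q) {a b c : ℤ} (ha : 0 < a)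
    (hg : Int.gcd a (Int.gcd b c) = 1) (h : (a : K) * t ^ 2 + b * t + c = 0) :
    Real.log a ≤ 2 * W222.UABC.height ![t, 1 - t, -1] + Real.log 27 := by
  have h0 : t ≠ 0 := fun h => hirr 0 (by rw [h, map_zero])
  have h1 : t ≠ 1 := fun h => hirr 1 (by rw [h, map_one])
  have h1' : (1 : K) - t ≠ 0 := sub_ne_zero.2 h1.symm
  obtain ⟨hPt, hh, -⟩ := point_of h0 h1
  obtain ⟨A, B, C, k1, k2, k3, k4, k5, k6⟩ := quad hK hPt
  rw [hK] at hh
  push_cast at hh
  have h' : ((A - B + C : ℤ) : K) * t ^ 2 + ((B - 2 * C : ℤ) : K) * t + (C : K) = 0 := by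
    have e1 : (A : K) * t ^ 2 + B * t * (1 - t) + C * (1 - t) ^ 2 = 0 := by
      have : (A : K) * t ^ 2 + B * t * (1 - t) + C * (1 - t) ^ 2 =
          (1 - t) ^ 2 * ((A : K) * (t / (1 - t)) ^ 2 + B * (t / (1 - t)) + C) := by
        field_simp
      rw [this, k6, mul_zero]
    push_cast
    linear_combination e1
  obtain ⟨m1, m2⟩ := prop_of hirr ha.ne' h h'
  have hd := dvd_of hg m1 m2
  have hne : A - B + C ≠ 0 := by
    intro h3
    rw [h3, zero_mul] at m2
    exact k2 ((mul_eq_zero.1 m2.symm).resolve_left ha.ne')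
  have hle : a ≤ |A - B + C| := by
    have := Int.le_of_dvd (abs_pos.2 hne) ((dvd_abs _ _).2 hd)
    exact this
  have hle2 : (a : ℝ) ≤ 27 * Real.exp (ht (t / (1 - t))) := by
    have e1 : (a : ℝ) ≤ |(A : ℝ) - B + C| := by exact_mod_cast hle
    have e2 : |(A : ℝ) - B + C| ≤ |(A : ℝ)| + |(B : ℝ)| + |(C : ℝ)| :=
      (abs_add_le _ _).trans (add_le_add (abs_sub _ _) le_rfl)
    linarith
  have ha0 : (0 : ℝ) < a := by exact_mod_cast ha
  have := Real.log_le_log ha0 hle2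
  rw [Real.log_mul (by norm_num) (Real.exp_pos _).ne', Real.log_exp] at this
  linarith

/-- the discriminant of the field when the discriminant of the polynomial has a square factor -/
theorem disc_sq (hD : S_DISC) {K : Type} [Field K] [NumberField K]
    (hK : Module.finrank ℚ K = 2) {t : K} (hirr : ∀ q : ℚ, t ≠ algebraMap ℚ K q) {a b c m : ℤ}
    (ha : 0 < a) (hm : 0 < m) (h : (a : K) * t ^ 2 + b * t + c = 0)
    (hdvd : m ^ 2 ∣ b ^ 2 - 4 * a * c) {T : ℝ} (k1 : |(a : ℝ)| ≤ T) (k2 : |(b : ℝ)| ≤ T)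
    (k3 : |(c : ℝ)| ≤ T) : |(NumberField.discr K : ℝ)| * (m : ℝ) ^ 2 ≤ 20 * T ^ 2 := by
  obtain ⟨Δ, hΔ⟩ := hdvd
  have haK : (a : K) ≠ 0 := by exact_mod_cast ha.ne'
  have hmK : (m : K) ≠ 0 := by exact_mod_cast hm.ne'
  have hΔK : (b : K) ^ 2 - 4 * a * c = (m : K) ^ 2 * Δ := by exact_mod_cast congrArg (Int.cast : ℤ → K) hΔ
  obtain ⟨s, n, h1, h2, h3, h4, h5⟩ := hD K hK ((2 * a * t + b) / m) Δ (by
    rw [div_pow, div_eq_iff (pow_ne_zero 2 hmK)]
    linear_combination 4 * (a : K) * h + hΔK) (fun q hq => by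
      rw [div_eq_iff hmK] at hq
      apply hirr ((q * m - b) / (2 * a))
      rw [map_div₀, map_sub, map_mul, map_mul, eq_div_iff (by
        rw [map_ofNat, map_intCast]
        exact mul_ne_zero two_ne_zero haK)]
      simp only [map_ofNat, map_intCast]
      linear_combination hq)
  have e1 : |s| ≤ |Δ| := by
    rw [h3, abs_mul]
    have : 1 ≤ |n ^ 2| := Int.one_le_abs (pow_ne_zero 2 h2)
    have := abs_nonneg s
    nlinarith
  have e2 : |(NumberField.discr K : ℝ)| ≤ 4 * |(Δ : ℝ)| := by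
    have : |NumberField.discr K| ≤ 4 * |Δ| := by linarith
    exact_mod_cast this
  have e3 : |(Δ : ℝ)| * (m : ℝ) ^ 2 = |(b : ℝ) ^ 2 - 4 * a * c| := by
    have : ((b : ℝ) ^ 2 - 4 * a * c) = (m : ℝ) ^ 2 * Δ := by exact_mod_cast congrArg (Int.cast : ℤ → ℝ) hΔ
    rw [this, abs_mul, abs_of_nonneg (by positivity : (0 : ℝ) ≤ (m : ℝ) ^ 2)]
    ring
  have e5 : |(b : ℝ) ^ 2 - 4 * a * c| ≤ |(b : ℝ)| ^ 2 + 4 * (|(a : ℝ)| * |(c : ℝ)|) := by
    refine (abs_sub _ _).trans (le_of_eq ?_)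
    rw [abs_pow, abs_mul, abs_mul, abs_of_pos (by norm_num : (0 : ℝ) < 4)]
    ring
  have e6 : |(b : ℝ)| ^ 2 ≤ T ^ 2 := by gcongr
  have e7 : |(a : ℝ)| * |(c : ℝ)| ≤ T * T := by
    have := (abs_nonneg (a : ℝ)).trans k1
    gcongr
  calc |(NumberField.discr K : ℝ)| * (m : ℝ) ^ 2 ≤ 4 * |(Δ : ℝ)| * (m : ℝ) ^ 2 := by gcongr
    _ = 4 * (|(Δ : ℝ)| * (m : ℝ) ^ 2) := by ring
    _ ≤ 20 * T ^ 2 := by
        rw [e3]
        nlinarith

/-- many violations -/
theorem vio_low (hD : S_DISC) (hR : S_ROOT) (hH : S_HSUM) (hL : S_LOWC) {κ c ε : ℝ}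
    (h5 : 1 / 5 ≤ κ) (h4 : κ < 1 / 4) (hε : 0 < ε) : ∃ m B0 : ℝ, 0 < m ∧ 1 ≤ B0 ∧
      ∀ B : ℝ, B0 ≤ B → ∃ E : Finset (AlgebraicClosure ℚ),
        m * B ^ (1 + 1 / κ - ε) ≤ (E.card : ℝ) ∧ ∀ x ∈ E, Vio κ c B x := by
  classical
  have hκ : 0 < κ := by linarith
  obtain ⟨u, hu⟩ : ∃ u : ℝ, u = 1 / κ - 3 := ⟨_, rfl⟩
  have hκu : κ * (u + 3) = 1 := by
    rw [hu]
    field_simp
    ring
  have hu1 : 1 < u := by
    rw [hu]
    have : 4 < 1 / κ := by
      rw [lt_div_iff₀ hκ]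
      linarith
    linarith
  have hu2 : u ≤ 2 := by
    rw [hu]
    have : 1 / κ ≤ 5 := by
      rw [div_le_iff₀ hκ]
      linarith
    linarith
  obtain ⟨τ, hτ⟩ : ∃ τ : ℝ, τ = min (ε / 2) ((u - 1) / 2) := ⟨_, rfl⟩
  have hτ0 : 0 < τ := by rw [hτ]; exact lt_min (by positivity) (by linarith)
  have hτε : τ ≤ ε / 2 := by rw [hτ]; exact min_le_left _ _
  have hτu : τ ≤ (u - 1) / 2 := by rw [hτ]; exact min_le_right _ _
  obtain ⟨v, hv⟩ : ∃ v : ℝ, v = u - τ := ⟨_, rfl⟩
  have hv1 : 1 ≤ v := by linarith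
  have hv2 : v < 2 := by linarith
  obtain ⟨c1, hc1, hlow⟩ := hL (ε / 4) (by positivity)
  obtain ⟨C, hC0, hC⟩ := exists_pts hR hH
  obtain ⟨K1, hK1⟩ : ∃ K1 : ℝ, K1 = Real.log 4 + Real.log 320 / 2 + 3 * Real.log 2 := ⟨_, rfl⟩
  have hl2 : 0 ≤ Real.log 2 := Real.log_nonneg (by norm_num)
  have hl4 : 0 ≤ Real.log 4 := Real.log_nonneg (by norm_num)
  have hl54 : 0 ≤ Real.log 54 := Real.log_nonneg (by norm_num)
  have hl320 : 0 ≤ Real.log 320 := Real.log_nonneg (by norm_num)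
  have hK10 : 0 ≤ K1 := by rw [hK1]; positivity
  obtain ⟨L1, hL1⟩ : ∃ L1 : ℝ, L1 = 2 * (|c| + K1 + Real.log 54) / (κ * τ) + 2 * Real.log 4 / τ + 1 :=
    ⟨_, rfl⟩
  obtain ⟨T0, hT0⟩ : ∃ T0 : ℝ, T0 = max 1 (max c1⁻¹ (Real.exp L1)) := ⟨_, rfl⟩
  have hT01 : 1 ≤ T0 := by rw [hT0]; exact le_max_left _ _
  have he2 : 1 ≤ Real.exp (2 * C) := Real.one_le_exp (by linarith)
  refine ⟨4 * c1 * Real.exp (-(2 * C)) ^ (2 + v / 2 - ε / 4), T0 * Real.exp (2 * C),
    by positivity, by nlinarith, ?_⟩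
  intro B hB
  have hB1 : 1 ≤ B := by nlinarith
  have hB0 : 0 < B := by linarith
  obtain ⟨T, hT⟩ : ∃ T : ℝ, T = B ^ 2 * Real.exp (-(2 * C)) := ⟨_, rfl⟩
  have hTT0 : T0 ≤ T := by
    have h1 : T0 * Real.exp (2 * C) ≤ B ^ 2 := by nlinarith
    have h2 : Real.exp (2 * C) * Real.exp (-(2 * C)) = 1 := by
      rw [← Real.exp_add]
      simp
    rw [hT]
    calc T0 = T0 * Real.exp (2 * C) * Real.exp (-(2 * C)) := by rw [mul_assoc, h2, mul_one]
      _ ≤ B ^ 2 * Real.exp (-(2 * C)) := by gcongr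
  have hT1 : 1 ≤ T := hT01.trans hTT0
  have hTpos : 0 < T := by linarith
  have hTc : c1⁻¹ ≤ T := by
    refine le_trans ?_ hTT0
    rw [hT0]
    exact (le_max_left _ _).trans (le_max_right _ _)
  have hTL : L1 ≤ Real.log T := by
    rw [Real.le_log_iff_exp_le hTpos]
    refine le_trans ?_ hTT0
    rw [hT0]
    exact (le_max_right _ _).trans (le_max_right _ _)
  have hlT0 : 0 ≤ Real.log T := Real.log_nonneg hT1
  obtain ⟨M, hM⟩ : ∃ M : ℝ, M = T ^ (1 - v / 2) / 4 := ⟨_, rfl⟩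
  have hMpos : 0 < M := by rw [hM]; positivity
  have hlogM : Real.log M = (1 - v / 2) * Real.log T - Real.log 4 := by
    rw [hM, Real.log_div (by positivity) (by norm_num), Real.log_rpow hTpos]
  have hL1a : 2 * (|c| + K1 + Real.log 54) / (κ * τ) < Real.log T := by
    have : 0 ≤ 2 * Real.log 4 / τ := by positivity
    linarith
  have hL1b : 2 * Real.log 4 / τ ≤ Real.log T := by
    have : 0 ≤ 2 * (|c| + K1 + Real.log 54) / (κ * τ) := by
      have := abs_nonneg c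
      positivity
    linarith
  have hM1 : 1 ≤ M := by
    rw [← Real.log_nonneg_iff hMpos, hlogM]
    rw [div_le_iff₀ hτ0] at hL1b
    have h1 : τ / 2 ≤ 1 - v / 2 := by linarith
    have h2 : τ / 2 * Real.log T ≤ (1 - v / 2) * Real.log T := mul_le_mul_of_nonneg_right h1 hlT0
    linarith
  have hM2 : 16 * M ^ 2 ≤ T := by
    have h1 : 16 * M ^ 2 = T ^ (2 - v) := by
      rw [hM, div_pow, ← Real.rpow_natCast (T ^ (1 - v / 2)) 2, ← Real.rpow_mul hTpos.le]
      have : (1 - v / 2) * ((2 : ℕ) : ℝ) = 2 - v := by push_cast; ring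
      rw [this]
      ring
    rw [h1]
    calc T ^ (2 - v) ≤ T ^ (1 : ℝ) := Real.rpow_le_rpow_of_exponent_le hT1 (by linarith)
      _ = T := Real.rpow_one T
  obtain ⟨F, hF1, hF2⟩ := hlow T M hTc hM1 hM2
  obtain ⟨E, hE1, hE2⟩ := hC T F hT1 (by
    intro p hp
    obtain ⟨k1, k2, k3, k4, k5, k6, k7, k8, -⟩ := hF2 p hp
    have hp0 : (0 : ℝ) < p.1 := by linarith
    have hp0' : 0 < p.1 := by exact_mod_cast hp0
    refine ⟨⟨k1, k2, k3, hp0', ?_⟩, ?_, k6, k7⟩
    · rw [← Int.isCoprime_iff_gcd_eq_one] at k8 ⊢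
      exact k8.of_isCoprime_of_dvd_right (Int.gcd_dvd_left _ _)
    · rw [abs_of_pos hp0]
      exact k5)
  refine ⟨E, ?_, ?_⟩
  · rw [hE1]
    refine le_trans ?_ hF1
    have e1 : c1 * T ^ (3 - ε / 4) / M = 4 * c1 * T ^ (2 + v / 2 - ε / 4) := by
      rw [hM]
      have : T ^ (3 - ε / 4) = T ^ (2 + v / 2 - ε / 4) * T ^ (1 - v / 2) := by
        rw [← Real.rpow_add hTpos]
        congr 1
        ring
      rw [this]
      have h0 : T ^ (1 - v / 2) ≠ 0 := by positivity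
      field_simp
    have e2 : T ^ (2 + v / 2 - ε / 4) =
        B ^ (4 + v - ε / 2) * Real.exp (-(2 * C)) ^ (2 + v / 2 - ε / 4) := by
      rw [hT, Real.mul_rpow (by positivity) (Real.exp_pos _).le, ← Real.rpow_natCast B 2,
        ← Real.rpow_mul hB0.le]
      congr 2
      push_cast
      ring
    rw [e1, e2]
    have e3 : B ^ (1 + 1 / κ - ε) ≤ B ^ (4 + v - ε / 2) := by
      apply Real.rpow_le_rpow_of_exponent_le hB1
      have : 1 / κ = u + 3 := by linarith
      rw [this, hv]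
      linarith
    have e4 : 0 ≤ 4 * c1 * Real.exp (-(2 * C)) ^ (2 + v / 2 - ε / 4) := by positivity
    calc 4 * c1 * Real.exp (-(2 * C)) ^ (2 + v / 2 - ε / 4) * B ^ (1 + 1 / κ - ε) ≤
        4 * c1 * Real.exp (-(2 * C)) ^ (2 + v / 2 - ε / 4) * B ^ (4 + v - ε / 2) :=
          mul_le_mul_of_nonneg_left e3 e4
      _ = _ := by ring
  · intro x hx
    obtain ⟨p, hp, K, hnf, t, j1, j2, j3, j4, j5⟩ := hE2 x hx
    obtain ⟨k1, k2, k3, k4, k5, k6, k7, k8, m, k9, k10, k11⟩ := hF2 p hp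
    have hp0 : (0 : ℝ) < p.1 := by linarith
    have hp0' : 0 < p.1 := by exact_mod_cast hp0
    have hg : Int.gcd p.1 (Int.gcd p.2.1 p.2.2) = 1 := by
      rw [← Int.isCoprime_iff_gcd_eq_one] at k8 ⊢
      exact k8.of_isCoprime_of_dvd_right (Int.gcd_dvd_left _ _)
    obtain ⟨h, hh⟩ : ∃ h : ℝ, h = W222.UABC.height ![t, 1 - t, -1] := ⟨_, rfl⟩
    have hlog : Real.log T / 2 + C = Real.log B := by
      rw [hT, Real.log_mul (by positivity) (by positivity), Real.log_exp, Real.log_pow]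
      push_cast
      ring
    have hlo := height_low j2 j3 hp0' hg j4
    have hdi := disc_sq hD j2 j3 hp0' k10 j4 k11 (by rw [abs_of_pos hp0]; exact k5) k6 k7
    have hco := cond_le j2 (x := t) (fun h => j3 0 (by rw [h, map_zero]))
      (fun h => j3 1 (by rw [h, map_one]))
    rw [← hh] at j5 hlo hco
    have hla : Real.log T - Real.log 2 ≤ Real.log p.1 := by
      rw [← Real.log_div hTpos.ne' (by norm_num)]
      exact Real.log_le_log (by positivity) k4
    have h2754 : Real.log 2 + Real.log 27 = Real.log 54 := by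
      rw [← Real.log_mul (by norm_num) (by norm_num)]
      norm_num
    have hd1 : (0 : ℝ) < |(NumberField.discr K : ℝ)| := by
      have := one_le_disc (K := K)
      linarith
    have hm0 : (0 : ℝ) < m := by exact_mod_cast k10
    have hrd : Real.log |(NumberField.discr K : ℝ)| ≤ v * Real.log T + 2 * Real.log 4 + Real.log 320 := by
      have h1 : |(NumberField.discr K : ℝ)| * M ^ 2 ≤ 320 * T ^ 2 := by
        have h0 : M ^ 2 ≤ (4 * (m : ℝ)) ^ 2 := pow_le_pow_left₀ hMpos.le (by linarith) 2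
        have h00 := mul_le_mul_of_nonneg_left h0 hd1.le
        have h01 : |(NumberField.discr K : ℝ)| * (4 * (m : ℝ)) ^ 2 =
            16 * (|(NumberField.discr K : ℝ)| * (m : ℝ) ^ 2) := by ring
        rw [h01] at h00
        linarith
      have h2 := Real.log_le_log (by positivity) h1
      rw [Real.log_mul hd1.ne' (by positivity), Real.log_mul (by norm_num) (by positivity),
        Real.log_pow, Real.log_pow, hlogM] at h2
      push_cast at h2
      linarith
    refine ⟨K, hnf, t, j1, j2, j3, ?_, ?_⟩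
    · rw [← hh]
      linarith
    · rw [← hh]
      have hroot : rootDisc K = Real.log |(NumberField.discr K : ℝ)| / 2 := by
        unfold rootDisc
        rw [j2]
        norm_num
      rw [hroot]
      have h1 : Real.log |(NumberField.discr K : ℝ)| / 2 + conductor ![t, 1 - t, -1] ≤
          v / 2 * Real.log T + K1 + 3 * h := by
        rw [hK1]
        linarith
      have h2 : κ * (Real.log |(NumberField.discr K : ℝ)| / 2 + conductor ![t, 1 - t, -1]) ≤
          κ * (v / 2 * Real.log T + K1 + 3 * h) := mul_le_mul_of_nonneg_left h1 hκ.le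
      have h3 : (Real.log T - Real.log 54) / 2 ≤ h := by linarith
      have h4' : 0 < 1 - 3 * κ := by linarith
      have h6 : (1 - 3 * κ) * ((Real.log T - Real.log 54) / 2) ≤ (1 - 3 * κ) * h :=
        mul_le_mul_of_nonneg_left h3 h4'.le
      rw [div_lt_iff₀ (by positivity)] at hL1a
      have h7 : 1 - 3 * κ = κ * u := by linarith
      have h8 : κ * K1 ≤ K1 := mul_le_of_le_one_left hK10 (by linarith)
      have h9 : (1 - 3 * κ) * Real.log 54 ≤ Real.log 54 :=
        mul_le_of_le_one_left hl54 (by linarith)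
      have h10 : c ≤ |c| := le_abs_self c
      have h12 : (1 - 3 * κ) * Real.log T = κ * u * Real.log T := by rw [h7]
      have g1 : κ * (v / 2 * Real.log T + K1 + 3 * h) =
          (κ * u * Real.log T - κ * τ * Real.log T) / 2 + κ * K1 + 3 * (κ * h) := by
        rw [hv]
        ring
      have g2 : (1 - 3 * κ) * h = h - 3 * (κ * h) := by ring
      have g3 : (1 - 3 * κ) * ((Real.log T - Real.log 54) / 2) =
          ((1 - 3 * κ) * Real.log T - (1 - 3 * κ) * Real.log 54) / 2 := by ring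
      have g4 : Real.log T * (κ * τ) = κ * τ * Real.log T := by ring
      rw [g4] at hL1a
      rw [g1] at h2
      rw [g2, g3, h12] at h6
      linarith

end Pool.Agent.R365.QP
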