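import Pool.Agent.R365.QP.Jup2
import Pool.Agent.R365.QP.Up

/-! The upper bound for the number of violations of degree two. -/

set_option autoImplicit false

namespace Pool.Agent.R365.QP

open NumberField IsDedekindDomain Finset Pool.Agent.H691R3 Pool.Agent.W223.AK
open Pool.Agent.W222.UABC

/-- `x` has degree two, height at most `B` and violates the inequality -/
def Vio (κ c B : ℝ) (x : AlgebraicClosure ℚ) : Prop :=
  ∃ (K : IntermediateField ℚ (AlgebraicClosure ℚ)) (_ : NumberField K) (t : K),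
    (t : AlgebraicClosure ℚ) = x ∧ Module.finrank ℚ K = 2 ∧ (∀ q : ℚ, t ≠ algebraMap ℚ K q) ∧
      W222.UABC.height ![t, 1 - t, -1] ≤ Real.log B ∧
      c + κ * (rootDisc K + conductor ![t, 1 - t, -1]) < W222.UABC.height ![t, 1 - t, -1]

theorem inj_div (E : Finset (AlgebraicClosure ℚ)) (h : ∀ x ∈ E, x ≠ 1) :
    Set.InjOn (fun x : AlgebraicClosure ℚ => x / (1 - x)) (E : Set _) := inj_frac E h

theorem vio_up (hD : S_DISC) (hC : S_COUNT) (hJ : S_JUP) {κ c ε : ℝ} (h5 : 1 / 5 ≤ κ)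
    (h4 : κ ≤ 1 / 4) (hε : 0 < ε) : ∃ M : ℝ, 0 < M ∧ ∀ B : ℝ, 1 ≤ B →
      ∀ E : Finset (AlgebraicClosure ℚ), (∀ x ∈ E, Vio κ c B x) →
        (E.card : ℝ) ≤ M * B ^ (1 + 1 / κ + ε) := by
  classical
  have hκ : 0 < κ := by linarith
  obtain ⟨lam, hlam⟩ : ∃ lam : ℝ, lam = 1 / κ := ⟨_, rfl⟩
  have hl4 : 4 ≤ lam := by
    rw [hlam, le_div_iff₀ hκ]
    linarith
  have hl5 : lam ≤ 5 := by
    rw [hlam, div_le_iff₀ hκ]
    linarith
  obtain ⟨ε1, hε1⟩ : ∃ ε1 : ℝ, ε1 = ε / 4 := ⟨_, rfl⟩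
  have hε10 : 0 < ε1 := by rw [hε1]; positivity
  obtain ⟨D1, hD1, hsmall⟩ := small hD hC hε10
  obtain ⟨D2, hD2, hjup⟩ := jup_card hD hJ hε10
  obtain ⟨Lc, hLc⟩ : ∃ Lc : ℝ, Lc = Real.log 1620 := ⟨_, rfl⟩
  have hLc0 : 0 ≤ Lc := by rw [hLc]; exact Real.log_nonneg (by norm_num)
  obtain ⟨C0, hC0⟩ : ∃ C0 : ℝ, C0 = 10 * |c| + Lc := ⟨_, rfl⟩
  have hC00 : 0 ≤ C0 := by rw [hC0]; positivity
  obtain ⟨K0, hK0⟩ : ∃ K0 : ℕ, K0 = ⌈(2 + Lc) / ε1⌉₊ := ⟨_, rfl⟩
  refine ⟨D1 + (K0 + 1) * (D2 * (3 * Real.exp (2 / 3 * ε1 + 2 / 3 * C0))), by positivity, ?_⟩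
  intro B hB E hE
  have hB0 : 0 < B := by linarith
  have hlB : 0 ≤ Real.log B := Real.log_nonneg hB
  obtain ⟨X, hX⟩ : ∃ X : ℝ, X = 2 * Real.log B := ⟨_, rfl⟩
  have hX0 : 0 ≤ X := by rw [hX]; positivity
  obtain ⟨u, hu⟩ : ∃ u : ℝ, u = lam - 3 := ⟨_, rfl⟩
  have hu1 : 1 ≤ u := by linarith
  have hu2 : u ≤ 2 := by linarith
  -- the data of a point
  have hex : ∀ x : AlgebraicClosure ℚ, ∃ δ : ℝ, x ∈ E → (x ≠ 1 ∧ 0 ≤ δ ∧ δ ≤ 2 * X + Lc ∧
      ∃ (K : IntermediateField ℚ (AlgebraicClosure ℚ)) (_ : NumberField K) (t : K),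
        (t : AlgebraicClosure ℚ) = x / (1 - x) ∧ Module.finrank ℚ K = 2 ∧ Pt t ∧ ht t ≤ X ∧
          Real.log |(NumberField.discr K : ℝ)| = δ ∧ ∃ P : Fin 3 → Idl K, IsP ∅ t P ∧
            rl (P 0) + rl (P 1) + rl (P 2) ≤ lam * X + C0 - δ) := by
    intro x
    by_cases hx : x ∈ E
    · obtain ⟨K, hnf, t, htx, hK, hirr, hh, hv⟩ := hE x hx
      have ht0 : t ≠ 0 := fun h => hirr 0 (by rw [h, map_zero])
      have ht1 : t ≠ 1 := fun h => hirr 1 (by rw [h, map_one])
      obtain ⟨hPt, hht, P, hP, hR⟩ := point_of ht0 ht1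
      have hdl := disc_le hD hK hirr
      refine ⟨Real.log |(NumberField.discr K : ℝ)|, fun _ => ⟨?_, ?_, ?_, K, hnf, t / (1 - t), ?_, hK,
        hPt, ?_, rfl, P, hP, ?_⟩⟩
      · rw [← htx]
        intro h
        apply ht1
        exact_mod_cast h
      · exact Real.log_nonneg one_le_disc
      · rw [hX, hLc]
        linarith
      · rw [← htx]
        push_cast
        rfl
      · rw [hK] at hht
        push_cast at hht
        rw [hX]
        linarith
      · rw [hK] at hR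
        push_cast at hR
        rw [← hR]
        have h1 : rootDisc K = Real.log |(NumberField.discr K : ℝ)| / 2 := by
          unfold rootDisc
          rw [hK]
          norm_num
        rw [h1] at hv
        obtain ⟨d, hd⟩ : ∃ d : ℝ, d = Real.log |(NumberField.discr K : ℝ)| := ⟨_, rfl⟩
        obtain ⟨q, hq⟩ : ∃ q : ℝ, q = conductor ![t, 1 - t, -1] := ⟨_, rfl⟩
        rw [← hd, ← hq] at hv
        rw [← hd, ← hq]
        have h2 : κ * (d / 2 + q) ≤ Real.log B + |c| := by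
          have := neg_abs_le c
          linarith
        have h3 : d / 2 + q ≤ lam * (Real.log B + |c|) := by
          rw [hlam, div_mul_eq_mul_div, one_mul, le_div_iff₀ hκ]
          linarith
        have h4 : lam * |c| ≤ 5 * |c| := mul_le_mul_of_nonneg_right hl5 (abs_nonneg c)
        rw [hC0, hX]
        nlinarith
    · exact ⟨0, fun h => absurd h hx⟩
  choose δ hδ using hex
  obtain ⟨g, hg⟩ : ∃ g : ℝ, g = ε1 * (X + 1) := ⟨_, rfl⟩
  have hg0 : 0 < g := by rw [hg]; positivity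
  set E1 := E.filter fun x => δ x ≤ u * X with hE1
  set E2 := E.filter fun x => ¬ δ x ≤ u * X with hE2
  have hsplit : E.card = E1.card + E2.card :=
    (Finset.card_filter_add_card_filter_not (s := E) (fun x => δ x ≤ u * X)).symm
  -- small discriminants
  have hc1 : (E1.card : ℝ) ≤ D1 * Real.exp ((2 + u / 2) * X + ε1 * X) := by
    rw [← Finset.card_image_of_injOn (inj_div E1 fun x hx =>
      (hδ x (Finset.mem_filter.1 hx).1).1)]
    refine (hsmall X (u * X) _ hX0 (by positivity) ?_).trans (le_of_eq ?_)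
    · intro y hy
      obtain ⟨x, hx, rfl⟩ := Finset.mem_image.1 hy
      obtain ⟨hxE, hxd⟩ := Finset.mem_filter.1 hx
      obtain ⟨-, -, -, K, hnf, t, k1, k2, k3, k4, k5, -⟩ := hδ x hxE
      exact ⟨K, hnf, t, k1, k2, k3, k4, k5.le.trans hxd⟩
    · congr 2
      ring
  -- large discriminants
  have hmaps : ∀ x ∈ E2, ⌊δ x / g⌋₊ ∈ Finset.range (K0 + 1) := by
    intro x hx
    obtain ⟨hxE, -⟩ := Finset.mem_filter.1 hx
    obtain ⟨-, h0, h1, -⟩ := hδ x hxE
    rw [Finset.mem_range, Nat.lt_succ_iff, hK0]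
    refine (Nat.floor_le_ceil _).trans (Nat.ceil_mono ?_)
    rw [div_le_div_iff₀ hg0 hε10, hg]
    have e1 : (2 + Lc) * (ε1 * (X + 1)) = ε1 * ((2 + Lc) * (X + 1)) := by ring
    rw [e1, mul_comm]
    refine mul_le_mul_of_nonneg_left ?_ hε10.le
    nlinarith [mul_nonneg hLc0 hX0]
  have hclass : ∀ k ∈ Finset.range (K0 + 1),
      ((E2.filter fun x => ⌊δ x / g⌋₊ = k).card : ℝ) ≤
        D2 * (3 * Real.exp (2 / 3 * ε1 + 2 / 3 * C0)) * Real.exp ((2 + u / 2) * X + 2 * ε1 * X) := by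
    intro k _
    rcases (E2.filter fun x => ⌊δ x / g⌋₊ = k).eq_empty_or_nonempty with hemp | ⟨x1, hx1⟩
    · rw [hemp, Finset.card_empty, Nat.cast_zero]
      positivity
    · have hk : ∀ x ∈ E2.filter (fun x => ⌊δ x / g⌋₊ = k), x ∈ E ∧ u * X < δ x ∧
          (k : ℝ) * g ≤ δ x ∧ δ x < ((k : ℝ) + 1) * g := by
        intro x hx
        obtain ⟨hx2, hxk⟩ := Finset.mem_filter.1 hx
        obtain ⟨hxE, hxd⟩ := Finset.mem_filter.1 hx2
        obtain ⟨-, h0, -⟩ := hδ x hxE
        have a1 := Nat.floor_le (div_nonneg h0 hg0.le)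
        have a2 := Nat.lt_floor_add_one (δ x / g)
        rw [hxk] at a1 a2
        rw [le_div_iff₀ hg0] at a1
        rw [div_lt_iff₀ hg0] at a2
        exact ⟨hxE, not_le.1 hxd, a1, a2⟩
      obtain ⟨y1, y2, y3, y4⟩ := hk x1 hx1
      obtain ⟨-, z1, z2, -⟩ := hδ x1 y1
      have hlX : 4 * X ≤ lam * X := mul_le_mul_of_nonneg_right hl4 hX0
      have habs : 0 ≤ |c| := abs_nonneg c
      have hW : 0 ≤ lam * X + C0 - k * g := by
        rw [hC0]
        linarith
      have hkg : u * X - g ≤ k * g := by linarith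
      have hV0 : 0 ≤ (1 - u / 2) * X := mul_nonneg (by linarith) hX0
      have hVX : (1 - u / 2) * X ≤ X := by nlinarith
      rw [← Finset.card_image_of_injOn (inj_div _ fun x hx => (hδ x (hk x hx).1).1)]
      refine (hjup X (((k : ℝ) + 1) * g) (lam * X + C0 - k * g) ((1 - u / 2) * X) _ hX0
        (by positivity) hW hV0 hVX ?_).trans ?_
      · intro y hy
        obtain ⟨x, hx, rfl⟩ := Finset.mem_image.1 hy
        obtain ⟨w1, w2, w3, w4⟩ := hk x hx
        obtain ⟨-, -, -, K, hnf, t, k1, k2, k3, k4, k5, P, k6, k7⟩ := hδ x w1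
        exact ⟨K, hnf, t, k1, k2, k3, k4, k5.le.trans w4.le, P, k6, k7.trans (by linarith)⟩
      · obtain ⟨F, hF⟩ : ∃ F : ℝ, F = (2 + u / 2) * X + 2 / 3 * g + 2 / 3 * C0 := ⟨_, rfl⟩
        have e1 : Real.exp (2 / 3 * (lam * X + C0 - k * g)) * Real.exp (((k : ℝ) + 1) * g / 2) ≤
            Real.exp F := by
          rw [← Real.exp_add]
          apply Real.exp_le_exp.2
          rw [hF]
          have : lam = u + 3 := by linarith
          rw [this]
          nlinarith
        have e2 : Real.exp (2 / 3 * (lam * X + C0 - k * g)) * Real.exp ((1 - u / 2) * X) ≤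
            Real.exp F := by
          rw [← Real.exp_add]
          apply Real.exp_le_exp.2
          rw [hF]
          have : lam = u + 3 := by linarith
          rw [this]
          have h7 : X ≤ u * X := by nlinarith
          nlinarith
        have e3 : Real.exp (3 * X - (1 - u / 2) * X) ≤ Real.exp F := by
          apply Real.exp_le_exp.2
          rw [hF]
          have h7 : 0 ≤ 2 / 3 * g + 2 / 3 * C0 := by positivity
          linarith
        have e4 : Real.exp (ε1 * X) * Real.exp F ≤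
            Real.exp (2 / 3 * ε1 + 2 / 3 * C0) * Real.exp ((2 + u / 2) * X + 2 * ε1 * X) := by
          rw [← Real.exp_add, ← Real.exp_add]
          apply Real.exp_le_exp.2
          rw [hF, hg]
          have : 0 ≤ ε1 * X := by positivity
          linarith
        calc D2 * Real.exp (ε1 * X) * (Real.exp (2 / 3 * (lam * X + C0 - k * g)) *
              (Real.exp (((k : ℝ) + 1) * g / 2) + Real.exp ((1 - u / 2) * X)) +
              Real.exp (3 * X - (1 - u / 2) * X)) ≤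
            D2 * Real.exp (ε1 * X) * (3 * Real.exp F) := by
              refine mul_le_mul_of_nonneg_left ?_ (by positivity)
              rw [mul_add]
              linarith
          _ = D2 * 3 * (Real.exp (ε1 * X) * Real.exp F) := by ring
          _ ≤ D2 * 3 * (Real.exp (2 / 3 * ε1 + 2 / 3 * C0) *
                Real.exp ((2 + u / 2) * X + 2 * ε1 * X)) := by gcongr
          _ = _ := by ring
  have hc2 : (E2.card : ℝ) ≤ (K0 + 1) * (D2 * (3 * Real.exp (2 / 3 * ε1 + 2 / 3 * C0))) *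
      Real.exp ((2 + u / 2) * X + 2 * ε1 * X) := by
    rw [Finset.card_eq_sum_card_fiberwise hmaps]
    push_cast
    refine (Finset.sum_le_sum hclass).trans (le_of_eq ?_)
    rw [Finset.sum_const, Finset.card_range, nsmul_eq_mul]
    push_cast
    ring
  have hBe : Real.exp ((2 + u / 2) * X + 2 * ε1 * X) = B ^ (1 + 1 / κ + ε) := by
    rw [Real.rpow_def_of_pos hB0, ← hlam, hX, hε1, hu]
    congr 1
    ring
  have hle : Real.exp ((2 + u / 2) * X + ε1 * X) ≤ Real.exp ((2 + u / 2) * X + 2 * ε1 * X) := by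
    apply Real.exp_le_exp.2
    have : 0 ≤ ε1 * X := by positivity
    linarith
  rw [← hBe, hsplit]
  push_cast
  calc (E1.card : ℝ) + E2.card ≤ D1 * Real.exp ((2 + u / 2) * X + 2 * ε1 * X) +
        (K0 + 1) * (D2 * (3 * Real.exp (2 / 3 * ε1 + 2 / 3 * C0))) *
          Real.exp ((2 + u / 2) * X + 2 * ε1 * X) :=
        add_le_add (hc1.trans (mul_le_mul_of_nonneg_left hle hD1.le)) hc2
    _ = _ := by ring

end Pool.Agent.R365.QP
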